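import Mathlib

namespace Pool.Agent.LRes

/-- `d` is a positive fundamental discriminant different from `1`. -/
def IsFund (d : ℕ) : Prop :=
  1 < d ∧ ((d % 4 = 1 ∧ Squarefree d) ∨
    ∃ m : ℕ, d = 4 * m ∧ (m % 4 = 2 ∨ m % 4 = 3) ∧ Squarefree m)

/-- The Kronecker symbol `(d / n)` for `d > 1`: zero at `n = 0`, completely multiplicative in `n`,
the Legendre symbol at odd primes, and at `2` equal to `0, 1, -1` for `d` even, `d = ±1 mod 8`,
`d = ±3 mod 8`. -/
def kron (d n : ℕ) : ℤ :=
  if n = 0 then 0 else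
    (n.primeFactorsList.map fun p => if p = 2 then ZMod.χ₈ (d : ZMod 8) else jacobiSym d p).prod

/-- The central value `L(1/2, χ_d)`, with Mathlib's continuation of the L-series of the function
`a ↦ (d / a)` on `ZMod d`. -/
noncomputable def Lhalf (d : ℕ) : ℝ :=
  if h : d = 0 then 0 else
    haveI : NeZero d := ⟨h⟩
    (ZMod.LFunction (fun a : ZMod d => (kron d a.val : ℂ)) (1 / 2)).re

open Classical in
/-- The positive fundamental discriminants `1 < d < X`. -/
noncomputable def SPlus (X : ℝ) : Finset ℕ := (Finset.range ⌈X⌉₊).filter IsFund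

end Pool.Agent.LRes
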