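import Mathlib

namespace Pool.Agent.KMom

open MeasureTheory Real

/-- The Weyl density (not normalised) of the eigenangles of Haar measure on `USp(2N)`. -/
noncomputable def weyl {N : ℕ} (θ : Fin N → ℝ) : ℝ :=
  (∏ i, sin (θ i) ^ 2) * ∏ i, ∏ j ∈ Finset.Ioi i, (2 * cos (θ j) - 2 * cos (θ i)) ^ 2

/-- The cube of eigenangles. -/
def box (N : ℕ) : Set (Fin N → ℝ) := Set.univ.pi fun _ => Set.Icc 0 π

/-- The Haar expectation of a function of the eigenangles. -/
noncomputable def Ex (N : ℕ) (f : (Fin N → ℝ) → ℝ) : ℝ :=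
  (∫ θ in box N, f θ * weyl θ) / ∫ θ in box N, weyl θ

/-- The value `det (1 - U)` of the characteristic polynomial at the central point. -/
noncomputable def Z {N : ℕ} (θ : Fin N → ℝ) : ℝ := ∏ i, (2 - 2 * cos (θ i))

/-- `ρ` is a continuous symmetric probability density with respect to the Haar law, with values
between `1/2` and `3/2`, that gives every polynomial of total degree at most `D` in the numbers
`cos θ_i` the same expectation as the Haar law. -/
structure Alt (N : ℕ) (D : ℝ) (ρ : (Fin N → ℝ) → ℝ) : Prop where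
  cont : Continuous ρ
  symm : ∀ (σ : Equiv.Perm (Fin N)) (θ : Fin N → ℝ), ρ (θ ∘ σ) = ρ θ
  bdd : ∀ θ, 1 / 2 ≤ ρ θ ∧ ρ θ ≤ 3 / 2
  mass : Ex N ρ = 1
  same : ∀ P : MvPolynomial (Fin N) ℝ, (P.totalDegree : ℝ) ≤ D →
    Ex N (fun θ => ρ θ * MvPolynomial.eval (fun i => cos (θ i)) P) =
      Ex N (fun θ => MvPolynomial.eval (fun i => cos (θ i)) P)

end Pool.Agent.KMom
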