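import Pool.Agent.K.MP_ea46f5_nt.C37

open Real Filter Pool.Agent.LRes

/-- Unconditional lower bounds for high moments and for the maximum of `L(1/2, χ_d)`, `d > 0`. -/
theorem Pool.Agent.P.MP_ea46f5_nt.JoinedLargeMoments.result (ε : ℝ) (hε : 0 < ε) :
    (∃ N₀ : ℝ, ∀ X N : ℝ, 1 ≤ X → N₀ ≤ N → N ≤ X ^ (1 / 4 - ε) → ∀ k : ℕ, 1 ≤ k →
      X / (N * log X ^ 3) * exp ((2 - ε) * k * √(log N * log (log (log N)) / log (log N))) ≤
        ∑ d ∈ (SPlus X).filter (fun d : ℕ => X / 16 < d), max (Lhalf d) 0 ^ k ∧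
      (Even k →
        X / (N * log X ^ 3) * exp ((2 - ε) * k * √(log N * log (log (log N)) / log (log N))) ≤
          ∑ d ∈ SPlus X, Lhalf d ^ k)) ∧
    ∀ᶠ X : ℝ in atTop, ∃ d ∈ SPlus X, X / 16 < d ∧
      exp ((1 - ε) * √(log X * log (log (log X)) / log (log X))) ≤ Lhalf d := by
  obtain ⟨N₀, h⟩ := moments hε
  exact ⟨⟨N₀, fun X N h1 h2 h3 k hk =>
    ⟨h X N h1 h2 h3 k hk, fun he => (h X N h1 h2 h3 k hk).trans (even_le X he)⟩⟩, extreme hε⟩
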