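import Mathlib

/-!
Mertens' first theorem on blocks, and primes between Y and 4Y.
-/

namespace Pool.Agent.LRes

open Real Finset Filter
open ArithmeticFunction (vonMangoldt vonMangoldt_nonneg vonMangoldt_apply_prime vonMangoldt_sum)

theorem sum_log_eq (N : ℕ) :
    ∑ n ∈ Ioc 0 N, log n = ∑ d ∈ Ioc 0 N, ((N / d : ℕ) : ℝ) * vonMangoldt d := by
  have : ∀ n ∈ Ioc 0 N, log n = ∑ d ∈ Ioc 0 N, if d ∣ n then vonMangoldt d else 0 := by
    intro n hn
    have hn' := mem_Ioc.1 hn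
    rw [← vonMangoldt_sum, ← sum_filter]
    refine sum_congr ?_ fun _ _ => rfl
    ext d
    simp only [Nat.mem_divisors, mem_filter, mem_Ioc]
    constructor
    · rintro ⟨h1, -⟩
      exact ⟨⟨Nat.pos_of_dvd_of_pos h1 hn'.1, (Nat.le_of_dvd hn'.1 h1).trans hn'.2⟩, h1⟩
    · rintro ⟨-, h2⟩
      exact ⟨h2, hn'.1.ne'⟩
  rw [sum_congr rfl this, sum_comm]
  refine sum_congr rfl fun p _ => ?_
  rw [← sum_filter, sum_const, nsmul_eq_mul, Nat.Ioc_filter_dvd_card_eq_div]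

theorem le_sum_log (N : ℕ) : N * log N - N ≤ ∑ n ∈ Ioc 0 N, log n := by
  induction N with
  | zero => simp
  | succ N ih =>
    rw [sum_Ioc_succ_top (Nat.zero_le _)]
    rcases Nat.eq_zero_or_pos N with rfl | hN
    · simp
    · have h0 : (0 : ℝ) < N := by exact_mod_cast hN
      have h1 := log_le_sub_one_of_pos (x := ((N : ℝ) + 1) / N) (by positivity)
      rw [log_div (by positivity) h0.ne'] at h1
      have h2 : ((N : ℝ) + 1) / N - 1 = 1 / N := by field_simp; ring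
      rw [h2, le_div_iff₀ h0] at h1
      push_cast
      nlinarith

theorem mertens_lower {N : ℕ} (hN : 1 ≤ N) :
    log N - 1 ≤ ∑ d ∈ Ioc 0 N, vonMangoldt d / d := by
  have h0 : (0 : ℝ) < N := by exact_mod_cast hN
  refine le_of_mul_le_mul_left ?_ h0
  have h1 := le_sum_log N
  rw [sum_log_eq] at h1
  rw [mul_sum]
  refine le_trans (by linarith) (h1.trans (sum_le_sum fun d _ => ?_))
  calc ((N / d : ℕ) : ℝ) * vonMangoldt d ≤ (N : ℝ) / d * vonMangoldt d :=
        mul_le_mul_of_nonneg_right Nat.cast_div_le vonMangoldt_nonneg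
    _ = _ := by ring

theorem mertens_upper {N : ℕ} (hN : 1 ≤ N) :
    ∑ d ∈ Ioc 0 N, vonMangoldt d / d ≤ log N + (log 4 + 4) := by
  have h0 : (0 : ℝ) < N := by exact_mod_cast hN
  refine le_of_mul_le_mul_left ?_ h0
  have h1 : ∑ n ∈ Ioc 0 N, log n ≤ N * log N := by
    calc ∑ n ∈ Ioc 0 N, log (n : ℝ) ≤ ∑ n ∈ Ioc 0 N, log N := by
          refine sum_le_sum fun n hn => log_le_log ?_ ?_
          · exact_mod_cast (mem_Ioc.1 hn).1
          · exact_mod_cast (mem_Ioc.1 hn).2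
      _ = N * log N := by simp
  rw [sum_log_eq] at h1
  have h2 := Chebyshev.psi_le_const_mul_self h0.le
  rw [Chebyshev.psi, Nat.floor_natCast] at h2
  have h3 : N * ∑ d ∈ Ioc 0 N, vonMangoldt d / d ≤
      ∑ d ∈ Ioc 0 N, ((N / d : ℕ) : ℝ) * vonMangoldt d + ∑ d ∈ Ioc 0 N, vonMangoldt d := by
    rw [mul_sum, ← sum_add_distrib]
    refine sum_le_sum fun d hd => ?_
    have hd0 : 0 < d := (mem_Ioc.1 hd).1
    have hd0' : (0 : ℝ) < d := by exact_mod_cast hd0
    have : (N : ℝ) / d ≤ ((N / d : ℕ) : ℝ) + 1 := by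
      rw [div_le_iff₀ hd0']
      have : N ≤ (N / d + 1) * d := by
        have := Nat.lt_div_mul_add (a := N) hd0
        nlinarith
      exact_mod_cast this
    calc N * (vonMangoldt d / d) = (N / d) * vonMangoldt d := by ring
      _ ≤ (((N / d : ℕ) : ℝ) + 1) * vonMangoldt d :=
          mul_le_mul_of_nonneg_right this vonMangoldt_nonneg
      _ = _ := by ring
  linarith

theorem mertens_block : ∃ C : ℝ, 0 ≤ C ∧ ∀ u v : ℝ, 0 ≤ u → u ≤ v →
    v - u - C ≤ ∑ p ∈ Ioc ⌊exp u⌋₊ ⌊exp v⌋₊, if p.Prime then log p / p else 0 := by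
  have h := ArithmeticFunction.vonMangoldt.summable_residueClass_non_primes_div (q := 1) 0
  have h1 : ∀ n, ArithmeticFunction.vonMangoldt.residueClass (q := 1) 0 n = vonMangoldt n :=
    fun n => Set.indicator_of_mem (s := {n : ℕ | (n : ZMod 1) = 0})
      (Subsingleton.elim (α := ZMod 1) _ _) _
  simp only [h1] at h
  have hnn : ∀ n : ℕ, 0 ≤ (if n.Prime then 0 else vonMangoldt n) / (n : ℝ) := fun n => by
    have := vonMangoldt_nonneg (n := n)
    split_ifs <;> positivity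
  have hl4 : 0 ≤ log 4 := log_nonneg (by norm_num)
  refine ⟨∑' n : ℕ, (if n.Prime then 0 else vonMangoldt n) / (n : ℝ) + log 4 + 6,
    add_nonneg (add_nonneg (tsum_nonneg hnn) hl4) (by norm_num), fun u v hu huv => ?_⟩
  have hu1 : 1 ≤ ⌊exp u⌋₊ := Nat.le_floor (by simpa using one_le_exp hu)
  have hle : ⌊exp u⌋₊ ≤ ⌊exp v⌋₊ := Nat.floor_le_floor (exp_le_exp.2 huv)
  have h2 := mertens_lower (hu1.trans hle)
  have h3 := mertens_upper hu1
  rw [← sum_Ioc_consecutive _ (Nat.zero_le _) hle] at h2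
  have h4 : log ⌊exp u⌋₊ ≤ u := by
    rw [log_le_iff_le_exp (by exact_mod_cast hu1)]
    exact Nat.floor_le (exp_pos _).le
  have h5 : v - 1 ≤ log ⌊exp v⌋₊ := by
    have h6 : (1 : ℝ) ≤ ⌊exp v⌋₊ := by exact_mod_cast hu1.trans hle
    rw [le_log_iff_exp_le (by linarith), exp_sub, div_le_iff₀ (exp_pos _)]
    have := Nat.lt_floor_add_one (exp v)
    have := add_one_le_exp (1 : ℝ)
    nlinarith
  have h6 := h.sum_le_tsum (Ioc ⌊exp u⌋₊ ⌊exp v⌋₊) fun n _ => hnn n
  have h7 : ∑ d ∈ Ioc ⌊exp u⌋₊ ⌊exp v⌋₊, vonMangoldt d / d =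
      ∑ p ∈ Ioc ⌊exp u⌋₊ ⌊exp v⌋₊, (if p.Prime then log p / p else 0) +
      ∑ n ∈ Ioc ⌊exp u⌋₊ ⌊exp v⌋₊, (if n.Prime then 0 else vonMangoldt n) / (n : ℝ) := by
    rw [← sum_add_distrib]
    refine sum_congr rfl fun n _ => ?_
    split_ifs with hn
    · rw [vonMangoldt_apply_prime hn]; simp
    · simp
  linarith

theorem blocks {C a U δ : ℝ} (hC : ∀ u v : ℝ, 0 ≤ u → u ≤ v →
      v - u - C ≤ ∑ p ∈ Ioc ⌊exp u⌋₊ ⌊exp v⌋₊, if p.Prime then log p / p else 0)
    (ha : 0 < a) (hU : 0 < U) (hδ : 0 < δ) (hCU : C ≤ δ ^ 2 * U) (i : ℕ)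
    (hi : U * (1 + δ) ^ i ≤ δ * a) :
    i * (δ * (1 - δ) / ((1 + δ) ^ 2 * a)) ≤
      ∑ p ∈ Ioc ⌊exp (a + U)⌋₊ ⌊exp (a + U * (1 + δ) ^ i)⌋₊,
        if p.Prime then 1 / (p * (log p - a)) else 0 := by
  induction i with
  | zero => simp
  | succ i ih =>
    set V := U * (1 + δ) ^ i with hV
    have hUV : U ≤ V := le_mul_of_one_le_right hU.le (one_le_pow₀ (by linarith))
    have hV0 : 0 < V := hU.trans_le hUV
    have hV1 : U * (1 + δ) ^ (i + 1) = V * (1 + δ) := by rw [hV]; ring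
    rw [hV1] at hi ⊢
    have hVV : V ≤ V * (1 + δ) := by nlinarith
    rw [← sum_Ioc_consecutive _ (Nat.floor_le_floor (exp_le_exp.2 (by linarith : a + U ≤ a + V)))
      (Nat.floor_le_floor (exp_le_exp.2 (by linarith : a + V ≤ a + V * (1 + δ))))]
    have h1 := ih (hVV.trans hi)
    have h2 := hC (a + V) (a + V * (1 + δ)) (by linarith) (by linarith)
    have h3 : (∑ p ∈ Ioc ⌊exp (a + V)⌋₊ ⌊exp (a + V * (1 + δ))⌋₊,
        if p.Prime then log p / p else 0) / (V * (1 + δ) * ((1 + δ) * a)) ≤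
        ∑ p ∈ Ioc ⌊exp (a + V)⌋₊ ⌊exp (a + V * (1 + δ))⌋₊,
          if p.Prime then 1 / (p * (log p - a)) else 0 := by
      rw [sum_div]
      refine sum_le_sum fun p hp => ?_
      split_ifs with hpp
      · have hp0 : (0 : ℝ) < p := by exact_mod_cast hpp.pos
        have h4 : a + V < log p :=
          (lt_log_iff_exp_lt hp0).2 ((Nat.floor_lt (exp_pos _).le).1 (mem_Ioc.1 hp).1)
        have h5 : log p ≤ a + V * (1 + δ) :=
          (log_le_iff_le_exp hp0).2 ((Nat.le_floor_iff (exp_pos _).le).1 (mem_Ioc.1 hp).2)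
        have h6 : 0 < log p - a := by linarith
        rw [div_div, div_le_div_iff₀ (by positivity) (by positivity)]
        have h7 : (log p - a) * log p ≤ V * (1 + δ) * ((1 + δ) * a) :=
          mul_le_mul (by linarith) (by linarith) (by linarith) (by positivity)
        nlinarith
      · simp
    have h4 : δ * (1 - δ) / ((1 + δ) ^ 2 * a) ≤
        (∑ p ∈ Ioc ⌊exp (a + V)⌋₊ ⌊exp (a + V * (1 + δ))⌋₊,
        if p.Prime then log p / p else 0) / (V * (1 + δ) * ((1 + δ) * a)) := by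
      have : δ * (1 - δ) / ((1 + δ) ^ 2 * a) = δ * (1 - δ) * V / (V * (1 + δ) * ((1 + δ) * a)) := by
        field_simp
      rw [this]
      refine div_le_div_of_nonneg_right ?_ (by positivity)
      nlinarith [mul_le_mul_of_nonneg_left hUV (sq_nonneg δ)]
    push_cast
    linarith

theorem many_primes : ∀ᶠ Y : ℝ in atTop,
    Y / (2 * log Y) ≤ (((Ioc ⌊Y⌋₊ ⌊4 * Y⌋₊).filter Nat.Prime).card : ℝ) := by
  have e1 := (isLittleO_log_rpow_atTop (r := 1 / 2) (by norm_num)).bound (c := 1 / 100)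
    (by norm_num)
  filter_upwards [eventually_ge_atTop 100, e1] with Y hY h1
  have hY0 : 0 < Y := by linarith
  have hlog : 0 < log Y := log_pos (by linarith)
  rw [norm_eq_abs, norm_eq_abs, abs_of_pos hlog, ← sqrt_eq_rpow, abs_of_nonneg (sqrt_nonneg _)]
    at h1
  have hs : √Y * √Y = Y := mul_self_sqrt hY0.le
  have hs0 : 10 ≤ √Y := le_sqrt_of_sq_le (by linarith)
  have h2 := Chebyshev.theta_ge' (x := 4 * Y) (by linarith)
  have h3 := Chebyshev.theta_le_log4_mul_x hY0.le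
  have hl2 := log_two_gt_d9
  have hl2' := log_two_lt_d9
  have hl4 : log 4 = 2 * log 2 := by
    rw [show (4 : ℝ) = 2 ^ 2 by norm_num, log_pow]; norm_num
  have h4 : log (4 * Y) ≤ 2 * log Y := by
    rw [log_mul (by norm_num) hY0.ne']
    have : log 4 ≤ log Y := log_le_log (by norm_num) (by linarith)
    linarith
  have h5 : log (4 * Y + 2) ≤ 2 * log Y := by
    rw [show 2 * log Y = log (Y ^ 2) by rw [log_pow]; norm_num]
    exact log_le_log (by linarith) (by nlinarith)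
  have h6 : √(4 * Y) = 2 * √Y := by
    rw [sqrt_mul (by norm_num), show (4 : ℝ) = 2 ^ 2 by norm_num, sqrt_sq (by norm_num)]
  have h7 : Chebyshev.theta (4 * Y) - Chebyshev.theta Y ≤
      (((Ioc ⌊Y⌋₊ ⌊4 * Y⌋₊).filter Nat.Prime).card : ℝ) * (2 * log Y) := by
    rw [Chebyshev.theta, Chebyshev.theta, sum_filter, sum_filter,
      ← sum_Ioc_consecutive _ (Nat.zero_le _)
        (Nat.floor_le_floor (by linarith : Y ≤ 4 * Y)), add_sub_cancel_left, ← sum_filter,
      ← nsmul_eq_mul]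
    refine sum_le_card_nsmul _ _ _ fun p hp => ?_
    obtain ⟨hp1, hp2⟩ := mem_filter.1 hp
    refine le_trans (log_le_log (by exact_mod_cast hp2.pos) ?_) h4
    exact (Nat.le_floor_iff (by linarith)).1 (mem_Ioc.1 hp1).2
  rw [div_le_iff₀ (by positivity)]
  rw [h6] at h2
  have h8 : 2 * (2 * √Y) * log (4 * Y) ≤ 8 / 100 * Y := by
    calc 2 * (2 * √Y) * log (4 * Y) ≤ 2 * (2 * √Y) * (2 * (1 / 100 * √Y)) := by
          gcongr; linarith
      _ = 8 / 100 * (√Y * √Y) := by ring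
      _ = _ := by rw [hs]
  have h9 : √Y ≤ Y / 10 := by nlinarith
  nlinarith

end Pool.Agent.LRes
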