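import Pool.Agent.P.MP_ea46f5_nt.LRGcd
import Pool.Agent.P.MP_ea46f5_nt.LRMert

/-!
The choice of the resonator.
-/

namespace Pool.Agent.LRes

open Real Finset Filter

theorem gcd_params {δ a S : ℝ} (hδ : 0 < δ) (hδ1 : δ ≤ 1 / 10) (ha : 3 ≤ a) (P : Finset ℕ)
    (hP : ∀ p ∈ P, p.Prime ∧ a + a ^ δ < log p ∧ log p ≤ a + δ * a)
    (hS : S = ∑ p ∈ P, 1 / (p * (log p - a))) (hS1 : (1 - 6 * δ) * log a / a ≤ S)
    (hS2 : S ≤ 3 * a) (e1 : 1 / δ ≤ a ^ δ) (e2 : log a + log (12 / δ) ≤ a ^ δ)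
    (e3 : 3 * log a + 2 ≤ δ * a ^ δ) (e4 : 384 * a ^ 3 / δ ^ 2 ≤ exp a) :
    ∃ (M : Finset (P → Bool)) (ρ : (P → Bool) → ℝ), M.Nonempty ∧ (∀ B, 0 < ρ B) ∧
      (M.card : ℝ) ≤ exp (exp a) ∧
      ∀ C ∈ M, δ / 8 * exp (2 * (1 - 7 * δ) * √(exp a * log a / a)) * ρ C ≤
        ∑ B ∈ M, kap (fun i : P => (i : ℕ)) (exp (exp a)) (xo C B) * ρ B := by
  have ha0 : 0 < a := by linarith
  have hb : 1 ≤ log a := by
    rw [le_log_iff_exp_le ha0]
    linarith [exp_one_lt_d9]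
  set L := exp a with hL
  have hL0 : 0 < L := exp_pos a
  have hU : 1 ≤ a ^ δ := one_le_rpow (by linarith) hδ.le
  have hS3 : 1 / (3 * a) ≤ S := by
    refine le_trans ?_ hS1
    rw [div_le_div_iff₀ (by positivity) ha0]
    have : 1 / 3 ≤ (1 - 6 * δ) * log a := by nlinarith
    nlinarith
  have hS0 : 0 < S := lt_of_lt_of_le (by positivity) hS3
  set c := √(L / ((1 + 5 * δ) * S)) with hc
  have hc0 : 0 < c := sqrt_pos.2 (by positivity)
  have hc2 : c ^ 2 = L / ((1 + 5 * δ) * S) := sq_sqrt (by positivity)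
  have hc3 : c ^ 2 * S = L / (1 + 5 * δ) := by rw [hc2]; field_simp
  have hc4 : c ^ 2 * S ≤ L := by rw [hc3]; exact div_le_self hL0.le (by linarith)
  have hc5 : 8 * a / δ ≤ c := by
    apply le_sqrt_of_sq_le
    rw [le_div_iff₀ (by positivity)]
    refine le_trans ?_ e4
    calc (8 * a / δ) ^ 2 * ((1 + 5 * δ) * S) ≤ (8 * a / δ) ^ 2 * (2 * (3 * a)) := by
          gcongr; linarith
      _ = _ := by field_simp; norm_num
  have hp0 : ∀ i : P, (0 : ℝ) < (i : ℕ) := fun i => by exact_mod_cast (hP i i.2).1.pos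
  have hu : ∀ i : P, a ^ δ ≤ log (i : ℕ) - a := fun i => by linarith [(hP i i.2).2.1]
  have hu0 : ∀ i : P, 0 < log (i : ℕ) - a := fun i => by linarith [hu i]
  have hu1 : ∀ i : P, log (i : ℕ) - a ≤ a := fun i => by nlinarith [(hP i i.2).2.2]
  set t : P → ℝ := fun i => c / (√((i : ℕ) : ℝ) * (log (i : ℕ) - a)) with ht
  set s : P → ℝ := fun i => 1 / (((i : ℕ) : ℝ) * (log (i : ℕ) - a)) with hs
  have hSs : ∑ i, s i = S := by rw [hS, hs, sum_coe_sort P fun p => 1 / (p * (log p - a))]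
  have hs0 : ∀ i, 0 < s i := fun i => by
    have := hp0 i
    have := hu0 i
    simp only [hs]; positivity
  have ht0 : ∀ i, 0 < t i := fun i => by
    have := sqrt_pos.2 (hp0 i)
    have := hu0 i
    simp only [ht]; positivity
  have hy : ∀ i : P, t i / √((i : ℕ) : ℝ) = c * s i := fun i => by
    have h1 := mul_self_sqrt (hp0 i).le
    have := sqrt_pos.2 (hp0 i)
    have := hu0 i
    simp only [ht, hs]
    rw [div_div, mul_one_div]
    congr 1
    linear_combination (log (i : ℕ) - a) * h1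
  have ht2 : ∀ i : P, t i ^ 2 * (log (i : ℕ) - a) = c ^ 2 * s i := fun i => by
    have := hp0 i
    have := hu0 i
    simp only [ht, hs]
    rw [div_pow, mul_pow, sq_sqrt (hp0 i).le]
    field_simp
  have hy2 : ∀ i : P, 2 * (c * s i) ≤ δ * t i ^ 2 := fun i => by
    refine le_of_mul_le_mul_right ?_ (hu0 i)
    rw [mul_assoc δ, ht2]
    have h1 : 2 * (log (i : ℕ) - a) ≤ δ * c := by
      have := (div_le_iff₀ hδ).1 hc5
      nlinarith [hu1 i]
    nlinarith [mul_le_mul_of_nonneg_left h1 (mul_pos hc0 (hs0 i)).le]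
  have ht3 : ∀ i : P, t i ^ 2 ≤ δ / 4 := fun i => by
    have h1 : L * exp (a ^ δ) ≤ (i : ℕ) := by
      rw [hL, ← exp_add, ← le_log_iff_exp_le (hp0 i)]
      exact (hP i i.2).2.1.le
    have h2 : a * (12 / δ) ≤ exp (a ^ δ) := by
      rw [← log_le_iff_le_exp (by positivity), log_mul ha0.ne' (by positivity)]
      exact e2
    have h3 : c ^ 2 ≤ L * (3 * a) := by
      have := mul_le_mul_of_nonneg_left hS3 (sq_nonneg c)
      rw [mul_one_div, div_le_iff₀ (by positivity)] at this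
      nlinarith
    have h4 : t i ^ 2 * (i : ℕ) ≤ c ^ 2 := by
      have h5 := ht2 i
      have h6 : s i * (i : ℕ) ≤ 1 := by
        have := hp0 i
        have := hu0 i
        simp only [hs]
        rw [one_div_mul_eq_div, div_le_one (by positivity)]
        nlinarith [hu i]
      have h7 : t i ^ 2 ≤ c ^ 2 * s i := by
        rw [← h5]
        exact le_mul_of_one_le_right (sq_nonneg _) (hU.trans (hu i))
      calc t i ^ 2 * (i : ℕ) ≤ c ^ 2 * s i * (i : ℕ) := by gcongr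
        _ = c ^ 2 * (s i * (i : ℕ)) := by ring
        _ ≤ _ := mul_le_of_le_one_right (sq_nonneg _) h6
    have h5 : L * (a * (12 / δ)) ≤ (i : ℕ) :=
      le_trans (mul_le_mul_of_nonneg_left h2 hL0.le) h1
    have h6 : t i ^ 2 * (L * (a * (12 / δ))) ≤ L * (3 * a) :=
      le_trans (mul_le_mul_of_nonneg_left h5 (sq_nonneg _)) (h4.trans h3)
    have h7 : δ / 4 * (L * (a * (12 / δ))) = L * (3 * a) := by field_simp; norm_num
    rw [← h7] at h6
    exact le_of_mul_le_mul_right h6 (by positivity)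
  have hcost : ∀ i : P, -log (t i ^ 2) ≤ (1 + δ) * (log (i : ℕ) - a) := fun i => by
    have h0 := hu0 i
    have h1 : t i ^ 2 = L / ((1 + 5 * δ) * S) / (((i : ℕ) : ℝ) * (log (i : ℕ) - a) ^ 2) := by
      simp only [ht]
      rw [div_pow, mul_pow, sq_sqrt (hp0 i).le, hc2]
    have h2 : log ((1 + 5 * δ) * S) ≤ log a + 2 := by
      have h3 : log 6 ≤ 2 := by
        rw [log_le_iff_le_exp (by norm_num), show (2 : ℝ) = 1 + 1 by norm_num, exp_add]
        nlinarith [exp_one_gt_d9]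
      calc log ((1 + 5 * δ) * S) ≤ log (6 * a) := log_le_log (by positivity) (by nlinarith)
        _ = log 6 + log a := log_mul (by norm_num) ha0.ne'
        _ ≤ _ := by linarith
    have h3 : log (log (i : ℕ) - a) ≤ log a := log_le_log h0 (hu1 i)
    have := hp0 i
    rw [h1, log_div (by positivity) (by positivity), log_div hL0.ne' (by positivity),
      log_mul (hp0 i).ne' (by positivity), log_pow, hL, log_exp]
    have h4 := mul_le_mul_of_nonneg_left (hu i) hδ.le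
    push_cast
    linarith
  have hΛ : 0 < (1 - δ) * L := mul_pos (by linarith) hL0
  obtain ⟨M, ρ, h1, h2, h3, h4⟩ := gcd_abstract (l := fun i : P => (i : ℕ))
    (fun i => (hP i i.2).1) t ht0 (Λ := (1 - δ) * L) (Z := exp L) (η := δ) (θ := δ / 2) hΛ
    (one_lt_exp_iff.2 hL0) (by linarith) (by linarith)
    (fun i => by
      rw [hy]
      nlinarith [hy2 i, ht3 i, sq_nonneg (t i)])
    (by
      have h5 : ∀ i : P, -log (t i ^ 2) / ((1 - δ) * L) * (t i ^ 2 + 2 * (t i / √((i : ℕ) : ℝ))) +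
          log (i : ℕ) / log (exp L) * (2 * (t i / √((i : ℕ) : ℝ))) ≤
          ((1 + δ) ^ 2 * c ^ 2 / ((1 - δ) * L) + 4 * a * c / L) * s i := by
        intro i
        rw [hy, log_exp, add_mul]
        have := hs0 i
        have := hu0 i
        refine add_le_add ?_ ?_
        · calc -log (t i ^ 2) / ((1 - δ) * L) * (t i ^ 2 + 2 * (c * s i))
              ≤ (1 + δ) * (log (i : ℕ) - a) / ((1 - δ) * L) * (t i ^ 2 + 2 * (c * s i)) := by
                gcongr; exact hcost i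
            _ ≤ (1 + δ) * (log (i : ℕ) - a) / ((1 - δ) * L) * ((1 + δ) * t i ^ 2) := by
                gcongr; linarith [hy2 i]
            _ = (1 + δ) ^ 2 * (t i ^ 2 * (log (i : ℕ) - a)) / ((1 - δ) * L) := by ring
            _ = _ := by rw [ht2]; ring
        · calc log (i : ℕ) / L * (2 * (c * s i)) ≤ 2 * a / L * (2 * (c * s i)) := by
                gcongr; linarith [hu1 i]
            _ = _ := by ring
      refine le_trans (sum_le_sum fun i _ => h5 i) ?_
      rw [← mul_sum, hSs, add_mul]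
      have h6 : (1 + δ) ^ 2 * c ^ 2 / ((1 - δ) * L) * S ≤ 1 - δ := by
        have : (1 + δ) ^ 2 * c ^ 2 / ((1 - δ) * L) * S =
            (1 + δ) ^ 2 * (c ^ 2 * S) / ((1 - δ) * L) := by ring
        rw [this, hc3, div_le_iff₀ hΛ, ← mul_div_assoc, div_le_iff₀ (by positivity)]
        have h7 : (1 + δ) ^ 2 ≤ (1 - δ) * (1 - δ) * (1 + 5 * δ) := by
          nlinarith [mul_pos hδ hδ, mul_pos (mul_pos hδ hδ) hδ]
        nlinarith [mul_le_mul_of_nonneg_right h7 hL0.le]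
      have h7 : 4 * a * c / L * S ≤ δ / 2 := by
        rw [div_mul_eq_mul_div, div_le_iff₀ hL0]
        have h8 := (div_le_iff₀ hδ).1 hc5
        have h9 : 8 * a * (c * S) ≤ c * δ * (c * S) :=
          mul_le_mul_of_nonneg_right h8 (by positivity)
        nlinarith [mul_le_mul_of_nonneg_left hc4 hδ.le]
      linarith)
  refine ⟨M, ρ, h1, h2, h3.trans (exp_le_exp.2 ?_), fun C hC => le_trans ?_ (h4 C hC)⟩
  · have h5 : ∀ i : P, t i ^ 2 ≤ δ * c ^ 2 * s i := fun i => by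
      rw [mul_assoc, ← ht2]
      have h6 : 1 ≤ δ * (log (i : ℕ) - a) := by
        have := (div_le_iff₀ hδ).1 (e1.trans (hu i))
        linarith
      nlinarith [mul_le_mul_of_nonneg_left h6 (sq_nonneg (t i))]
    have h6 := sum_le_sum fun i (_ : i ∈ univ) => h5 i
    rw [← mul_sum, hSs] at h6
    nlinarith [mul_le_mul_of_nonneg_left hc4 hδ.le]
  · refine mul_le_mul_of_nonneg_right ?_ (h2 C).le
    have h5 : (1 - 6 * δ) * √(L * log a / a) ≤ c * S := by
      have h6 : 0 ≤ 1 - 6 * δ := by linarith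
      refine (pow_le_pow_iff_left₀ (by positivity) (by positivity) two_ne_zero).1 ?_
      rw [mul_pow, mul_pow, sq_sqrt (by positivity), sq S, ← mul_assoc, hc3]
      calc (1 - 6 * δ) ^ 2 * (L * log a / a)
          = (1 - 6 * δ) * L * ((1 - 6 * δ) * log a / a) := by ring
        _ ≤ (1 - 6 * δ) * L * S := by gcongr
        _ ≤ _ := by
          refine mul_le_mul_of_nonneg_right ?_ hS0.le
          rw [le_div_iff₀ (by positivity)]
          have : (1 - 6 * δ) * (1 + 5 * δ) ≤ 1 := by nlinarith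
          nlinarith
    have h6 : 2 * (1 - 7 * δ) * √(L * log a / a) ≤
        (1 - δ) * ∑ i : P, 2 * (t i / √((i : ℕ) : ℝ)) := by
      simp_rw [hy, ← mul_sum, hSs]
      have h7 : 0 ≤ √(L * log a / a) := sqrt_nonneg _
      nlinarith [mul_le_mul_of_nonneg_left h5 (by linarith : 0 ≤ 1 - δ), mul_nonneg h7 (sq_nonneg δ)]
    have := exp_le_exp.2 h6
    nlinarith

theorem gcd_final {δ : ℝ} (hδ : 0 < δ) (hδ1 : δ ≤ 1 / 10) : ∀ᶠ a : ℝ in atTop,
    ∃ P : Finset ℕ, (∀ p ∈ P, p.Prime ∧ (p : ℝ) ≤ exp (exp a)) ∧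
    ∃ (M : Finset (P → Bool)) (ρ : (P → Bool) → ℝ), M.Nonempty ∧ (∀ B, 0 < ρ B) ∧
      (M.card : ℝ) ≤ exp (exp a) ∧
      ∀ C ∈ M, δ / 8 * exp (2 * (1 - 7 * δ) * √(exp a * log a / a)) * ρ C ≤
        ∑ B ∈ M, kap (fun i : P => (i : ℕ)) (exp (exp a)) (xo C B) * ρ B := by
  obtain ⟨C, hC0, hC⟩ := mertens_block
  have t1 := tendsto_rpow_atTop hδ
  have t2 := (isLittleO_log_rpow_atTop hδ).bound (c := δ / 6) (by positivity)
  have t3 := tendsto_exp_div_pow_atTop 3
  filter_upwards [eventually_ge_atTop 3, t1.eventually_ge_atTop (C / δ ^ 2),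
    t1.eventually_ge_atTop (4 / δ), t1.eventually_ge_atTop (2 * log (12 / δ)), t2,
    t3.eventually_ge_atTop (384 / δ ^ 2)] with a ha e0 e1 e2 e3 e4
  have ha0 : 0 < a := by linarith
  have hb : 1 ≤ log a := by
    rw [le_log_iff_exp_le ha0]
    linarith [exp_one_lt_d9]
  have hU : 1 ≤ a ^ δ := one_le_rpow (by linarith) hδ.le
  rw [norm_eq_abs, norm_eq_abs, abs_of_nonneg (by linarith), abs_of_nonneg (by linarith)] at e3
  have e1' := (div_le_iff₀ hδ).1 e1
  set I := ⌊(1 - 2 * δ) * log a / δ⌋₊ with hI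
  have hI1 : (I : ℝ) ≤ (1 - 2 * δ) * log a / δ :=
    Nat.floor_le (div_nonneg (mul_nonneg (by linarith) (by linarith)) hδ.le)
  have hI2 : (1 - 2 * δ) * log a / δ < I + 1 := Nat.lt_floor_add_one _
  have hI3 : a ^ δ * (1 + δ) ^ I ≤ δ * a := by
    have h1 : (1 + δ) ^ I ≤ a ^ (1 - 2 * δ) := by
      calc (1 + δ) ^ I ≤ exp δ ^ I :=
            pow_le_pow_left₀ (by linarith) (by linarith [add_one_le_exp δ]) _
        _ = exp (I * δ) := (exp_nat_mul _ _).symm
        _ ≤ _ := by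
          rw [rpow_def_of_pos ha0]
          exact exp_le_exp.2 (by linarith [(le_div_iff₀ hδ).1 hI1])
    have h2 : a ^ δ * a ^ (1 - 2 * δ) * a ^ δ = a := by
      rw [← rpow_add ha0, ← rpow_add ha0]
      rw [show δ + (1 - 2 * δ) + δ = 1 by ring, rpow_one]
    have h3 : 0 < a ^ δ * a ^ (1 - 2 * δ) := by positivity
    calc a ^ δ * (1 + δ) ^ I ≤ a ^ δ * a ^ (1 - 2 * δ) := by gcongr
      _ ≤ a ^ δ * a ^ (1 - 2 * δ) * (a ^ δ * δ) := le_mul_of_one_le_right h3.le (by linarith)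
      _ = _ := by rw [← mul_assoc, h2, mul_comm]
  set P := (Ioc ⌊exp (a + a ^ δ)⌋₊ ⌊exp (a + a ^ δ * (1 + δ) ^ I)⌋₊).filter Nat.Prime with hPd
  have hP : ∀ p ∈ P, p.Prime ∧ a + a ^ δ < log p ∧ log p ≤ a + δ * a := by
    intro p hp
    obtain ⟨hp1, hp2⟩ := mem_filter.1 hp
    have hp0 : (0 : ℝ) < p := by exact_mod_cast hp2.pos
    refine ⟨hp2, (lt_log_iff_exp_lt hp0).2 ((Nat.floor_lt (exp_pos _).le).1 (mem_Ioc.1 hp1).1), ?_⟩
    have := (log_le_iff_le_exp hp0).2 ((Nat.le_floor_iff (exp_pos _).le).1 (mem_Ioc.1 hp1).2)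
    linarith
  have hP2 : ∀ p ∈ P, (p : ℝ) ≤ exp (2 * a) := fun p hp => by
    have hp0 : (0 : ℝ) < p := by exact_mod_cast (hP p hp).1.pos
    rw [← log_le_iff_le_exp hp0]
    nlinarith [(hP p hp).2.2]
  refine ⟨P, fun p hp => ⟨(hP p hp).1, (hP2 p hp).trans (exp_le_exp.2 ?_)⟩,
    gcd_params hδ hδ1 ha P hP rfl ?_ ?_ ?_ ?_ ?_ ?_⟩
  · have := add_one_le_exp (a / 2)
    have h : exp a = exp (a / 2) * exp (a / 2) := by rw [← exp_add]; ring_nf
    nlinarith [sq_nonneg (a / 2 - 1)]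
  · have h1 := blocks hC ha0 (by linarith : 0 < a ^ δ) hδ
      (by rw [mul_comm]; exact (div_le_iff₀ (by positivity)).1 e0) I hI3
    rw [hPd, sum_filter]
    refine le_trans ?_ h1
    have h2 : (1 - 3 * δ) * log a ≤ I * δ := by
      have := (div_lt_iff₀ hδ).1 hI2
      nlinarith
    rw [← mul_div_assoc, div_le_div_iff₀ ha0 (by positivity)]
    have h3 : (1 - 6 * δ) * (1 + δ) ^ 2 ≤ (1 - 3 * δ) * (1 - δ) := by
      nlinarith [mul_pos hδ hδ, mul_pos (mul_pos hδ hδ) hδ]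
    calc (1 - 6 * δ) * log a * ((1 + δ) ^ 2 * a) = (1 - 6 * δ) * (1 + δ) ^ 2 * (log a * a) := by
          ring
      _ ≤ (1 - 3 * δ) * (1 - δ) * (log a * a) := by gcongr
      _ = (1 - 3 * δ) * log a * ((1 - δ) * a) := by ring
      _ ≤ I * δ * ((1 - δ) * a) :=
          mul_le_mul_of_nonneg_right h2 (mul_nonneg (by linarith) ha0.le)
      _ = _ := by ring
  · have h1 : (1 : ℝ) ≤ exp (2 * a) := one_le_exp (by linarith)
    have h2 : 1 ≤ ⌊exp (2 * a)⌋₊ := Nat.le_floor (by simpa using h1)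
    have h3 := harmonic_le_one_add_log ⌊exp (2 * a)⌋₊
    rw [harmonic_eq_sum_Icc] at h3
    push_cast at h3
    have h4 : log ⌊exp (2 * a)⌋₊ ≤ 2 * a := by
      rw [log_le_iff_le_exp (by exact_mod_cast h2)]
      exact Nat.floor_le (exp_pos _).le
    calc ∑ p ∈ P, 1 / (p * (log p - a)) ≤ ∑ p ∈ P, (p : ℝ)⁻¹ := by
          refine sum_le_sum fun p hp => ?_
          have hp0 : (0 : ℝ) < p := by exact_mod_cast (hP p hp).1.pos
          rw [one_div]
          exact inv_anti₀ hp0 (le_mul_of_one_le_right hp0.le (by linarith [(hP p hp).2.1]))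
      _ ≤ ∑ p ∈ Icc 1 ⌊exp (2 * a)⌋₊, (p : ℝ)⁻¹ := by
          refine sum_le_sum_of_subset_of_nonneg (fun p hp => mem_Icc.2 ⟨(hP p hp).1.one_le,
            Nat.le_floor (hP2 p hp)⟩) fun p _ _ => by positivity
      _ ≤ _ := by linarith
  · rw [div_le_iff₀ hδ]; linarith
  · nlinarith
  · nlinarith
  · rw [le_div_iff₀ (by positivity)] at e4
    calc 384 * a ^ 3 / δ ^ 2 = 384 / δ ^ 2 * a ^ 3 := by ring
      _ ≤ _ := e4

end Pool.Agent.LRes
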