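import Mathlib

/-!
Positive definite kernels on a finite set of positive integers, and the Perron inequality.
-/

namespace Pool.Agent.LRes

open Real Finset

/-- Positive definite kernels. -/
def PD (D : Finset ℕ) (K : ℕ → ℕ → ℝ) : Prop :=
  ∀ ξ : ℕ → ℝ, 0 ≤ ∑ x ∈ D, ∑ y ∈ D, K x y * (ξ x * ξ y)

variable {D : Finset ℕ} {K K' : ℕ → ℕ → ℝ}

theorem PD.congr (h : PD D K) (he : ∀ x ∈ D, ∀ y ∈ D, K x y = K' x y) : PD D K' := fun ξ => by
  refine (h ξ).trans_eq (sum_congr rfl fun x hx => sum_congr rfl fun y hy => ?_)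
  rw [he x hx y hy]

theorem PD_one : PD D fun _ _ => 1 := fun ξ => by
  simp_rw [one_mul, ← mul_sum, ← sum_mul]
  exact mul_self_nonneg _

theorem PD.rank (h : PD D K) (g : ℕ → ℝ) : PD D fun x y => K x y * (g x * g y) := fun ξ => by
  refine (h fun x => g x * ξ x).trans_eq (sum_congr rfl fun x _ => sum_congr rfl fun y _ => ?_)
  ring

theorem PD.add (h : PD D K) (h' : PD D K') : PD D fun x y => K x y + K' x y := fun ξ => by
  simp_rw [add_mul, sum_add_distrib]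
  exact add_nonneg (h ξ) (h' ξ)

theorem PD.smul (h : PD D K) {c : ℝ} (hc : 0 ≤ c) : PD D fun x y => c * K x y := fun ξ => by
  simp_rw [mul_assoc, ← mul_sum]
  exact mul_nonneg hc (h ξ)

theorem PD.series (h : PD D K) (g : ℕ → ℕ → ℝ)
    (hg : ∀ x ∈ D, ∀ y ∈ D, HasSum (fun j => g j x * g j y) (K' x y)) :
    PD D fun x y => K x y * K' x y := fun ξ => by
  have h1 : HasSum (fun j => ∑ x ∈ D, ∑ y ∈ D, K x y * (g j x * g j y) * (ξ x * ξ y))
      (∑ x ∈ D, ∑ y ∈ D, K x y * K' x y * (ξ x * ξ y)) :=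
    hasSum_sum fun x hx => hasSum_sum fun y hy => ((hg x hx y hy).mul_left _).mul_right _
  exact h1.nonneg fun j => h.rank (g j) ξ

/-- The basic kernel. -/
noncomputable def kc (c : ℝ) (x y : ℕ) : ℝ := 1 / (((x : ℝ) + y) * (x * y + c))

theorem PD.mul_kc (h : PD D K) (hD : ∀ x ∈ D, 0 < x) {c : ℝ} (hc : 0 < c) :
    PD D fun x y => K x y * kc c x y := by
  set s := √c with hs
  have hs0 : 0 < s := sqrt_pos.2 hc
  have hsc : c = s ^ 2 := (sq_sqrt hc.le).symm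
  refine h.series (fun j x => 2 * √s / ((x : ℝ) + s) ^ 2 * ((((x : ℝ) - s) / (x + s)) ^ 2) ^ j)
    fun x hx y hy => ?_
  have hx0 : (0 : ℝ) < x := by exact_mod_cast hD x hx
  have hy0 : (0 : ℝ) < y := by exact_mod_cast hD y hy
  have hlt : ∀ u : ℝ, 0 < u → ((u - s) / (u + s)) ^ 2 < 1 := fun u hu => by
    rw [div_pow, div_lt_one (by positivity)]
    nlinarith
  have h1 : (((x : ℝ) - s) / (x + s)) ^ 2 * (((y : ℝ) - s) / (y + s)) ^ 2 < 1 :=
    mul_lt_one_of_nonneg_of_lt_one_left (by positivity) (hlt x hx0) (hlt y hy0).le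
  have h2 := (hasSum_geometric_of_lt_one (by positivity) h1).mul_left
    (4 * s / (((x : ℝ) + s) ^ 2 * ((y : ℝ) + s) ^ 2))
  have h3 : √s * √s = s := mul_self_sqrt hs0.le
  have h4 : 1 - (((x : ℝ) - s) / (x + s)) ^ 2 * (((y : ℝ) - s) / (y + s)) ^ 2 =
      4 * s * ((x + y) * (x * y + s ^ 2)) / (((x : ℝ) + s) ^ 2 * ((y : ℝ) + s) ^ 2) := by
    field_simp
    ring
  have h5 : 4 * s / (((x : ℝ) + s) ^ 2 * ((y : ℝ) + s) ^ 2) *
      (1 - (((x : ℝ) - s) / (x + s)) ^ 2 * (((y : ℝ) - s) / (y + s)) ^ 2)⁻¹ = kc c x y := by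
    rw [h4, kc, hsc]
    field_simp
  rw [h5] at h2
  refine h2.congr_fun fun j => ?_
  rw [mul_pow]
  have : 4 * s / (((x : ℝ) + s) ^ 2 * ((y : ℝ) + s) ^ 2) =
      2 * √s / ((x : ℝ) + s) ^ 2 * (2 * √s / ((y : ℝ) + s) ^ 2) := by
    field_simp
    nlinarith
  rw [this]
  ring

/-- The kernel attached to the theta variable. -/
noncomputable def KK (τ : ℝ) (x y : ℕ) : ℝ :=
  1 / ((x : ℝ) + y) ^ 2 * (x * y * τ / (1 + x * y * τ))

theorem PD_KK (hD : ∀ x ∈ D, 0 < x) {τ : ℝ} (hτ : 0 < τ) : PD D (KK τ) := by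
  have h1 := PD_one.mul_kc hD one_pos
  have h2 := (((h1.rank fun x => x).add h1).mul_kc hD (c := 1 / τ) (by positivity)).rank fun x => x
  refine h2.congr fun x hx y hy => ?_
  have hx0 : (0 : ℝ) < x := by exact_mod_cast hD x hx
  have hy0 : (0 : ℝ) < y := by exact_mod_cast hD y hy
  unfold kc KK
  field_simp
  ring

theorem PD_KK_sub (hD : ∀ x ∈ D, 0 < x) {σ τ : ℝ} (hσ : 0 < σ) (hτ : σ ≤ τ) :
    PD D fun x y => KK τ x y - KK σ x y := by
  have hτ0 : 0 < τ := hσ.trans_le hτ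
  have h1 := (((PD_one.mul_kc hD (c := 1 / τ) (by positivity)).mul_kc hD (c := 1 / σ)
    (by positivity)).rank fun x => x).smul (c := 1 / σ - 1 / τ)
    (sub_nonneg.2 (one_div_le_one_div_of_le hσ hτ))
  refine h1.congr fun x hx y hy => ?_
  have hx0 : (0 : ℝ) < x := by exact_mod_cast hD x hx
  have hy0 : (0 : ℝ) < y := by exact_mod_cast hD y hy
  unfold kc KK
  field_simp
  ring

section resonator

variable {ι : Type} [Fintype ι] [DecidableEq ι]

/-- Symmetric difference. -/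
def xo (A B : ι → Bool) : ι → Bool := fun i => xor (A i) (B i)

omit [Fintype ι] [DecidableEq ι] in
theorem xo_xo (A B : ι → Bool) : xo (xo A B) B = A := by
  funext i; simp [xo]

/-- The resonator. -/
def RR (e : ℕ → (ι → Bool) → ℝ) (M : Finset (ι → Bool)) (ρ : (ι → Bool) → ℝ) (x y : ℕ) : ℝ :=
  ∑ B ∈ M, ρ B * (e x B * e y B)

variable {e : ℕ → (ι → Bool) → ℝ} {M : Finset (ι → Bool)} {ρ : (ι → Bool) → ℝ}

omit [Fintype ι] [DecidableEq ι] in
theorem sum_RR (K : ℕ → ℕ → ℝ) (ξ : ℕ → ℝ) :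
    ∑ x ∈ D, ∑ y ∈ D, K x y * RR e M ρ x y * (ξ x * ξ y) =
      ∑ B ∈ M, ρ B * ∑ x ∈ D, ∑ y ∈ D, K x y * ((ξ x * e x B) * (ξ y * e y B)) := by
  simp_rw [RR, mul_sum, sum_mul]
  simp_rw [sum_comm (s := D) (t := M)]
  refine sum_congr rfl fun B _ => sum_congr rfl fun x _ => sum_congr rfl fun y _ => ?_
  ring

omit [Fintype ι] [DecidableEq ι] in
theorem PD.mul_RR (h : PD D K) (hρ : ∀ B ∈ M, 0 ≤ ρ B) :
    PD D fun x y => K x y * RR e M ρ x y := fun ξ => by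
  rw [sum_RR]
  exact sum_nonneg fun B hB => mul_nonneg (hρ B hB) (h _)

theorem perron (h : PD D K) (hρ : ∀ B ∈ M, 0 ≤ ρ B)
    (he : ∀ x ∈ D, ∀ A B, e x A * e x B = e x (xo A B)) (κ : (ι → Bool) → ℝ) (hκ : ∀ A, 0 ≤ κ A)
    {b : ℝ} (hb : ∀ C ∈ M, b * ρ C ≤ ∑ B ∈ M, κ (xo C B) * ρ B) :
    b * ∑ x ∈ D, ∑ y ∈ D, K x y * RR e M ρ x y * RR e M ρ x y ≤
      ∑ A, κ A * ∑ x ∈ D, ∑ y ∈ D, K x y * RR e M ρ x y * RR e M ρ x y * (e x A * e y A) := by
  set q : (ι → Bool) → ℝ := fun C => ∑ x ∈ D, ∑ y ∈ D, K x y * RR e M ρ x y * (e x C * e y C)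
    with hq
  have hq0 : ∀ C, 0 ≤ q C := fun C => h.mul_RR hρ _
  have h1 : ∑ x ∈ D, ∑ y ∈ D, K x y * RR e M ρ x y * RR e M ρ x y = ∑ C ∈ M, ρ C * q C := by
    have := sum_RR (D := D) (e := e) (M := M) (ρ := ρ) (fun x y => K x y * RR e M ρ x y) fun _ => 1
    simpa using this
  have h2 : ∀ A, ∑ x ∈ D, ∑ y ∈ D, K x y * RR e M ρ x y * RR e M ρ x y * (e x A * e y A) =
      ∑ B ∈ M, ρ B * q (xo A B) := by
    intro A
    rw [sum_RR (fun x y => K x y * RR e M ρ x y) fun x => e x A]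
    refine sum_congr rfl fun B _ => ?_
    congr 1
    refine sum_congr rfl fun x hx => sum_congr rfl fun y hy => ?_
    rw [he x hx, he y hy]
  have h3 : ∀ B, ∑ A, κ A * (ρ B * q (xo A B)) = ∑ C, q C * (κ (xo C B) * ρ B) := by
    intro B
    have hinv : Function.Involutive fun A : ι → Bool => xo A B := fun A => xo_xo A B
    rw [← hinv.bijective.sum_comp]
    refine sum_congr rfl fun C _ => ?_
    simp only [xo_xo]
    ring
  simp_rw [h1, h2, mul_sum]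
  rw [sum_comm]
  simp_rw [h3]
  rw [sum_comm]
  simp_rw [← mul_sum]
  calc b * ∑ C ∈ M, ρ C * q C = ∑ C ∈ M, q C * (b * ρ C) := by
        rw [mul_sum]; exact sum_congr rfl fun C _ => by ring
    _ ≤ ∑ C ∈ M, q C * ∑ B ∈ M, κ (xo C B) * ρ B :=
        sum_le_sum fun C hC => mul_le_mul_of_nonneg_left (hb C hC) (hq0 C)
    _ ≤ _ := sum_le_sum_of_subset_of_nonneg (subset_univ _) fun C _ _ =>
        mul_nonneg (hq0 C) (sum_nonneg fun B hB => mul_nonneg (hκ _) (hρ B hB))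

omit [Fintype ι] [DecidableEq ι] in
theorem S_lower (h : PD D K) (hρ : ∀ B ∈ M, 0 ≤ ρ B) (he : ∀ x ∈ D, ∀ A, e x A * e x A = 1) :
    (∑ B ∈ M, ρ B ^ 2) * ∑ x ∈ D, ∑ y ∈ D, K x y ≤
      ∑ x ∈ D, ∑ y ∈ D, K x y * RR e M ρ x y * RR e M ρ x y := by
  have h1 := sum_RR (D := D) (e := e) (M := M) (ρ := ρ) (fun x y => K x y * RR e M ρ x y) fun _ => 1
  simp only [mul_one, one_mul] at h1
  rw [h1, sum_mul]
  refine sum_le_sum fun C hC => ?_
  rw [sq, mul_assoc, sum_RR K fun x => e x C]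
  refine mul_le_mul_of_nonneg_left ?_ (hρ C hC)
  refine le_trans (le_of_eq ?_) (single_le_sum (f := fun B => ρ B * ∑ x ∈ D, ∑ y ∈ D,
    K x y * ((e x C * e x B) * (e y C * e y B))) (fun B hB => mul_nonneg (hρ B hB) (h _)) hC)
  congr 1
  refine sum_congr rfl fun x hx => sum_congr rfl fun y hy => ?_
  rw [he x hx, he y hy]; ring

omit [Fintype ι] [DecidableEq ι] in
theorem RR_sq_le {x y : ℕ} (hx : ∀ A, e x A * e x A = 1) (hy : ∀ A, e y A * e y A = 1) :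
    RR e M ρ x y * RR e M ρ x y ≤ M.card * ∑ B ∈ M, ρ B ^ 2 := by
  rw [← sq, RR]
  refine (sq_sum_le_card_mul_sum_sq).trans_eq ?_
  congr 1
  refine sum_congr rfl fun B _ => ?_
  calc (ρ B * (e x B * e y B)) ^ 2 = ρ B ^ 2 * ((e x B * e x B) * (e y B * e y B)) := by ring
    _ = _ := by rw [hx, hy]; ring

omit [DecidableEq ι] in
/-- Pruning: a large Rayleigh quotient gives a subeigenvector. -/
theorem prune (κ : (ι → Bool) → ℝ) (hκ : ∀ A, 0 ≤ κ A) (M : Finset (ι → Bool))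
    (f : (ι → Bool) → ℝ) (hf : ∀ A, 0 < f A) {lam : ℝ} (hl : 0 < lam) (hM : M.Nonempty)
    (h : lam * ∑ B ∈ M, f B ^ 2 ≤ ∑ C ∈ M, ∑ B ∈ M, κ (xo C B) * (f C * f B)) :
    ∃ S ⊆ M, S.Nonempty ∧ ∀ C ∈ S, lam / 4 * f C ≤ ∑ B ∈ S, κ (xo C B) * f B := by
  set G : Finset (ι → Bool) → ℝ := fun S =>
    ∑ C ∈ S, ∑ B ∈ S, κ (xo C B) * (f C * f B) - lam / 2 * ∑ B ∈ S, f B ^ 2 with hG
  obtain ⟨S, hS, hmax⟩ := exists_max_image M.powerset G ⟨M, mem_powerset_self M⟩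
  have hSM := mem_powerset.1 hS
  have hpos : 0 < ∑ B ∈ M, f B ^ 2 := sum_pos (fun B _ => pow_pos (hf B) 2) hM
  have hGM : 0 < G M := by simp only [hG]; nlinarith
  refine ⟨S, hSM, ?_, fun C hC => ?_⟩
  · rw [nonempty_iff_ne_empty]
    rintro rfl
    have := hmax M (mem_powerset_self M)
    simp only [hG, sum_empty] at this hGM
    linarith
  · have h1 := hmax (S.erase C) (mem_powerset.2 ((erase_subset _ _).trans hSM))
    have hsym : ∀ A B : ι → Bool, xo A B = xo B A := fun A B => by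
      funext i; simp [xo, Bool.xor_comm]
    have e1 : ∑ B ∈ S, f B ^ 2 = f C ^ 2 + ∑ B ∈ S.erase C, f B ^ 2 :=
      (add_sum_erase _ _ hC).symm
    have e2 : ∑ B ∈ S, κ (xo C B) * f B =
        κ (xo C C) * f C + ∑ B ∈ S.erase C, κ (xo C B) * f B := (add_sum_erase _ _ hC).symm
    have e3 : ∑ A ∈ S, ∑ B ∈ S, κ (xo A B) * (f A * f B) =
        κ (xo C C) * (f C * f C) + 2 * f C * ∑ B ∈ S.erase C, κ (xo C B) * f B +
          ∑ A ∈ S.erase C, ∑ B ∈ S.erase C, κ (xo A B) * (f A * f B) := by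
      rw [← add_sum_erase _ _ hC, ← add_sum_erase _ _ hC]
      have : ∑ A ∈ S.erase C, ∑ B ∈ S, κ (xo A B) * (f A * f B) =
          ∑ A ∈ S.erase C, κ (xo C A) * (f A * f C) +
            ∑ A ∈ S.erase C, ∑ B ∈ S.erase C, κ (xo A B) * (f A * f B) := by
        rw [← sum_add_distrib]
        refine sum_congr rfl fun A _ => ?_
        rw [← add_sum_erase _ _ hC, hsym A C]
      rw [this, mul_sum]
      have e4 : ∑ B ∈ S.erase C, 2 * f C * (κ (xo C B) * f B) =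
          ∑ B ∈ S.erase C, κ (xo C B) * (f C * f B) +
            ∑ A ∈ S.erase C, κ (xo C A) * (f A * f C) := by
        rw [← sum_add_distrib]; exact sum_congr rfl fun A _ => by ring
      rw [e4]; ring
    simp only [hG] at h1
    rw [e1, e3] at h1
    rw [e2]
    have hc := hf C
    have hk := hκ (xo C C)
    have : lam / 4 * f C * f C ≤
        (κ (xo C C) * f C + ∑ B ∈ S.erase C, κ (xo C B) * f B) * f C := by
      nlinarith [mul_nonneg hk (mul_self_nonneg (f C))]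
    exact le_of_mul_le_mul_right this hc

end resonator

end Pool.Agent.LRes
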