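import Pool.Agent.P.MP_ea46f5_nt.LRGauss
import Pool.Agent.P.MP_ea46f5_nt.LRPsd

/-!
The resonance inequality over pairs of primes.
-/

namespace Pool.Agent.LRes

open Real Finset NumberTheorySymbols MeasureTheory

theorem abs_J_le (m : ℤ) (x : ℕ) : |(J(m | x) : ℝ)| ≤ 1 := by
  rcases jacobiSym.trichotomy m x with h | h | h <;> simp [h]

theorem summable_gauss {τ : ℝ} (hτ : 0 < τ) :
    Summable fun m : ℤ => exp (-π * (m : ℝ) ^ 2 * τ) := by
  simpa using (HurwitzZeta.hasSum_int_evenKernel 0 hτ).summable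

/-- The theta series of a pair. -/
noncomputable def TT (x y : ℕ) (τ : ℝ) : ℝ :=
  ∑' m : ℤ, (J(m | x) : ℝ) * J(m | y) * exp (-π * (m : ℝ) ^ 2 * τ)

theorem hasSum_TT (x y : ℕ) {τ : ℝ} (hτ : 0 < τ) :
    HasSum (fun m : ℤ => (J(m | x) : ℝ) * J(m | y) * exp (-π * (m : ℝ) ^ 2 * τ)) (TT x y τ) := by
  refine Summable.hasSum (Summable.of_norm_bounded (summable_gauss hτ) fun m => ?_)
  rw [norm_eq_abs, abs_mul, abs_mul, abs_of_pos (exp_pos _)]
  have h1 := abs_J_le m x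
  have h2 := abs_J_le m y
  have h3 : |(J(m | x) : ℝ)| * |(J(m | y) : ℝ)| ≤ 1 := mul_le_one₀ h1 (abs_nonneg _) h2
  exact mul_le_of_le_one_left (exp_pos _).le h3

theorem sum_gauss_le {τ : ℝ} (hτ : 0 < τ) (n : ℕ) :
    ∑ i ∈ range n, exp (-π * ((i : ℝ) + 1) ^ 2 * τ) ≤ 2 / √τ := by
  set a := 1 / √τ with ha
  have hs : 0 < √τ := sqrt_pos.2 hτ
  have ha0 : 0 < a := by positivity
  have haτ : a ^ 2 * τ = 1 := by rw [ha, div_pow, sq_sqrt hτ.le]; field_simp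
  have key : ∀ n : ℕ, ∑ i ∈ range n, exp (-π * ((i : ℝ) + 1) ^ 2 * τ) ≤
      2 * a - 2 * a ^ 2 / (a + n) := by
    intro n
    induction n with
    | zero => simp; field_simp; rfl
    | succ n ih =>
      rw [sum_range_succ]
      have h1 : exp (-π * ((n : ℝ) + 1) ^ 2 * τ) ≤ 1 / (1 + ((n : ℝ) + 1) ^ 2 * τ) := by
        rw [le_div_iff₀ (by positivity)]
        have h2 := add_one_le_exp (π * ((n : ℝ) + 1) ^ 2 * τ)
        have h3 : ((n : ℝ) + 1) ^ 2 * τ ≤ π * ((n : ℝ) + 1) ^ 2 * τ := by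
          have := pi_gt_three
          have : 0 < ((n : ℝ) + 1) ^ 2 * τ := by positivity
          nlinarith
        have h4 : exp (-π * ((n : ℝ) + 1) ^ 2 * τ) * exp (π * ((n : ℝ) + 1) ^ 2 * τ) = 1 := by
          rw [← exp_add]; simp
        have h5 := exp_pos (-π * ((n : ℝ) + 1) ^ 2 * τ)
        nlinarith
      have h2 : 1 / (1 + ((n : ℝ) + 1) ^ 2 * τ) = a ^ 2 / (a ^ 2 + ((n : ℝ) + 1) ^ 2) := by
        rw [div_eq_div_iff (by positivity) (by positivity)]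
        linear_combination (-((n : ℝ) + 1) ^ 2) * haτ
      have h3 : a ^ 2 / (a ^ 2 + ((n : ℝ) + 1) ^ 2) ≤
          2 * a ^ 2 / (a + n) - 2 * a ^ 2 / (a + (n + 1 : ℕ)) := by
        push_cast
        rw [div_sub_div _ _ (by positivity) (by positivity), div_le_div_iff₀ (by positivity)
          (by positivity)]
        have : (0 : ℝ) ≤ n := n.cast_nonneg
        have h6 : (a + n) * (a + (n + 1)) ≤ 2 * (a ^ 2 + ((n : ℝ) + 1) ^ 2) := by
          nlinarith [sq_nonneg (a - (n + 1))]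
        nlinarith [mul_le_mul_of_nonneg_left h6 (sq_nonneg a)]
      linarith
  have : 0 ≤ 2 * a ^ 2 / (a + n) := by positivity
  have h7 : 2 / √τ = 2 * a := by rw [ha]; ring
  linarith [key n]

theorem TT_diag_le {x : ℕ} (hx : 1 < x) {τ : ℝ} (hτ : 0 < τ) : TT x x τ ≤ 4 / √τ := by
  have h := (hasSum_TT x x hτ).nat_add_neg_add_one
  have hb : ∀ m : ℤ, (J(m | x) : ℝ) * J(m | x) ≤ 1 := fun m => by
    rcases jacobiSym.trichotomy m x with h | h | h <;> simp [h]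
  refine le_of_tendsto' h.tendsto_sum_nat fun n => ?_
  rw [sum_add_distrib]
  have h1 : ∑ i ∈ range n, (J((i : ℤ) | x) : ℝ) * J((i : ℤ) | x) *
      exp (-π * (((i : ℤ) : ℝ)) ^ 2 * τ) ≤ 2 / √τ := by
    rcases n with _ | n
    · simp; positivity
    · rw [sum_range_succ']
      simp only [Nat.cast_zero, jacobiSym.zero_left hx, Int.cast_zero, zero_mul, add_zero]
      refine le_trans (sum_le_sum fun i _ => ?_) (sum_gauss_le hτ n)
      refine (mul_le_of_le_one_left (exp_pos _).le (hb _)).trans_eq ?_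
      push_cast; rfl
  have h2 : ∑ i ∈ range n, (J(-((i : ℤ) + 1) | x) : ℝ) * J(-((i : ℤ) + 1) | x) *
      exp (-π * (((-((i : ℤ) + 1) : ℤ) : ℝ)) ^ 2 * τ) ≤ 2 / √τ := by
    refine le_trans (sum_le_sum fun i _ => ?_) (sum_gauss_le hτ n)
    refine (mul_le_of_le_one_left (exp_pos _).le (hb _)).trans_eq ?_
    push_cast; congr 1; ring
  have : 4 / √τ = 2 / √τ + 2 / √τ := by ring
  linarith

theorem diag_int {Y : ℝ} (hY : 0 < Y) : ∃ H : ℝ → ℝ, IntegrableOn H (Set.Ioi 0) ∧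
    ∫ τ in Set.Ioi 0, H τ ≤ 12 * √Y ∧ ∀ τ, 0 < τ → ∀ u, 0 ≤ u → u ≤ 16 * Y ^ 2 →
      τ ^ (-(3 / 4 : ℝ)) * (u * τ / (1 + u * τ) * (1 / √τ)) ≤ H τ := by
  set Q := 16 * Y ^ 2 with hQ
  have hQ0 : 0 < Q := by positivity
  have hQi : 0 < 1 / Q := by positivity
  set s := 2 * √Y with hs
  have hs0 : 0 < s := by have := sqrt_pos.2 hY; positivity
  have hQs : Q = s ^ (4 : ℝ) := by
    rw [show (4 : ℝ) = (4 : ℕ) by norm_num, rpow_natCast, hs, hQ]
    have := sq_sqrt hY.le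
    calc 16 * Y ^ 2 = 16 * (√Y ^ 2) ^ 2 := by rw [this]
      _ = _ := by ring
  have hpow : ∀ r : ℝ, (1 / Q) ^ r = s ^ (-(4 * r)) := fun r => by
    rw [one_div, inv_rpow hQ0.le, hQs, ← rpow_mul hs0.le, rpow_neg hs0.le]
  have i1 : IntegrableOn (fun τ : ℝ => Q * τ ^ (-(1 / 4 : ℝ))) (Set.Ioc 0 (1 / Q)) :=
    ((intervalIntegrable_iff_integrableOn_Ioc_of_le hQi.le).1
      (intervalIntegral.intervalIntegrable_rpow' (by norm_num))).const_mul _
  have i2 : IntegrableOn (fun τ : ℝ => τ ^ (-(5 / 4 : ℝ))) (Set.Ioi (1 / Q)) :=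
    integrableOn_Ioi_rpow_of_lt (by norm_num) hQi
  have j1 := ((integrable_indicator_iff measurableSet_Ioc).2 i1).integrableOn (s := Set.Ioi 0)
  have j2 := ((integrable_indicator_iff measurableSet_Ioi).2 i2).integrableOn (s := Set.Ioi 0)
  refine ⟨fun τ => (Set.Ioc 0 (1 / Q)).indicator (fun τ => Q * τ ^ (-(1 / 4 : ℝ))) τ +
    (Set.Ioi (1 / Q)).indicator (fun τ => τ ^ (-(5 / 4 : ℝ))) τ, j1.add j2, ?_, ?_⟩
  · rw [integral_add j1 j2, setIntegral_indicator measurableSet_Ioc,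
      setIntegral_indicator measurableSet_Ioi, Set.inter_eq_right.2 Set.Ioc_subset_Ioi_self,
      Set.inter_eq_right.2 (Set.Ioi_subset_Ioi hQi.le), integral_Ioi_rpow_of_lt (by norm_num) hQi,
      ← intervalIntegral.integral_of_le hQi.le, intervalIntegral.integral_const_mul,
      integral_rpow (Or.inl (by norm_num)), hpow, hpow, zero_rpow (by norm_num)]
    have e1 : Q * s ^ (-(4 * (-(1 / 4 : ℝ) + 1))) = s := by
      rw [hQs, ← rpow_add hs0]; norm_num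
    have e2 : s ^ (-(4 * (-(5 / 4 : ℝ) + 1))) = s := by norm_num
    rw [e2]
    have : Q * ((s ^ (-(4 * (-(1 / 4 : ℝ) + 1))) - 0) / (-(1 / 4 : ℝ) + 1)) = 4 / 3 * s := by
      rw [sub_zero, ← mul_div_assoc, e1]; ring
    rw [this]
    have : 12 * √Y = 6 * s := by rw [hs]; ring
    rw [this]
    linarith [show -s / (-(5 / 4 : ℝ) + 1) = 4 * s by ring]
  · intro τ hτ u hu huQ
    have hd : 0 < 1 + u * τ := by positivity
    have e1 : τ ^ (-(3 / 4 : ℝ)) * (1 / √τ) = τ ^ (-(5 / 4 : ℝ)) := by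
      rw [sqrt_eq_rpow, one_div, ← rpow_neg hτ.le, ← rpow_add hτ]; norm_num
    have e2 : τ ^ (-(1 / 4 : ℝ)) = τ * τ ^ (-(5 / 4 : ℝ)) := by
      rw [show (-(1 / 4 : ℝ)) = 1 + -(5 / 4) by norm_num, rpow_add hτ, rpow_one]
    have e3 : τ ^ (-(3 / 4 : ℝ)) * (u * τ / (1 + u * τ) * (1 / √τ)) =
        u * τ / (1 + u * τ) * τ ^ (-(5 / 4 : ℝ)) := by rw [← e1]; ring
    have hp : 0 < τ ^ (-(5 / 4 : ℝ)) := rpow_pos_of_pos hτ _
    rw [e3]
    beta_reduce
    rcases le_or_gt τ (1 / Q) with h | h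
    · rw [Set.indicator_of_mem (Set.mem_Ioc.2 ⟨hτ, h⟩),
        Set.indicator_of_notMem (Set.notMem_Ioi.2 h), add_zero, e2, ← mul_assoc]
      refine mul_le_mul_of_nonneg_right ?_ hp.le
      refine (div_le_self (by positivity) (by nlinarith [mul_nonneg hu hτ.le])).trans ?_
      exact mul_le_mul_of_nonneg_right huQ hτ.le
    · rw [Set.indicator_of_notMem (Set.notMem_Ioc_of_gt h),
        Set.indicator_of_mem (Set.mem_Ioi.2 h), zero_add]
      exact mul_le_of_le_one_left hp.le ((div_le_one hd).2 (by linarith))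

/-- The constant of the windows. -/
noncomputable def c1 : ℝ := exp (-(2 * π)) / 2

theorem c1_pos : 0 < c1 := by unfold c1; positivity

/-- The window function. -/
noncomputable def win (n τ : ℝ) : ℝ :=
  (Set.Ioc (1 / n ^ 2) (2 / n ^ 2)).indicator (fun _ => c1 * (n * √n)) τ

theorem win_int {n : ℝ} (hn : 0 < n) : IntegrableOn (win n) (Set.Ioi 0) ∧
    ∫ τ in Set.Ioi 0, win n τ = c1 * (1 / √n) := by
  have h1 : 0 < 1 / n ^ 2 := by positivity
  constructor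
  · exact ((integrable_indicator_iff measurableSet_Ioc).2
      (integrableOn_const (by simp))).integrableOn
  · unfold win
    rw [setIntegral_indicator measurableSet_Ioc,
      Set.inter_eq_right.2 (Set.Ioc_subset_Ioi_self.trans (Set.Ioi_subset_Ioi h1.le)),
      setIntegral_const, Real.volume_real_Ioc,
      max_eq_left (by rw [← sub_div]; positivity), smul_eq_mul]
    have h2 : 0 < √n := sqrt_pos.2 hn
    have h3 : √n * √n = n := mul_self_sqrt hn.le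
    field_simp
    rw [sq, h3]; ring

theorem win_le {n : ℝ} (hn : 0 < n) {τ : ℝ} (h : τ ∈ Set.Ioc (1 / n ^ 2) (2 / n ^ 2)) :
    c1 * (n * √n) ≤ τ ^ (-(3 / 4 : ℝ)) * exp (-π * n ^ 2 * τ) := by
  have h1 : 0 < 1 / n ^ 2 := by positivity
  have hτ : 0 < τ := h1.trans h.1
  have h2 : exp (-(2 * π)) ≤ exp (-π * n ^ 2 * τ) := by
    apply exp_le_exp.2
    have := (le_div_iff₀ (by positivity : 0 < n ^ 2)).1 h.2
    nlinarith [pi_pos]
  have h3 : n * √n / 2 ≤ τ ^ (-(3 / 4 : ℝ)) := by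
    refine le_trans ?_ (rpow_le_rpow_of_nonpos hτ h.2 (by norm_num))
    rw [div_rpow (by norm_num) (by positivity), ← rpow_natCast, ← rpow_mul hn.le,
      le_div_iff₀ (rpow_pos_of_pos hn _), sqrt_eq_rpow]
    have e1 : n * n ^ (1 / 2 : ℝ) / 2 * n ^ (((2 : ℕ) : ℝ) * -(3 / 4 : ℝ)) = 1 / 2 := by
      have : n * n ^ (1 / 2 : ℝ) * n ^ (((2 : ℕ) : ℝ) * -(3 / 4 : ℝ)) = 1 := by
        nth_rewrite 1 [← rpow_one n]
        rw [← rpow_add hn, ← rpow_add hn]; norm_num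
      linarith
    rw [e1, one_div, ← rpow_neg_one]
    exact rpow_le_rpow_of_exponent_le (by norm_num) (by norm_num)
  calc c1 * (n * √n) = n * √n / 2 * exp (-(2 * π)) := by unfold c1; ring
    _ ≤ _ := mul_le_mul h3 h2 (exp_pos _).le (rpow_nonneg hτ.le _)

section main

variable {ι : Type} [Fintype ι] [DecidableEq ι]

/-- The squarefree number attached to a subset. -/
def nn (l : ι → ℕ) (A : ι → Bool) : ℕ := ∏ i, if A i then l i else 1

/-- The value of the Legendre symbol at it. -/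
noncomputable def ee (l : ι → ℕ) (x : ℕ) (A : ι → Bool) : ℝ := J((nn l A : ℤ) | x)

/-- The weight of a subset. -/
noncomputable def kap (l : ι → ℕ) (Z : ℝ) (A : ι → Bool) : ℝ :=
  if (nn l A : ℝ) ≤ Z then 1 / √(nn l A : ℝ) else 0

variable {l : ι → ℕ}

omit [DecidableEq ι] in
theorem nn_pos (hl : ∀ i, (l i).Prime) (A : ι → Bool) : 0 < nn l A :=
  prod_pos fun i _ => by split_ifs; exacts [(hl i).pos, one_pos]

omit [DecidableEq ι] in
theorem nn_inj (hl : ∀ i, (l i).Prime) (hi : Function.Injective l) :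
    Function.Injective (nn l) := by
  have key : ∀ A B : ι → Bool, nn l A = nn l B → ∀ i, A i = true → B i = true := by
    intro A B h i hA
    have h1 : l i ∣ nn l A := by
      have := dvd_prod_of_mem (fun i => if A i then l i else 1) (mem_univ i)
      simpa [hA, nn] using this
    rw [h, nn, (hl i).prime.dvd_finsetProd_iff] at h1
    obtain ⟨j, -, hj⟩ := h1
    split_ifs at hj with hB
    · rwa [hi ((Nat.prime_dvd_prime_iff_eq (hl i) (hl j)).1 hj)]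
    · exact absurd (Nat.dvd_one.1 hj) (hl i).ne_one
  intro A B h
  funext i
  exact Bool.eq_iff_iff.2 ⟨key A B h i, key B A h.symm i⟩

omit [DecidableEq ι] in
theorem ee_eq (x : ℕ) (A : ι → Bool) :
    ee l x A = ∏ i, if A i then (J((l i : ℤ) | x) : ℝ) else 1 := by
  classical
  unfold ee nn
  induction (univ : Finset ι) using Finset.induction_on with
  | empty => simp
  | insert a s ha ih =>
    rw [prod_insert ha, prod_insert ha, Nat.cast_mul, jacobiSym.mul_left, Int.cast_mul, ih]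
    split_ifs <;> simp

omit [DecidableEq ι] in
theorem ee_mul {x : ℕ} (h : ∀ i, (l i).Coprime x) (A B : ι → Bool) :
    ee l x A * ee l x B = ee l x (xo A B) := by
  simp only [ee_eq, ← prod_mul_distrib]
  refine prod_congr rfl fun i _ => ?_
  have h1 : J((l i : ℤ) | x) ^ 2 = 1 := jacobiSym.sq_one (by
    rw [Int.gcd_natCast_natCast]; exact h i)
  have h2 : (J((l i : ℤ) | x) : ℝ) * J((l i : ℤ) | x) = 1 := by rw [← sq]; exact_mod_cast h1
  unfold xo
  cases A i <;> cases B i <;> simp [h2]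

omit [DecidableEq ι] in
theorem ee_self {x : ℕ} (h : ∀ i, (l i).Coprime x) (A : ι → Bool) :
    ee l x A * ee l x A = 1 := by
  rw [ee_mul h, ee_eq]
  simp [xo]

omit [DecidableEq ι] in
theorem theta_lower (hl : ∀ i, (l i).Prime) (hi : Function.Injective l) {D : Finset ℕ}
    {K : ℕ → ℕ → ℝ} (h : PD D K) (F : Finset (ι → Bool)) {τ : ℝ} (hτ : 0 < τ) :
    ∑ A ∈ F, exp (-π * (nn l A : ℝ) ^ 2 * τ) * ∑ x ∈ D, ∑ y ∈ D, K x y * (ee l x A * ee l y A) ≤
      ∑ x ∈ D, ∑ y ∈ D, K x y * TT x y τ := by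
  have h1 : HasSum (fun m : ℤ => exp (-π * (m : ℝ) ^ 2 * τ) *
      ∑ x ∈ D, ∑ y ∈ D, K x y * ((J(m | x) : ℝ) * J(m | y)))
      (∑ x ∈ D, ∑ y ∈ D, K x y * TT x y τ) := by
    have := hasSum_sum (s := D) fun x _ => hasSum_sum (s := D) fun y _ =>
      (hasSum_TT x y hτ).mul_left (K x y)
    refine this.congr_fun fun m => ?_
    simp_rw [mul_sum]
    exact sum_congr rfl fun x _ => sum_congr rfl fun y _ => by ring
  have h2 := sum_le_hasSum (F.image fun A => (nn l A : ℤ))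
    (fun m _ => mul_nonneg (exp_pos _).le (h fun x => J(m | x))) h1
  rw [sum_image fun A _ B _ hAB => nn_inj hl hi (by exact_mod_cast hAB)] at h2
  simpa [ee] using h2

theorem sum_split (D : Finset ℕ) (f : ℕ → ℕ → ℝ) :
    ∑ x ∈ D, ∑ y ∈ D, f x y = ∑ x ∈ D, f x x + ∑ x ∈ D, ∑ y ∈ D.erase x, f x y := by
  rw [← sum_add_distrib]
  exact sum_congr rfl fun x hx => (add_sum_erase _ _ hx).symm

/-- The integrated resonance inequality. -/
theorem integrated (hl : ∀ i, (l i).Prime) (hi : Function.Injective l) {Y : ℝ} (hY : 2 ≤ Y)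
    {D : Finset ℕ} (hD : ∀ x ∈ D, x.Prime ∧ Y < x ∧ (x : ℝ) ≤ 4 * Y)
    (hc : ∀ x ∈ D, ∀ y ∈ D, cls x = cls y) {W : ℕ → ℕ → ℝ} {B Z : ℝ} (hZ : Z ≤ Y)
    (hW : ∀ K, PD D K → PD D fun x y => K x y * W x y) (hW0 : ∀ x ∈ D, 0 ≤ W x x)
    (hWB : ∀ x ∈ D, W x x ≤ B) :
    c1 * ∑ A, kap l Z A * ∑ x ∈ D, ∑ y ∈ D, KK (1 / Y ^ 2) x y * W x y * (ee l x A * ee l y A)
      - D.card * (B / Y ^ 2) * (12 * √Y) ≤
    c0 * ∑ x ∈ D, ∑ y ∈ D.erase x, 1 / ((x : ℝ) + y) ^ 2 * W x y * Lhalf (x * y) := by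
  have hY0 : 0 < Y := by linarith
  have hD0 : ∀ x ∈ D, 0 < x := fun x hx => (hD x hx).1.pos
  have hD2 : ∀ x ∈ D, x ≠ 2 := fun x hx h => by
    have := (hD x hx).2.1
    rw [h] at this; push_cast at this; linarith
  obtain ⟨H, hH1, hH2, hH3⟩ := diag_int hY0
  set Q : (ι → Bool) → ℝ := fun A =>
    ∑ x ∈ D, ∑ y ∈ D, KK (1 / Y ^ 2) x y * W x y * (ee l x A * ee l y A) with hQ
  have hQ0 : ∀ A, 0 ≤ Q A := fun A => hW _ (PD_KK hD0 (by positivity)) _
  set F := univ.filter fun A => (nn l A : ℝ) ≤ Z with hF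
  have hn : ∀ A, (0 : ℝ) < nn l A := fun A => by exact_mod_cast nn_pos hl A
  have hpair : ∀ x ∈ D, ∀ y ∈ D.erase x, IntegrableOn (fun τ => τ ^ (-(3 / 4 : ℝ)) *
      (KK τ x y * W x y * TT x y τ)) (Set.Ioi 0) ∧ ∫ τ in Set.Ioi 0, τ ^ (-(3 / 4 : ℝ)) *
      (KK τ x y * W x y * TT x y τ) = c0 * (1 / ((x : ℝ) + y) ^ 2 * W x y * Lhalf (x * y)) := by
    intro x hx y hy
    obtain ⟨hyx, hy⟩ := mem_erase.1 hy
    obtain ⟨T, h1, h2, h3⟩ := pair_formula (hD x hx).1 (hD y hy).1 (hD2 x hx) (hD2 y hy) hyx.symm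
      (hc x hx y hy)
    have h4 : ∀ τ ∈ Set.Ioi (0 : ℝ), 1 / ((x : ℝ) + y) ^ 2 * W x y *
        (τ ^ (-(3 / 4 : ℝ)) * (x * y * τ / (1 + x * y * τ) * T τ)) =
        τ ^ (-(3 / 4 : ℝ)) * (KK τ x y * W x y * TT x y τ) := by
      intro τ hτ
      rw [(h1 τ hτ).unique (hasSum_TT x y hτ), KK]; ring
    refine ⟨IntegrableOn.congr_fun (h2.const_mul _) h4 measurableSet_Ioi, ?_⟩
    rw [← setIntegral_congr_fun measurableSet_Ioi h4, integral_const_mul, h3]; ring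
  have i1 : IntegrableOn (fun τ => ∑ A ∈ F, win (nn l A) τ * Q A) (Set.Ioi 0) :=
    integrable_finsetSum _ fun A _ => (win_int (hn A)).1.mul_const _
  have i2 : IntegrableOn (fun τ => D.card * (B / Y ^ 2) * H τ) (Set.Ioi 0) := hH1.const_mul _
  have i3 : ∀ x ∈ D, IntegrableOn (fun τ => ∑ y ∈ D.erase x, τ ^ (-(3 / 4 : ℝ)) *
      (KK τ x y * W x y * TT x y τ)) (Set.Ioi 0) := fun x hx =>
    integrable_finsetSum _ fun y hy => (hpair x hx y hy).1
  have hpt : ∀ τ ∈ Set.Ioi (0 : ℝ), ∑ A ∈ F, win (nn l A) τ * Q A - D.card * (B / Y ^ 2) * H τ ≤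
      ∑ x ∈ D, ∑ y ∈ D.erase x, τ ^ (-(3 / 4 : ℝ)) * (KK τ x y * W x y * TT x y τ) := by
    intro τ hτ
    have hτ0 : (0 : ℝ) < τ := hτ
    have hp : 0 < τ ^ (-(3 / 4 : ℝ)) := rpow_pos_of_pos hτ0 _
    have h1 := theta_lower hl hi (hW _ (PD_KK hD0 hτ0)) F hτ0
    rw [sum_split D fun x y => KK τ x y * W x y * TT x y τ] at h1
    have h2 : ∑ A ∈ F, win (nn l A) τ * Q A ≤ τ ^ (-(3 / 4 : ℝ)) *
        ∑ A ∈ F, exp (-π * (nn l A : ℝ) ^ 2 * τ) *
          ∑ x ∈ D, ∑ y ∈ D, KK τ x y * W x y * (ee l x A * ee l y A) := by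
      rw [mul_sum]
      refine sum_le_sum fun A hA => ?_
      have h3 := hW _ (PD_KK hD0 hτ0) fun x => ee l x A
      unfold win
      by_cases hw : τ ∈ Set.Ioc (1 / (nn l A : ℝ) ^ 2) (2 / (nn l A : ℝ) ^ 2)
      · rw [Set.indicator_of_mem hw, ← mul_assoc (τ ^ (-(3 / 4 : ℝ)))]
        have h4 : 1 / Y ^ 2 ≤ τ := by
          refine le_trans (one_div_le_one_div_of_le (pow_pos (hn A) 2) ?_) hw.1.le
          exact pow_le_pow_left₀ (hn A).le ((mem_filter.1 hA).2.trans hZ) 2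
        have h5 := hW _ (PD_KK_sub hD0 (by positivity) h4) fun x => ee l x A
        simp only [sub_mul, sum_sub_distrib] at h5
        exact mul_le_mul (win_le (hn A) hw) (by simp only [hQ]; linarith) (hQ0 A) (by positivity)
      · rw [Set.indicator_of_notMem hw, zero_mul]
        positivity
    have h3 : τ ^ (-(3 / 4 : ℝ)) * ∑ x ∈ D, KK τ x x * W x x * TT x x τ ≤
        D.card * (B / Y ^ 2) * H τ := by
      rw [mul_sum, mul_assoc, ← nsmul_eq_mul]
      refine sum_le_card_nsmul _ _ _ fun x hx => ?_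
      obtain ⟨hx1, hx2, hx3⟩ := hD x hx
      have hx0 : (0 : ℝ) < x := by linarith
      have h4 := hH3 τ hτ0 (x * x) (by positivity) (by nlinarith)
      have h5 := TT_diag_le hx1.one_lt hτ0
      have h6 : 1 / ((x : ℝ) + x) ^ 2 * W x x * 4 ≤ B / Y ^ 2 := by
        have e : 1 / ((x : ℝ) + x) ^ 2 * W x x * 4 = W x x / (x : ℝ) ^ 2 := by
          field_simp; ring
        rw [e]
        exact div_le_div₀ ((hW0 x hx).trans (hWB x hx)) (hWB x hx) (by positivity)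
          (pow_le_pow_left₀ hY0.le hx2.le 2)
      have h7 := hW0 x hx
      calc τ ^ (-(3 / 4 : ℝ)) * (KK τ x x * W x x * TT x x τ)
          ≤ τ ^ (-(3 / 4 : ℝ)) * (KK τ x x * W x x * (4 / √τ)) := by
            unfold KK; gcongr
        _ = 1 / ((x : ℝ) + x) ^ 2 * W x x * 4 *
            (τ ^ (-(3 / 4 : ℝ)) * (x * x * τ / (1 + x * x * τ) * (1 / √τ))) := by
            unfold KK; ring
        _ ≤ _ := mul_le_mul h6 h4 (by positivity) (le_trans (by positivity) h6)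
    simp_rw [← mul_sum]
    nlinarith [mul_le_mul_of_nonneg_left h1 hp.le]
  have key := setIntegral_mono_on (i1.sub i2) (integrable_finsetSum _ i3) measurableSet_Ioi hpt
  simp only [Pi.sub_apply] at key
  rw [integral_sub i1 i2, integral_finsetSum _ fun A _ => (win_int (hn A)).1.mul_const _,
    integral_const_mul, integral_finsetSum _ i3] at key
  have e1 : ∑ x ∈ D, ∫ τ in Set.Ioi 0, ∑ y ∈ D.erase x, τ ^ (-(3 / 4 : ℝ)) *
      (KK τ x y * W x y * TT x y τ) =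
      c0 * ∑ x ∈ D, ∑ y ∈ D.erase x, 1 / ((x : ℝ) + y) ^ 2 * W x y * Lhalf (x * y) := by
    rw [mul_sum]
    refine sum_congr rfl fun x hx => ?_
    rw [integral_finsetSum _ fun y hy => (hpair x hx y hy).1, mul_sum]
    exact sum_congr rfl fun y hy => (hpair x hx y hy).2
  have e2 : ∑ A ∈ F, ∫ τ in Set.Ioi 0, win (nn l A) τ * Q A = c1 * ∑ A, kap l Z A * Q A := by
    rw [mul_sum, hF, sum_filter]
    refine sum_congr rfl fun A _ => ?_
    rw [integral_mul_const, (win_int (hn A)).2, kap]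
    split_ifs <;> ring
  rw [e1, e2] at key
  refine le_trans (sub_le_sub_left ?_ _) key
  rcases D.eq_empty_or_nonempty with rfl | ⟨x, hx⟩
  · simp
  · have := (hW0 x hx).trans (hWB x hx)
    exact mul_le_mul_of_nonneg_left hH2 (by positivity)

theorem pow_max_ge (z : ℝ) {b : ℝ} (hb : 0 ≤ b) (k : ℕ) :
    b ^ k * (z - b) ≤ max z 0 ^ (k + 1) := by
  rcases le_total z b with h | h
  · exact le_trans (mul_nonpos_of_nonneg_of_nonpos (by positivity) (by linarith)) (by positivity)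
  · rw [max_eq_left (hb.trans h), pow_succ]
    exact mul_le_mul (pow_le_pow_left₀ hb h k) (by linarith) (by linarith)
      (pow_nonneg (hb.trans h) _)

/-- The moment bound over pairs. -/
theorem core (hl : ∀ i, (l i).Prime) (hi : Function.Injective l) {Y : ℝ} (hY : 2 ≤ Y)
    (hlY : ∀ i, (l i : ℝ) ≤ Y) {D : Finset ℕ} (hD : ∀ x ∈ D, x.Prime ∧ Y < x ∧ (x : ℝ) ≤ 4 * Y)
    (hc : ∀ x ∈ D, ∀ y ∈ D, cls x = cls y) {M : Finset (ι → Bool)} (hM : M.Nonempty)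
    {ρ : (ι → Bool) → ℝ} (hρ : ∀ B, 0 < ρ B) {N Z b : ℝ} (hN : M.card ≤ N) (hZ : Z ≤ Y)
    (hb1 : 1 ≤ b) (hb : ∀ C ∈ M, b * ρ C ≤ ∑ B ∈ M, kap l Z (xo C B) * ρ B)
    (hbig : 3072 * N * √Y ≤ c1 * D.card) (k : ℕ) :
    (c1 * b / (8 * c0)) ^ (k + 1) * (D.card ^ 2 / (32 * N)) ≤
      ∑ x ∈ D, ∑ y ∈ D.erase x, max (Lhalf (x * y)) 0 ^ (k + 1) := by
  have hY0 : 0 < Y := by linarith
  have hD0 : ∀ x ∈ D, 0 < x := fun x hx => (hD x hx).1.pos
  have hN0 : 0 < N := lt_of_lt_of_le (by exact_mod_cast hM.card_pos) hN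
  have hco : ∀ x ∈ D, ∀ i, (l i).Coprime x := fun x hx i =>
    (Nat.coprime_primes (hl i) (hD x hx).1).2 fun h => by
      have h1 := hlY i
      have h2 := (hD x hx).2.1
      rw [h] at h1; linarith
  have hρ0 : ∀ B ∈ M, 0 ≤ ρ B := fun B _ => (hρ B).le
  set R := RR (ee l) M ρ with hR
  set n2 := ∑ B ∈ M, ρ B ^ 2 with hn2
  have hn20 : 0 < n2 := sum_pos (fun B _ => pow_pos (hρ B) 2) hM
  have hRle : ∀ x ∈ D, ∀ y ∈ D, R x y * R x y ≤ N * n2 := fun x hx y hy =>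
    (RR_sq_le (ee_self (hco x hx)) (ee_self (hco y hy))).trans
      (mul_le_mul_of_nonneg_right hN hn20.le)
  have hK := PD_KK hD0 (τ := 1 / Y ^ 2) (by positivity)
  have h1 := integrated hl hi hY hD hc (W := fun x y => R x y * R x y) (B := N * n2) hZ
    (fun K h => ((h.mul_RR hρ0).mul_RR hρ0).congr fun x _ y _ => mul_assoc _ _ _)
    (fun x _ => mul_self_nonneg _) (fun x hx => hRle x hx x hx)
  have h2 := perron hK hρ0 (fun x hx => ee_mul (hco x hx)) (kap l Z)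
    (fun A => by unfold kap; split_ifs <;> positivity) hb
  have h3 := S_lower hK hρ0 (fun x hx => ee_self (hco x hx)) (M := M)
  simp only [← hR, ← hn2, mul_assoc (KK _ _ _) (R _ _) (R _ _)] at h2 h3
  set S := ∑ x ∈ D, ∑ y ∈ D, KK (1 / Y ^ 2) x y * (R x y * R x y) with hS
  have hKl : ∀ x ∈ D, ∀ y ∈ D, 1 / ((x : ℝ) + y) ^ 2 ≤ 2 * KK (1 / Y ^ 2) x y := by
    intro x hx y hy
    obtain ⟨-, hx2, -⟩ := hD x hx
    obtain ⟨-, hy2, -⟩ := hD y hy
    have hx0 : (0 : ℝ) < x := by linarith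
    have hy0 : (0 : ℝ) < y := by linarith
    have h4 : 1 ≤ (x : ℝ) * y * (1 / Y ^ 2) := by
      rw [mul_one_div, one_le_div (by positivity)]; nlinarith
    have h5 : 1 ≤ 2 * ((x : ℝ) * y * (1 / Y ^ 2) / (1 + x * y * (1 / Y ^ 2))) := by
      rw [← mul_div_assoc, one_le_div (by positivity)]; linarith
    unfold KK
    calc 1 / ((x : ℝ) + y) ^ 2 = 1 / ((x : ℝ) + y) ^ 2 * 1 := (mul_one _).symm
      _ ≤ 1 / ((x : ℝ) + y) ^ 2 * (2 * ((x : ℝ) * y * (1 / Y ^ 2) /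
          (1 + x * y * (1 / Y ^ 2)))) := by gcongr
      _ = _ := by ring
  have h4 : (D.card : ℝ) ^ 2 * (1 / (128 * Y ^ 2)) ≤ ∑ x ∈ D, ∑ y ∈ D, KK (1 / Y ^ 2) x y := by
    rw [sq, mul_assoc, ← nsmul_eq_mul]
    refine card_nsmul_le_sum _ _ _ fun x hx => ?_
    rw [← nsmul_eq_mul]
    refine card_nsmul_le_sum _ _ _ fun y hy => ?_
    have h5 := hKl x hx y hy
    obtain ⟨-, hx2, hx3⟩ := hD x hx
    obtain ⟨-, hy2, hy3⟩ := hD y hy
    have h6 : 1 / (64 * Y ^ 2) ≤ 1 / ((x : ℝ) + y) ^ 2 :=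
      one_div_le_one_div_of_le (by nlinarith) (by nlinarith)
    have h7 : 1 / (64 * Y ^ 2) = 2 * (1 / (128 * Y ^ 2)) := by field_simp; norm_num
    linarith
  have hS1 : n2 * ((D.card : ℝ) ^ 2 * (1 / (128 * Y ^ 2))) ≤ S :=
    (mul_le_mul_of_nonneg_left h4 hn20.le).trans h3
  have hS0 : 0 ≤ S := le_trans (by positivity) hS1
  have hc1 := c1_pos
  have hc0 := c0_pos
  have h5 : D.card * (N * n2 / Y ^ 2) * (12 * √Y) ≤ c1 * b * S / 2 := by
    calc D.card * (N * n2 / Y ^ 2) * (12 * √Y)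
        = (3072 * N * √Y) * (n2 * D.card / (256 * Y ^ 2)) := by field_simp; ring
      _ ≤ (c1 * D.card) * (n2 * D.card / (256 * Y ^ 2)) := by gcongr
      _ = c1 * 1 * (n2 * ((D.card : ℝ) ^ 2 * (1 / (128 * Y ^ 2)))) / 2 := by
          field_simp; ring
      _ ≤ _ := by gcongr
  set β := c1 * b / (8 * c0) with hβ
  have hβ0 : 0 < β := by positivity
  have h6 : 4 * β * S ≤ ∑ x ∈ D, ∑ y ∈ D.erase x,
      1 / ((x : ℝ) + y) ^ 2 * (R x y * R x y) * Lhalf (x * y) := by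
    refine le_of_mul_le_mul_left ?_ hc0
    have : c0 * (4 * β * S) = c1 * b * S / 2 := by rw [hβ]; field_simp; ring
    rw [this]
    nlinarith [mul_le_mul_of_nonneg_left h2 hc1.le]
  have h7 : ∑ x ∈ D, ∑ y ∈ D.erase x, 1 / ((x : ℝ) + y) ^ 2 * (R x y * R x y) ≤ 2 * S := by
    rw [hS, mul_sum]
    refine sum_le_sum fun x hx => ?_
    rw [mul_sum]
    refine le_trans (sum_le_sum_of_subset_of_nonneg (erase_subset _ _) fun y _ _ =>
      mul_nonneg (by positivity) (mul_self_nonneg _)) (sum_le_sum fun y hy => ?_)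
    rw [← mul_assoc 2]
    exact mul_le_mul_of_nonneg_right (hKl x hx y hy) (mul_self_nonneg _)
  have h8 : β ^ k * (∑ x ∈ D, ∑ y ∈ D.erase x,
      1 / ((x : ℝ) + y) ^ 2 * (R x y * R x y) * Lhalf (x * y) -
      β * ∑ x ∈ D, ∑ y ∈ D.erase x, 1 / ((x : ℝ) + y) ^ 2 * (R x y * R x y)) ≤
      N * n2 / (4 * Y ^ 2) * ∑ x ∈ D, ∑ y ∈ D.erase x, max (Lhalf (x * y)) 0 ^ (k + 1) := by
    simp_rw [mul_sum, ← sum_sub_distrib, mul_sum]
    refine sum_le_sum fun x hx => sum_le_sum fun y hy => ?_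
    have hy' := mem_of_mem_erase hy
    obtain ⟨-, hx2, -⟩ := hD x hx
    obtain ⟨-, hy2, -⟩ := hD y hy'
    have h9 : 1 / ((x : ℝ) + y) ^ 2 * (R x y * R x y) ≤ N * n2 / (4 * Y ^ 2) := by
      rw [one_div_mul_eq_div]
      exact div_le_div₀ (by positivity) (hRle x hx y hy') (by positivity) (by nlinarith)
    have h10 : 0 ≤ 1 / ((x : ℝ) + y) ^ 2 * (R x y * R x y) :=
      mul_nonneg (by positivity) (mul_self_nonneg _)
    calc _ = 1 / ((x : ℝ) + y) ^ 2 * (R x y * R x y) * (β ^ k * (Lhalf (x * y) - β)) := by ring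
      _ ≤ 1 / ((x : ℝ) + y) ^ 2 * (R x y * R x y) * max (Lhalf (x * y)) 0 ^ (k + 1) :=
          mul_le_mul_of_nonneg_left (pow_max_ge _ hβ0.le k) h10
      _ ≤ _ := mul_le_mul_of_nonneg_right h9 (by positivity)
  refine le_of_mul_le_mul_left (le_trans ?_ h8) (by positivity : 0 < N * n2 / (4 * Y ^ 2))
  calc N * n2 / (4 * Y ^ 2) * (β ^ (k + 1) * (D.card ^ 2 / (32 * N)))
      = β ^ k * (β * (n2 * ((D.card : ℝ) ^ 2 * (1 / (128 * Y ^ 2))))) := by
        field_simp; ring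
    _ ≤ β ^ k * (β * S) := by gcongr
    _ ≤ _ := by
        refine mul_le_mul_of_nonneg_left ?_ (by positivity)
        nlinarith [mul_le_mul_of_nonneg_left h7 hβ0.le, mul_nonneg hβ0.le hS0]

end main

end Pool.Agent.LRes
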