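import Mathlib

/-!
Theta function of an even real function mod q that is self dual under the finite Fourier
transform, and the balanced integral formula for the central value.
-/

namespace Pool.Agent.LRes

open Real MeasureTheory Set HurwitzZeta Finset

variable {q : ℕ} [NeZero q]

/-- The theta function in the normalisation of the Hurwitz kernels. -/
noncomputable def EE (Φ : ZMod q → ℝ) (t : ℝ) : ℝ :=
  ∑ a : ZMod q, Φ a * evenKernel (ZMod.toAddCircle a) t

/-- The theta function. -/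
noncomputable def Th (Φ : ZMod q → ℝ) (τ : ℝ) : ℝ := EE Φ ((q : ℝ) ^ 2 * τ)

theorem q_pos : (0 : ℝ) < q := by exact_mod_cast Nat.pos_of_ne_zero (NeZero.ne q)

theorem hasSum_class (a : ZMod q) {τ : ℝ} (hτ : 0 < τ) :
    HasSum (fun m : ℤ => if (m : ZMod q) = a then exp (-π * (m : ℝ) ^ 2 * τ) else 0)
      (evenKernel (ZMod.toAddCircle a) ((q : ℝ) ^ 2 * τ)) := by
  have hq : (0 : ℝ) < q := q_pos
  have hqz : (q : ℤ) ≠ 0 := by exact_mod_cast NeZero.ne q
  have h := hasSum_int_evenKernel ((a.val : ℝ) / q) (t := (q : ℝ) ^ 2 * τ) (by positivity)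
  rw [← ZMod.toAddCircle_apply] at h
  have hinj : Function.Injective (fun n : ℤ => n * q + a.val) := by
    intro n n' hn
    simp only [add_left_inj] at hn
    exact mul_right_cancel₀ hqz hn
  rw [← hinj.hasSum_iff]
  · refine h.congr_fun fun n => ?_
    have : (((n * q + a.val : ℤ)) : ZMod q) = a := by push_cast; simp
    simp only [Function.comp, this, if_true]
    congr 1
    push_cast
    field_simp
  · intro m hm
    rw [if_neg]
    intro hma
    apply hm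
    have : ((m - a.val : ℤ) : ZMod q) = 0 := by push_cast; simp [hma]
    obtain ⟨c, hc⟩ := (ZMod.intCast_zmod_eq_zero_iff_dvd _ _).1 this
    exact ⟨c, by simp only; linarith⟩

theorem hasSum_Th (Φ : ZMod q → ℝ) {τ : ℝ} (hτ : 0 < τ) :
    HasSum (fun m : ℤ => Φ m * exp (-π * (m : ℝ) ^ 2 * τ)) (Th Φ τ) := by
  have h := hasSum_sum (s := (univ : Finset (ZMod q)))
    (fun a _ => (hasSum_class a hτ).mul_left (Φ a))
  refine h.congr_fun fun m => ?_
  simp

/-- Self duality under the finite Fourier transform with root number one. -/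
def SelfDual (Φ : ZMod q → ℝ) : Prop :=
  ∀ m : ℤ, ∑ a : ZMod q, (Φ a : ℂ) * Complex.exp (2 * π * Complex.I * ((a.val : ℝ) / q : ℝ) * m)
    = (√q * Φ m : ℝ)

theorem sum_cos {Φ : ZMod q → ℝ} (h : SelfDual Φ) {u : ℝ} (hu : 0 < u) :
    ∑ a : ZMod q, Φ a * cosKernel (ZMod.toAddCircle a) u = √q * Th Φ u := by
  have h1 := hasSum_sum (s := (univ : Finset (ZMod q)))
    (fun a _ => (hasSum_int_cosKernel ((a.val : ℝ) / q) hu).mul_left (Φ a : ℂ))
  have h2 := Complex.hasSum_ofReal.2 ((hasSum_Th Φ hu).mul_left √q)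
  have h3 : (fun m : ℤ => ∑ a : ZMod q, (Φ a : ℂ) *
      (Complex.exp (2 * π * Complex.I * ((a.val : ℝ) / q : ℝ) * m) *
        (exp (-π * (m : ℝ) ^ 2 * u) : ℝ))) =
      fun m : ℤ => ((√q * (Φ m * exp (-π * (m : ℝ) ^ 2 * u)) : ℝ) : ℂ) := by
    funext m
    simp_rw [← mul_assoc]
    rw [← sum_mul, h m]
    push_cast
    ring
  rw [h3] at h1
  have h4 := h1.unique h2
  simp_rw [ZMod.toAddCircle_apply]
  exact_mod_cast h4

theorem Th_feq {Φ : ZMod q → ℝ} (h : SelfDual Φ) {τ : ℝ} (hτ : 0 < τ) :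
    Th Φ (1 / ((q : ℝ) ^ 2 * τ)) = √(q * τ) * Th Φ τ := by
  have hq : (0 : ℝ) < q := q_pos
  have h1 : Th Φ τ = 1 / ((q : ℝ) ^ 2 * τ) ^ (1 / 2 : ℝ) *
      (√q * Th Φ (1 / ((q : ℝ) ^ 2 * τ))) := by
    rw [← sum_cos h (by positivity), mul_sum]
    unfold Th EE
    refine sum_congr rfl fun a _ => ?_
    rw [evenKernel_functional_equation]
    ring
  rw [h1, ← sqrt_eq_rpow]
  have h2 : √((q : ℝ) ^ 2 * τ) = √q * √(q * τ) := by
    rw [← sqrt_mul hq.le]; congr 1; ring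
  rw [h2]
  have : 0 < √(q : ℝ) := sqrt_pos.2 hq
  have : 0 < √((q : ℝ) * τ) := sqrt_pos.2 (by positivity)
  field_simp

theorem hasMellin_EE {Φ : ZMod q → ℝ} (h0 : Φ 0 = 0) (hs : ∑ a, Φ a = 0) :
    HasMellin (fun t => (EE Φ t : ℂ)) (1 / 4)
      (2 * ∑ a : ZMod q, (Φ a : ℂ) * completedHurwitzZetaEven (ZMod.toAddCircle a) (1 / 2)) := by
  set P := fun a : ZMod q => hurwitzEvenFEPair (ZMod.toAddCircle a) with hP
  have hc : ∀ a, MellinConvergent (P a).f_modif (1 / 4) := fun a =>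
    ((P a).isStrongFEPair_toStrongFEPair.hasMellin (1 / 4)).1
  have hsC : ∑ a, (Φ a : ℂ) = 0 := by exact_mod_cast hs
  have hae : ∀ᵐ t : ℝ ∂(volume.restrict (Set.Ioi (0 : ℝ))),
      ∑ a, (Φ a : ℂ) * ((t : ℂ) ^ ((1 / 4 : ℂ) - 1) • (P a).f_modif t) =
        (t : ℂ) ^ ((1 / 4 : ℂ) - 1) • (EE Φ t : ℂ) := by
    refine (ae_restrict_iff' measurableSet_Ioi).mpr ?_
    filter_upwards [compl_mem_ae_iff.mpr (Subsingleton.measure_zero (s := {1}) (by simp) _)]
      with t (ht₁ : t ≠ 1) (ht₀ : 0 < t)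
    have key : ∑ a, (Φ a : ℂ) * (P a).f_modif t = (EE Φ t : ℂ) := by
      rcases lt_or_gt_of_ne ht₁ with ht | ht
      · have : ∀ a, (P a).f_modif t = (evenKernel (ZMod.toAddCircle a) t : ℝ) -
            ((t ^ (-(1 / 2 : ℝ)) : ℝ) : ℂ) := by
          intro a
          rw [WeakFEPair.f_modif, Pi.add_apply, indicator_of_notMem (by simpa using ht.le),
            indicator_of_mem (by exact ⟨ht₀, ht⟩)]
          simp [hP, hurwitzEvenFEPair]
        simp_rw [this, mul_sub, sum_sub_distrib, ← sum_mul, hsC]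
        simp [EE]
      · have : ∀ a, (Φ a : ℂ) * (P a).f_modif t =
            (Φ a : ℂ) * (evenKernel (ZMod.toAddCircle a) t : ℝ) := by
          intro a
          rw [WeakFEPair.f_modif, Pi.add_apply, indicator_of_mem (by exact ht),
            indicator_of_notMem (by simp; intro _; exact ht.le)]
          by_cases ha : a = 0
          · simp [ha, h0]
          · simp [hP, hurwitzEvenFEPair, ha]
        simp_rw [this]
        simp [EE]
    rw [← key, smul_eq_mul, mul_sum]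
    refine sum_congr rfl fun a _ => ?_
    rw [smul_eq_mul]; ring
  have hint : ∀ a ∈ (univ : Finset (ZMod q)), Integrable
      (fun t : ℝ => (Φ a : ℂ) * ((t : ℂ) ^ ((1 / 4 : ℂ) - 1) • (P a).f_modif t))
      (volume.restrict (Set.Ioi (0 : ℝ))) := fun a _ => (hc a).const_mul _
  refine ⟨(integrable_finsetSum _ hint).congr hae, ?_⟩
  rw [mellin, ← integral_congr_ae hae, integral_finsetSum _ hint]
  have h1 : ∀ a, ∫ t : ℝ in Set.Ioi 0, (Φ a : ℂ) * ((t : ℂ) ^ ((1 / 4 : ℂ) - 1) • (P a).f_modif t) =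
      2 * ((Φ a : ℂ) * completedHurwitzZetaEven (ZMod.toAddCircle a) (1 / 2)) + 8 * (Φ a : ℂ) / 2 := by
    intro a
    rw [integral_const_mul]
    have h2 : ∫ t : ℝ in Set.Ioi 0, (t : ℂ) ^ ((1 / 4 : ℂ) - 1) • (P a).f_modif t =
        2 * completedHurwitzZetaEven₀ (ZMod.toAddCircle a) (1 / 2) := by
      rw [completedHurwitzZetaEven₀, WeakFEPair.Λ₀, mellin]
      have : (1 / 2 : ℂ) / 2 = 1 / 4 := by norm_num
      rw [this]; ring
    rw [h2, completedHurwitzZetaEven_eq]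
    by_cases ha : a = 0
    · simp [ha, h0]
    · simp [ha]; ring
  simp_rw [h1]
  rw [sum_add_distrib, ← mul_sum, ← sum_div, ← mul_sum, hsC]
  simp

/-- The constant `Gamma_R(1/2)`. -/
noncomputable def c0 : ℝ := π ^ (-(1 / 4 : ℝ)) * Gamma (1 / 4)

theorem c0_pos : 0 < c0 := by
  unfold c0
  have := Gamma_pos_of_pos (s := 1 / 4) (by norm_num)
  positivity

theorem Gammaℝ_half : Complex.Gammaℝ (1 / 2) = (c0 : ℂ) := by
  rw [Complex.Gammaℝ_def, c0]
  push_cast
  rw [Complex.ofReal_cpow pi_pos.le, ← Complex.Gamma_ofReal]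
  congr 2 <;> push_cast <;> ring

theorem integral_Th {Φ : ZMod q → ℝ} (he : ∀ a, Φ (-a) = Φ a) (h0 : Φ 0 = 0)
    (hs : ∑ a, Φ a = 0) :
    IntegrableOn (fun τ => τ ^ (-(3 / 4 : ℝ)) * Th Φ τ) (Set.Ioi 0) ∧
    ∫ τ in Set.Ioi 0, τ ^ (-(3 / 4 : ℝ)) * Th Φ τ =
      2 * (c0 * (ZMod.LFunction (fun a => (Φ a : ℂ)) (1 / 2)).re) := by
  have hq : (0 : ℝ) < q := q_pos
  obtain ⟨h1, h2⟩ := hasMellin_EE h0 hs
  have hq2 : (0 : ℝ) < (q : ℝ) ^ 2 := by positivity
  have h3 : MellinConvergent (fun t => (Th Φ t : ℂ)) (1 / 4) :=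
    (MellinConvergent.comp_mul_left hq2).2 h1
  have h4 : mellin (fun t => (Th Φ t : ℂ)) (1 / 4) =
      2 * (c0 * ZMod.LFunction (fun a => (Φ a : ℂ)) (1 / 2)) := by
    have hev : Function.Even (fun a => (Φ a : ℂ)) := fun a => by simp [he]
    have h5 := mellin_comp_mul_left (fun t => (EE Φ t : ℂ)) (1 / 4) hq2
    rw [ZMod.LFunction_eq_completed_div_gammaFactor_even hev _ (Or.inl (by norm_num)),
      ZMod.completedLFunction_def_even hev, Gammaℝ_half]
    have h6 : (((q : ℝ) ^ 2 : ℝ) : ℂ) ^ (-(1 / 4 : ℂ)) = (q : ℂ) ^ (-(1 / 2 : ℂ)) := by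
      have e1 : (-(1 / 4 : ℂ)) = ((-(1 / 4) : ℝ) : ℂ) := by push_cast; ring
      have e2 : (-(1 / 2 : ℂ)) = ((-(1 / 2) : ℝ) : ℂ) := by push_cast; ring
      rw [e1, e2, ← Complex.ofReal_cpow hq2.le, ← Complex.ofReal_natCast,
        ← Complex.ofReal_cpow hq.le, ← rpow_natCast, ← rpow_mul hq.le]
      norm_num
    have h7 : (c0 : ℂ) ≠ 0 := by exact_mod_cast c0_pos.ne'
    unfold Th
    rw [h5, h2, h6, smul_eq_mul]
    field_simp
  have hfun : ∀ t ∈ Set.Ioi (0 : ℝ), (t : ℂ) ^ ((1 / 4 : ℂ) - 1) • (Th Φ t : ℂ) =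
      ((t ^ (-(3 / 4 : ℝ)) * Th Φ t : ℝ) : ℂ) := by
    intro t ht
    have e1 : ((1 / 4 : ℂ) - 1) = ((-(3 / 4) : ℝ) : ℂ) := by push_cast; ring
    rw [e1, ← Complex.ofReal_cpow (le_of_lt ht), smul_eq_mul]
    push_cast; ring
  constructor
  · have := (h3.congr_fun hfun measurableSet_Ioi).re
    simpa [IntegrableOn] using this
  · rw [mellin, setIntegral_congr_fun measurableSet_Ioi hfun, integral_complex_ofReal] at h4
    have := congrArg Complex.re h4
    simpa using this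

theorem integral_inv_comp (g : ℝ → ℝ) {c : ℝ} (hc : 0 < c) :
    ∫ τ in Set.Ioi 0, g τ = ∫ τ in Set.Ioi 0, 1 / (c * τ ^ 2) * g (1 / (c * τ)) := by
  have h1 := integral_comp_rpow_Ioi (fun y => g (c⁻¹ * y)) (p := -1) (by norm_num)
  have h2 := integral_comp_mul_left_Ioi g 0 (b := c⁻¹) (by positivity)
  rw [mul_zero, inv_inv, smul_eq_mul] at h2
  rw [h2] at h1
  have h3 : ∫ τ in Set.Ioi 0, g τ = c⁻¹ * (c * ∫ τ in Set.Ioi 0, g τ) := by field_simp
  rw [h3, ← h1, ← integral_const_mul]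
  refine setIntegral_congr_fun measurableSet_Ioi fun t ht => ?_
  have ht' : (0 : ℝ) < t := ht
  have e1 : t ^ ((-1 : ℝ) - 1) = 1 / t ^ 2 := by
    rw [show ((-1 : ℝ) - 1) = -(2 : ℕ) by norm_num, rpow_neg ht'.le, rpow_natCast]; simp
  simp only [e1, rpow_neg_one, smul_eq_mul, abs_neg, abs_one]
  have e2 : c⁻¹ * t⁻¹ = 1 / (c * t) := by field_simp
  rw [e2]
  field_simp

/-- The balanced formula for the central value. -/
theorem balanced {Φ : ZMod q → ℝ} (he : ∀ a, Φ (-a) = Φ a) (h0 : Φ 0 = 0)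
    (hs : ∑ a, Φ a = 0) (hd : SelfDual Φ) :
    IntegrableOn (fun τ => τ ^ (-(3 / 4 : ℝ)) * (q * τ / (1 + q * τ) * Th Φ τ)) (Set.Ioi 0) ∧
    ∫ τ in Set.Ioi 0, τ ^ (-(3 / 4 : ℝ)) * (q * τ / (1 + q * τ) * Th Φ τ) =
      c0 * (ZMod.LFunction (fun a => (Φ a : ℂ)) (1 / 2)).re := by
  have hq : (0 : ℝ) < q := q_pos
  obtain ⟨h1, h2⟩ := integral_Th he h0 hs
  have hm : ∀ w : ℝ → ℝ, ContinuousOn w (Set.Ioi 0) → (∀ t ∈ Set.Ioi (0 : ℝ), |w t| ≤ 1) →
      IntegrableOn (fun τ => τ ^ (-(3 / 4 : ℝ)) * (w τ * Th Φ τ)) (Set.Ioi 0) := by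
    intro w hw hw1
    have := Integrable.bdd_mul (c := 1) h1 (hw.aestronglyMeasurable measurableSet_Ioi)
      ((ae_restrict_iff' measurableSet_Ioi).2 (Filter.Eventually.of_forall fun t ht => by
        simpa using hw1 t ht))
    refine IntegrableOn.congr_fun this (fun t _ => by ring) measurableSet_Ioi
  have hA := hm (fun τ => q * τ / (1 + q * τ))
    (ContinuousOn.div (by fun_prop) (by fun_prop) fun t ht => by
      have : (0 : ℝ) < t := ht
      positivity)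
    (fun t ht => by
      have : (0 : ℝ) < t := ht
      rw [abs_of_nonneg (by positivity), div_le_one (by positivity)]
      linarith)
  have hB := hm (fun τ => 1 / (1 + q * τ))
    (ContinuousOn.div (by fun_prop) (by fun_prop) fun t ht => by
      have : (0 : ℝ) < t := ht
      positivity)
    (fun t ht => by
      have : (0 : ℝ) < t := ht
      rw [abs_of_nonneg (by positivity), div_le_one (by positivity)]
      have : (0 : ℝ) < q * t := by positivity
      linarith)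
  refine ⟨hA, ?_⟩
  have h3 : ∫ τ in Set.Ioi 0, τ ^ (-(3 / 4 : ℝ)) * (1 / (1 + q * τ) * Th Φ τ) =
      ∫ τ in Set.Ioi 0, τ ^ (-(3 / 4 : ℝ)) * (q * τ / (1 + q * τ) * Th Φ τ) := by
    rw [integral_inv_comp _ (c := (q : ℝ) ^ 2) (by positivity)]
    refine setIntegral_congr_fun measurableSet_Ioi fun t ht => ?_
    have ht' : (0 : ℝ) < t := ht
    rw [Th_feq hd ht']
    have e1 : (1 / ((q : ℝ) ^ 2 * t)) ^ (-(3 / 4 : ℝ)) =
        (q : ℝ) * √q * (t * √t * t ^ (-(3 / 4 : ℝ))) := by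
      rw [one_div, inv_rpow (by positivity), ← rpow_neg (by positivity), neg_neg,
        mul_rpow (by positivity) ht'.le, ← rpow_natCast, ← rpow_mul hq.le, sqrt_eq_rpow,
        sqrt_eq_rpow]
      congr 1
      · rw [show ((2 : ℕ) : ℝ) * (3 / 4) = 1 + 1 / 2 by norm_num, rpow_add hq, rpow_one]
      · rw [show (3 / 4 : ℝ) = 1 + 1 / 2 + -(3 / 4) by norm_num, rpow_add ht', rpow_add ht',
          rpow_one]
        congr 2
        norm_num
    rw [e1, sqrt_mul hq.le]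
    have e2 : √(q : ℝ) * √q = q := mul_self_sqrt hq.le
    have e3 : √t * √t = t := mul_self_sqrt ht'.le
    have e4 : 1 / (1 + q * (1 / ((q : ℝ) ^ 2 * t))) = q * t / (1 + q * t) := by
      field_simp; ring
    rw [e4]
    calc 1 / ((q : ℝ) ^ 2 * t ^ 2) * ((q : ℝ) * √q * (t * √t * t ^ (-(3 / 4 : ℝ))) *
          (q * t / (1 + q * t) * (√q * √t * Th Φ t)))
        = 1 / ((q : ℝ) ^ 2 * t ^ 2) * (q * (√q * √q) * (t * (√t * √t))) *
          (t ^ (-(3 / 4 : ℝ)) * (q * t / (1 + q * t) * Th Φ t)) := by ring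
      _ = _ := by rw [e2, e3]; field_simp
  have h4 : ∫ τ in Set.Ioi 0, τ ^ (-(3 / 4 : ℝ)) * Th Φ τ =
      (∫ τ in Set.Ioi 0, τ ^ (-(3 / 4 : ℝ)) * (q * τ / (1 + q * τ) * Th Φ τ)) +
      ∫ τ in Set.Ioi 0, τ ^ (-(3 / 4 : ℝ)) * (1 / (1 + q * τ) * Th Φ τ) := by
    rw [← integral_add hA hB]
    refine setIntegral_congr_fun measurableSet_Ioi fun t ht => ?_
    have ht' : (0 : ℝ) < t := ht
    have : (0 : ℝ) < 1 + q * t := by positivity
    field_simp
    ring
  linarith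

end Pool.Agent.LRes
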