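import Pool.Agent.P.MP_ea46f5_nt.LRDefs
import Pool.Agent.P.MP_ea46f5_nt.LRTheta

/-!
Gauss sums of products of two Legendre symbols.
-/

namespace Pool.Agent.LRes

open Real Finset NumberTheorySymbols MeasureTheory

/-- The quadratic Gauss sum. -/
noncomputable def gs (p : ℕ) : ℂ :=
  if h : p = 0 then 0 else
    haveI : NeZero p := ⟨h⟩
    ∑ a : ZMod p, (J((a.val : ℤ) | p) : ℂ) * ZMod.stdAddChar a

/-- The class of a prime. -/
noncomputable def cls (p : ℕ) : Bool × Bool :=
  (decide (p % 4 = 1), decide (0 < (gs p).re + (gs p).im))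

section prime

variable {p : ℕ} [Fact p.Prime]

/-- The quadratic character with complex values. -/
noncomputable def qc (p : ℕ) [Fact p.Prime] : MulChar (ZMod p) ℂ :=
  (quadraticChar (ZMod p)).ringHomComp (Int.castRingHom ℂ)

theorem qc_int (m : ℤ) : qc p (m : ZMod p) = (J(m | p) : ℂ) := by
  rw [← jacobiSym.legendreSym.to_jacobiSym]
  simp [qc, legendreSym]

theorem qc_val (a : ZMod p) : qc p a = (J((a.val : ℤ) | p) : ℂ) := by
  rw [← qc_int]; simp

theorem gs_eq : gs p = gaussSum (qc p) ZMod.stdAddChar := by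
  rw [gs, dif_neg (Fact.out : p.Prime).ne_zero, gaussSum]
  exact sum_congr rfl fun a _ => by rw [qc_val]

theorem qc_ne_one (hp : p ≠ 2) : qc p ≠ 1 := by
  have h := quadraticChar_ne_one (F := ZMod p) (by rw [ZMod.ringChar_zmod_n]; exact hp)
  exact (MulChar.ringHomComp_ne_one_iff (RingHom.injective_int _)).2 h

theorem qc_quad : (qc p).IsQuadratic := (quadraticChar_isQuadratic (ZMod p)).comp _

theorem gs_sq (hp : p ≠ 2) : gs p ^ 2 = (ZMod.χ₄ (p : ZMod 4) : ℤ) * p := by
  have hodd : Odd p := (Fact.out : p.Prime).odd_of_ne_two hp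
  rw [gs_eq, gaussSum_sq (χ := qc p) (qc_ne_one hp) qc_quad (ZMod.isPrimitive_stdAddChar p),
    ZMod.card, ← jacobiSym.at_neg_one hodd, ← qc_int]
  simp

theorem gs_shift (hp : p ≠ 2) (m : ℤ) :
    ∑ a : ZMod p, qc p a * ZMod.stdAddChar (a * (m : ZMod p)) = (J(m | p) : ℂ) * gs p := by
  rw [← qc_int, gs_eq]
  by_cases hm : (m : ZMod p) = 0
  · rw [hm]
    simp [MulChar.sum_eq_zero_of_ne_one (qc_ne_one hp), MulChar.map_zero]
  · have h := gaussSum_mulShift_eq (qc p) ZMod.stdAddChar (Units.mk0 _ hm)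
    rw [qc_quad.inv] at h
    simpa [gaussSum, mul_comm] using h

end prime

/-- The character attached to a pair of primes. -/
noncomputable def Phi (x y : ℕ) (a : ZMod (x * y)) : ℝ :=
  (J((a.val : ℤ) | x) : ℝ) * (J((a.val : ℤ) | y) : ℝ)

theorem Phi_int {x y : ℕ} [NeZero (x * y)] (m : ℤ) :
    Phi x y (m : ZMod (x * y)) = (J(m | x) : ℝ) * (J(m | y) : ℝ) := by
  unfold Phi
  rw [ZMod.val_intCast]
  congr 2
  · apply jacobiSym.mod_left'
    exact Int.emod_emod_of_dvd _ (by push_cast; exact dvd_mul_right _ _)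
  · apply jacobiSym.mod_left'
    exact Int.emod_emod_of_dvd _ (by push_cast; exact dvd_mul_left _ _)

theorem gauss_pair {x y : ℕ} [Fact x.Prime] [Fact y.Prime] [NeZero (x * y)] (hx : x ≠ 2)
    (hy : y ≠ 2) (hxy : x ≠ y) (m : ℤ) :
    ∑ a : ZMod (x * y), (Phi x y a : ℂ) *
      Complex.exp (2 * π * Complex.I * ((a.val : ℝ) / (x * y : ℕ) : ℝ) * m) =
      (J(m | x) : ℂ) * J(m | y) * (J(y | x) * J(x | y) * (gs x * gs y)) := by
  have hxp : x.Prime := Fact.out
  have hyp : y.Prime := Fact.out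
  have hx0 : (x : ℂ) ≠ 0 := by exact_mod_cast hxp.ne_zero
  have hy0 : (y : ℂ) ≠ 0 := by exact_mod_cast hyp.ne_zero
  let e : ZMod x × ZMod y → ZMod (x * y) :=
    fun ab => ((ab.1.val * y + ab.2.val * x : ℤ) : ZMod (x * y))
  have hyx : (y : ZMod x) ≠ 0 := by
    rw [Ne, ZMod.natCast_eq_zero_iff, Nat.prime_dvd_prime_iff_eq hxp hyp]; exact hxy
  have hxy' : (x : ZMod y) ≠ 0 := by
    rw [Ne, ZMod.natCast_eq_zero_iff, Nat.prime_dvd_prime_iff_eq hyp hxp]; exact hxy.symm
  have hinj : Function.Injective e := by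
    rintro ⟨a, b⟩ ⟨a', b'⟩ h
    have h1 := congrArg (ZMod.castHom (dvd_mul_right x y) (ZMod x)) h
    have h2 := congrArg (ZMod.castHom (dvd_mul_left y x) (ZMod y)) h
    simp only [e, map_intCast] at h1 h2
    push_cast at h1 h2
    simp only [ZMod.natCast_val, ZMod.cast_id', id_eq, ZMod.natCast_self, mul_zero, add_zero,
      zero_add] at h1 h2
    exact Prod.ext (mul_right_cancel₀ hyx h1) (mul_right_cancel₀ hxy' h2)
  have hbij : Function.Bijective e :=
    (Fintype.bijective_iff_injective_and_card e).2 ⟨hinj, by simp [ZMod.card]⟩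
  have hterm : ∀ a : ZMod (x * y),
      Complex.exp (2 * π * Complex.I * ((a.val : ℝ) / (x * y : ℕ) : ℝ) * m) =
        ZMod.stdAddChar (a * (m : ZMod (x * y))) := by
    intro a
    have : a * (m : ZMod (x * y)) = ((a.val * m : ℤ) : ZMod (x * y)) := by push_cast; simp
    rw [this, ZMod.stdAddChar_coe]
    congr 1
    push_cast
    ring
  simp_rw [hterm]
  rw [← hbij.sum_comp, Fintype.sum_prod_type]
  have h3 : ∀ (a : ZMod x) (b : ZMod y), (Phi x y (e (a, b)) : ℂ) *
      ZMod.stdAddChar (e (a, b) * (m : ZMod (x * y))) =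
      (J(y | x) * J(x | y) : ℂ) * ((qc x a * ZMod.stdAddChar (a * (m : ZMod x))) *
        (qc y b * ZMod.stdAddChar (b * (m : ZMod y)))) := by
    intro a b
    have e1 : e (a, b) * (m : ZMod (x * y)) =
        (((a.val * y + b.val * x) * m : ℤ) : ZMod (x * y)) := by simp [e]
    have e2 : a * (m : ZMod x) = ((a.val * m : ℤ) : ZMod x) := by push_cast; simp
    have e3 : b * (m : ZMod y) = ((b.val * m : ℤ) : ZMod y) := by push_cast; simp
    have e4 : J(a.val * y + b.val * x | x) = J(a.val | x) * J(y | x) := by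
      rw [← jacobiSym.mul_left]
      apply jacobiSym.mod_left'
      simp
    have e5 : J(a.val * y + b.val * x | y) = J(b.val | y) * J(x | y) := by
      rw [← jacobiSym.mul_left]
      apply jacobiSym.mod_left'
      rw [add_comm]
      simp
    rw [e1, e2, e3, ZMod.stdAddChar_coe, ZMod.stdAddChar_coe, ZMod.stdAddChar_coe, qc_val, qc_val]
    simp only [e]
    rw [Phi_int, e4, e5]
    have e6 : Complex.exp (2 * π * Complex.I * (((a.val * y + b.val * x) * m : ℤ) : ℂ) /
        ((x * y : ℕ) : ℂ)) =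
        Complex.exp (2 * π * Complex.I * ((a.val * m : ℤ) : ℂ) / (x : ℂ)) *
          Complex.exp (2 * π * Complex.I * ((b.val * m : ℤ) : ℂ) / (y : ℂ)) := by
      rw [← Complex.exp_add]
      congr 1
      push_cast
      field_simp
    rw [e6]
    push_cast
    ring
  simp_rw [h3, ← mul_sum]
  rw [← sum_mul, gs_shift hx, gs_shift hy]
  ring

theorem root_number {x y : ℕ} [Fact x.Prime] [Fact y.Prime] (hx : x ≠ 2)
    (hy : y ≠ 2) (hxy : x ≠ y) (hc : cls x = cls y) :
    (J(y | x) * J(x | y) * (gs x * gs y) : ℂ) = (√((x * y : ℕ) : ℝ) : ℝ) := by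
  have hxp : x.Prime := Fact.out
  have hyp : y.Prime := Fact.out
  have hox : Odd x := hxp.odd_of_ne_two hx
  have hoy : Odd y := hyp.odd_of_ne_two hy
  have hsx : 0 < √(x : ℝ) := sqrt_pos.2 (by exact_mod_cast hxp.pos)
  have hsy : 0 < √(y : ℝ) := sqrt_pos.2 (by exact_mod_cast hyp.pos)
  have hsq : J(y | x) ^ 2 = 1 := jacobiSym.sq_one (by
    rw [Int.gcd_natCast_natCast]
    exact (Nat.coprime_primes hyp hxp).2 hxy.symm)
  have hsqC : (J(y | x) : ℂ) * J(y | x) = 1 := by rw [← sq]; exact_mod_cast hsq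
  have hmul : √((x * y : ℕ) : ℝ) = √x * √y := by
    push_cast; exact sqrt_mul (by positivity) _
  have h1 := gs_sq hx
  have h2 := gs_sq hy
  simp only [cls, Prod.mk.injEq, decide_eq_decide] at hc
  obtain ⟨hc1, hc2⟩ := hc
  have hX : ((√(x : ℝ) : ℝ) : ℂ) ^ 2 = x := by
    rw [← Complex.ofReal_pow, sq_sqrt (by positivity)]; simp
  have hY : ((√(y : ℝ) : ℝ) : ℂ) ^ 2 = y := by
    rw [← Complex.ofReal_pow, sq_sqrt (by positivity)]; simp
  by_cases h4 : x % 4 = 1
  · have h4' := hc1.1 h4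
    rw [ZMod.χ₄_nat_one_mod_four h4] at h1
    rw [ZMod.χ₄_nat_one_mod_four h4'] at h2
    rw [jacobiSym.quadratic_reciprocity_one_mod_four h4 hoy, hsqC, hmul]
    have a1 : gs x = (√(x : ℝ) : ℝ) ∨ gs x = -(√(x : ℝ) : ℝ) :=
      sq_eq_sq_iff_eq_or_eq_neg.1 (by rw [h1, hX]; simp)
    have a2 : gs y = (√(y : ℝ) : ℝ) ∨ gs y = -(√(y : ℝ) : ℝ) :=
      sq_eq_sq_iff_eq_or_eq_neg.1 (by rw [h2, hY]; simp)
    rcases a1 with a1 | a1 <;> rcases a2 with a2 | a2 <;> rw [a1, a2] at hc2 ⊢
    · push_cast; ring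
    · simp at hc2; exfalso; have := hc2.1 (by simpa using hxp.pos); linarith
    · simp at hc2; exfalso; have := hc2.2 (by simpa using hyp.pos); linarith
    · push_cast; ring
  · have h3 : x % 4 = 3 := by have := Nat.odd_iff.1 hox; omega
    have h3' : y % 4 = 3 := by
      have := Nat.odd_iff.1 hoy
      have : ¬ y % 4 = 1 := fun h => h4 (hc1.2 h)
      omega
    rw [ZMod.χ₄_nat_three_mod_four h3] at h1
    rw [ZMod.χ₄_nat_three_mod_four h3'] at h2
    rw [jacobiSym.quadratic_reciprocity_three_mod_four h3 h3', hmul]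
    have a1 : gs x = (√(x : ℝ) : ℝ) * Complex.I ∨ gs x = -((√(x : ℝ) : ℝ) * Complex.I) :=
      sq_eq_sq_iff_eq_or_eq_neg.1 (by rw [h1, mul_pow, hX]; simp)
    have a2 : gs y = (√(y : ℝ) : ℝ) * Complex.I ∨ gs y = -((√(y : ℝ) : ℝ) * Complex.I) :=
      sq_eq_sq_iff_eq_or_eq_neg.1 (by rw [h2, mul_pow, hY]; simp)
    have hI : Complex.I * Complex.I = -1 := Complex.I_mul_I
    rcases a1 with a1 | a1 <;> rcases a2 with a2 | a2 <;> rw [a1, a2] at hc2 ⊢
    · push_cast
      linear_combination (-(√(x : ℝ) : ℝ) * (√(y : ℝ) : ℝ) * Complex.I * Complex.I) * hsqC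
        - (√(x : ℝ) : ℝ) * (√(y : ℝ) : ℝ) * hI
    · simp at hc2; exfalso; have := hc2.1 (by simpa using hxp.pos); linarith
    · simp at hc2; exfalso; have := hc2.2 (by simpa using hyp.pos); linarith
    · push_cast
      linear_combination (-(√(x : ℝ) : ℝ) * (√(y : ℝ) : ℝ) * Complex.I * Complex.I) * hsqC
        - (√(x : ℝ) : ℝ) * (√(y : ℝ) : ℝ) * hI

theorem kron_pair {x y : ℕ} (hx : Odd x) (hy : Odd y) (hx1 : 1 < x) (h4 : x % 4 = y % 4) (n : ℕ) :
    kron (x * y) n = J(n | x) * J(n | y) := by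
  unfold kron
  split_ifs with hn
  · rw [hn, Nat.cast_zero, jacobiSym.zero_left hx1, zero_mul]
  · have key : ∀ l : List ℕ, (∀ p ∈ l, p.Prime) →
        (l.map fun p => if p = 2 then ZMod.χ₈ ((x * y : ℕ) : ZMod 8)
          else jacobiSym (x * y : ℕ) p).prod = J((l.prod : ℕ) | x) * J((l.prod : ℕ) | y) := by
      intro l hl
      induction l with
      | nil => simp
      | cons p l ih =>
        rw [List.map_cons, List.prod_cons, List.prod_cons, ih fun r hr => hl r (by simp [hr])]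
        have hp := hl p (by simp)
        have : (if p = 2 then ZMod.χ₈ ((x * y : ℕ) : ZMod 8) else jacobiSym (x * y : ℕ) p) =
            J(p | x) * J(p | y) := by
          split_ifs with h2
          · rw [h2, Nat.cast_ofNat, jacobiSym.at_two hx, jacobiSym.at_two hy, Nat.cast_mul, map_mul]
          · have hop : Odd p := hp.odd_of_ne_two h2
            rw [Nat.cast_mul, jacobiSym.mul_left]
            have h1 := Nat.odd_iff.1 hx
            have h1' := Nat.odd_iff.1 hop
            by_cases hx4 : x % 4 = 1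
            · rw [jacobiSym.quadratic_reciprocity_one_mod_four hx4 hop,
                jacobiSym.quadratic_reciprocity_one_mod_four (h4 ▸ hx4) hop]
            · have hx3 : x % 4 = 3 := by omega
              by_cases hp4 : p % 4 = 1
              · rw [jacobiSym.quadratic_reciprocity_one_mod_four' hx hp4,
                  jacobiSym.quadratic_reciprocity_one_mod_four' hy hp4]
              · have hp3 : p % 4 = 3 := by omega
                rw [jacobiSym.quadratic_reciprocity_three_mod_four hx3 hp3,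
                  jacobiSym.quadratic_reciprocity_three_mod_four (h4 ▸ hx3) hp3]
                ring
        rw [this, Nat.cast_mul, jacobiSym.mul_left, jacobiSym.mul_left]
        ring
    rw [key _ fun p hp => Nat.prime_of_mem_primeFactorsList hp, Nat.prod_primeFactorsList hn]

theorem mod_four_of_cls {x y : ℕ} (hx : Odd x) (hy : Odd y) (hc : cls x = cls y) :
    x % 4 = y % 4 := by
  simp only [cls, Prod.mk.injEq, decide_eq_decide] at hc
  have := hc.1
  have := Nat.odd_iff.1 hx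
  have := Nat.odd_iff.1 hy
  omega

theorem isFund_pair {x y : ℕ} (hxp : x.Prime) (hyp : y.Prime) (hx : x ≠ 2) (hy : y ≠ 2)
    (hxy : x ≠ y) (hc : cls x = cls y) : IsFund (x * y) := by
  have hox := hxp.odd_of_ne_two hx
  have hoy := hyp.odd_of_ne_two hy
  have h4 := mod_four_of_cls hox hoy hc
  refine ⟨Nat.one_lt_mul_iff.2 ⟨hxp.pos, hyp.pos, Or.inl hxp.one_lt⟩, Or.inl ⟨?_, ?_⟩⟩
  · have := Nat.odd_iff.1 hox
    rw [Nat.mul_mod, ← h4]
    have : x % 4 = 1 ∨ x % 4 = 3 := by omega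
    rcases this with h | h <;> rw [h]
  · rw [Nat.squarefree_mul ((Nat.coprime_primes hxp hyp).2 hxy)]
    exact ⟨hxp.prime.squarefree, hyp.prime.squarefree⟩

/-- The analytic input for a pair of primes of one class. -/
theorem pair_formula {x y : ℕ} (hxp : x.Prime) (hyp : y.Prime) (hx : x ≠ 2) (hy : y ≠ 2)
    (hxy : x ≠ y) (hc : cls x = cls y) : ∃ T : ℝ → ℝ,
    (∀ τ, 0 < τ → HasSum (fun m : ℤ => (J(m | x) : ℝ) * J(m | y) * exp (-π * (m : ℝ) ^ 2 * τ))
      (T τ)) ∧
    IntegrableOn (fun τ => τ ^ (-(3 / 4 : ℝ)) * (x * y * τ / (1 + x * y * τ) * T τ))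
      (Set.Ioi 0) ∧
    ∫ τ in Set.Ioi 0, τ ^ (-(3 / 4 : ℝ)) * (x * y * τ / (1 + x * y * τ) * T τ) =
      c0 * Lhalf (x * y) := by
  have := Fact.mk hxp
  have := Fact.mk hyp
  have h0 : x * y ≠ 0 := mul_ne_zero hxp.ne_zero hyp.ne_zero
  have : NeZero (x * y) := ⟨h0⟩
  have hox := hxp.odd_of_ne_two hx
  have hoy := hyp.odd_of_ne_two hy
  have h4 := mod_four_of_cls hox hoy hc
  have hd : SelfDual (Phi x y) := by
    intro m
    rw [gauss_pair hx hy hxy, root_number hx hy hxy hc, Phi_int]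
    push_cast
    ring
  have hz : Phi x y 0 = 0 := by
    have := Phi_int (x := x) (y := y) 0
    simpa [jacobiSym.zero_left hxp.one_lt] using this
  have hs : ∑ a, Phi x y a = 0 := by
    have := hd 0
    simp only [Int.cast_zero, mul_zero, Complex.exp_zero, mul_one, hz] at this
    exact_mod_cast this
  have he : ∀ a, Phi x y (-a) = Phi x y a := by
    intro a
    obtain ⟨m, rfl⟩ := ZMod.intCast_surjective a
    rw [← Int.cast_neg, Phi_int, Phi_int, jacobiSym.neg _ hox, jacobiSym.neg _ hoy]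
    have : ZMod.χ₄ (x : ZMod 4) * ZMod.χ₄ (y : ZMod 4) = 1 := by
      have := Nat.odd_iff.1 hox
      have : x % 4 = 1 ∨ x % 4 = 3 := by omega
      rcases this with h | h
      · rw [ZMod.χ₄_nat_one_mod_four h, ZMod.χ₄_nat_one_mod_four (h4 ▸ h)]; rfl
      · rw [ZMod.χ₄_nat_three_mod_four h, ZMod.χ₄_nat_three_mod_four (h4 ▸ h)]; rfl
    have h5 : ((ZMod.χ₄ (x : ZMod 4) : ℤ) : ℝ) * (ZMod.χ₄ (y : ZMod 4) : ℤ) = 1 := by
      exact_mod_cast this
    push_cast
    linear_combination (J(m | x) : ℝ) * J(m | y) * h5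
  obtain ⟨h1, h2⟩ := balanced he hz hs hd
  refine ⟨Th (Phi x y), fun τ hτ => ?_, ?_, ?_⟩
  · simpa only [Phi_int] using hasSum_Th (Phi x y) hτ
  · simpa only [Nat.cast_mul] using h1
  · rw [Lhalf, dif_neg h0]
    have : (fun a : ZMod (x * y) => (kron (x * y) a.val : ℂ)) = fun a => (Phi x y a : ℂ) := by
      funext a
      rw [kron_pair hox hoy hxp.one_lt h4, Phi]
      push_cast; rfl
    rw [this, ← h2]
    simp only [Nat.cast_mul]

end Pool.Agent.LRes
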