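import Pool.Agent.P.MP_ea46f5_nt.LRAsy

/-!
Assembly.
-/

namespace Pool.Agent.LRes

open Real Finset Filter

theorem pairs_le {D T : Finset ℕ} (hD : ∀ x ∈ D, x.Prime)
    (hT : ∀ x ∈ D, ∀ y ∈ D, x ≠ y → x * y ∈ T) (g : ℕ → ℝ) (hg : ∀ d, 0 ≤ g d) :
    ∑ x ∈ D, ∑ y ∈ D.erase x, g (x * y) ≤ 2 * ∑ d ∈ T, g d := by
  have h1 : ∑ x ∈ D, ∑ y ∈ D, (if x < y then g (x * y) else 0) ≤ ∑ d ∈ T, g d := by
    rw [← sum_product' (f := fun x y => if x < y then g (x * y) else 0), ← sum_filter,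
      ← sum_image (g := fun p : ℕ × ℕ => p.1 * p.2) (f := g)]
    · refine sum_le_sum_of_subset_of_nonneg (fun d hd => ?_) fun d _ _ => hg d
      obtain ⟨p, hp, rfl⟩ := mem_image.1 hd
      obtain ⟨hp1, hp2⟩ := mem_filter.1 hp
      exact hT _ (mem_product.1 hp1).1 _ (mem_product.1 hp1).2 hp2.ne
    · rintro ⟨x, y⟩ hp ⟨x', y'⟩ hp' h
      obtain ⟨hp1, hp2⟩ := mem_filter.1 (mem_coe.1 hp)
      obtain ⟨hp1', hp2'⟩ := mem_filter.1 (mem_coe.1 hp')
      have hx := hD x (mem_product.1 hp1).1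
      have hx' := hD x' (mem_product.1 hp1').1
      have hy' := hD y' (mem_product.1 hp1').2
      simp only at h hp2 hp2'
      rcases (hx.dvd_mul).1 (h ▸ dvd_mul_right x y) with h1 | h1
      · obtain rfl := (Nat.prime_dvd_prime_iff_eq hx hx').1 h1
        rw [Nat.eq_of_mul_eq_mul_left hx.pos h]
      · obtain rfl := (Nat.prime_dvd_prime_iff_eq hx hy').1 h1
        rw [mul_comm x'] at h
        have := Nat.eq_of_mul_eq_mul_left hx.pos h
        omega
  have h2 : ∑ x ∈ D, ∑ y ∈ D, (if y < x then g (x * y) else 0) ≤ ∑ d ∈ T, g d := by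
    rw [sum_comm]
    simpa only [mul_comm] using h1
  calc ∑ x ∈ D, ∑ y ∈ D.erase x, g (x * y)
      ≤ ∑ x ∈ D, ∑ y ∈ D, ((if x < y then g (x * y) else 0) +
          if y < x then g (x * y) else 0) := by
        refine sum_le_sum fun x _ => le_trans (sum_le_sum fun y hy => ?_)
          (sum_le_sum_of_subset_of_nonneg (erase_subset x D) fun y _ _ => ?_)
        · rcases lt_or_gt_of_ne (ne_of_mem_erase hy) with h | h
          · simp [h, h.not_gt]
          · simp [h, h.not_gt]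
        · have := hg (x * y)
          split_ifs <;> linarith
    _ ≤ _ := by
        simp_rw [sum_add_distrib]
        linarith

theorem family : ∀ᶠ X : ℝ in atTop, ∃ D : Finset ℕ,
    (∀ x ∈ D, x.Prime ∧ √X / 4 < x ∧ (x : ℝ) ≤ 4 * (√X / 4)) ∧ (∀ x ∈ D, ∀ y ∈ D, cls x = cls y) ∧
    √X / (32 * log X) ≤ D.card := by
  have t1 : Tendsto (fun X : ℝ => √X / 4) atTop atTop :=
    tendsto_sqrt_atTop.atTop_div_const (by norm_num)
  filter_upwards [t1.eventually many_primes, t1.eventually_ge_atTop 2, eventually_ge_atTop 1]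
    with X h1 h2 h3
  set Y := √X / 4 with hY
  obtain ⟨c, -, hc⟩ := exists_le_card_fiber_of_nsmul_le_card_of_maps_to
    (s := (Ioc ⌊Y⌋₊ ⌊4 * Y⌋₊).filter Nat.Prime) (t := univ) (f := cls) (b := Y / (8 * log Y))
    (fun _ _ => mem_univ _) univ_nonempty (by
      refine le_trans (le_of_eq ?_) h1
      simp; ring)
  refine ⟨_, fun x hx => ?_, fun x hx y hy => ?_, le_trans ?_ hc⟩
  · obtain ⟨h4, h5⟩ := mem_filter.1 (mem_filter.1 hx).1
    exact ⟨h5, (Nat.floor_lt (by linarith)).1 (mem_Ioc.1 h4).1,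
      (Nat.le_floor_iff (by linarith)).1 (mem_Ioc.1 h4).2⟩
  · rw [(mem_filter.1 hx).2, (mem_filter.1 hy).2]
  · have h4 : 0 < log Y := log_pos (by linarith)
    have h5 : √X ≤ X := by
      rw [sqrt_le_left (by linarith)]; nlinarith
    have h6 : log Y ≤ log X := log_le_log (by linarith) (by linarith)
    have : √X / (32 * log X) = Y / (8 * log X) := by rw [hY]; ring
    rw [this]
    gcongr

theorem tendsto_G : Tendsto (fun a : ℝ => √(exp a * log a / a)) atTop atTop := by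
  refine tendsto_sqrt_atTop.comp (tendsto_atTop_mono' _ ?_ (tendsto_exp_div_pow_atTop 1))
  filter_upwards [eventually_ge_atTop 3] with a ha
  have hb : 1 ≤ log a := by
    rw [le_log_iff_exp_le (by linarith)]
    linarith [exp_one_lt_d9]
  rw [pow_one]
  exact div_le_div_of_nonneg_right (le_mul_of_one_le_right (exp_pos _).le hb) (by linarith)

theorem moments {ε : ℝ} (hε : 0 < ε) : ∃ N₀ : ℝ, ∀ X N : ℝ, 1 ≤ X → N₀ ≤ N →
    N ≤ X ^ (1 / 4 - ε) → ∀ k : ℕ, 1 ≤ k →
      X / (N * log X ^ 3) * exp ((2 - ε) * k * √(log N * log (log (log N)) / log (log N))) ≤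
        ∑ d ∈ (SPlus X).filter (fun d : ℕ => X / 16 < d), max (Lhalf d) 0 ^ k := by
  set δ := min (ε / 28) (1 / 10) with hδd
  have hδ : 0 < δ := lt_min (by positivity) (by norm_num)
  have hδ1 : δ ≤ 1 / 10 := min_le_right _ _
  have hδ2 : δ ≤ ε / 28 := min_le_left _ _
  have hc0 := c0_pos
  have hc1 := c1_pos
  have tl : Tendsto (fun N : ℝ => log (log N)) atTop atTop :=
    tendsto_log_atTop.comp tendsto_log_atTop
  have t1 := tendsto_exp_atTop.comp (tendsto_G.const_mul_atTop (by positivity : 0 < ε / 2))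
  have t2 := tendsto_exp_atTop.comp (tendsto_G.const_mul_atTop
    (by linarith : 0 < 2 * (1 - 7 * δ)))
  obtain ⟨N₁, hN₁⟩ := eventually_atTop.1 ((tl.eventually ((gcd_final hδ hδ1).and
    ((t1.eventually_ge_atTop (64 * c0 / (c1 * δ))).and (t2.eventually_ge_atTop (8 / δ))))).and
    (eventually_gt_atTop 3))
  obtain ⟨X₁, hX₁⟩ := eventually_atTop.1 (family.and
    (((isLittleO_log_rpow_atTop hε).bound (c := c1 / 49152) (by positivity)).and
    ((tendsto_log_atTop.eventually_ge_atTop 65536).and (eventually_ge_atTop 256))))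
  refine ⟨max N₁ X₁, fun X N hX hN hNX k hk => ?_⟩
  obtain ⟨⟨⟨P, hP, M, ρ, hM, hρ, hcard, hper⟩, e1, e2⟩, hN3⟩ := hN₁ N ((le_max_left _ _).trans hN)
  have hX0 : 0 < X := by linarith
  have hN0 : 0 < N := by linarith
  have hNX1 : N ≤ X ^ (1 / 4 : ℝ) := hNX.trans (rpow_le_rpow_of_exponent_le hX (by linarith))
  have hNX2 : N ≤ X := hNX1.trans (by
    simpa using rpow_le_rpow_of_exponent_le hX (by norm_num : (1 / 4 : ℝ) ≤ 1))
  obtain ⟨⟨D, hD, hcl, hDc⟩, f1, f2, f3⟩ := hX₁ X (((le_max_right _ _).trans hN).trans hNX2)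
  have hlN : 0 < log N := log_pos (by linarith)
  simp only [Function.comp, exp_log hlN, exp_log hN0] at hP hcard hper e1 e2
  set G := √(log N * log (log (log N)) / log (log N)) with hG
  have hG0 : 0 ≤ G := sqrt_nonneg _
  set w := X ^ (1 / 4 : ℝ) with hw
  have hw4 : 4 ≤ w := by
    have : (256 : ℝ) ^ (1 / 4 : ℝ) = 4 := by
      rw [show (256 : ℝ) = 4 ^ (4 : ℝ) by norm_num, ← rpow_mul (by norm_num)]; norm_num
    rw [← this]
    exact rpow_le_rpow (by norm_num) f3 (by norm_num)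
  have hww : √X = w * w := by
    rw [hw, ← rpow_add hX0, sqrt_eq_rpow]; norm_num
  have hNY : N ≤ √X / 4 := by rw [hww]; nlinarith
  have hlX : 0 < log X := by linarith
  have hbig : 3072 * N * √(√X / 4) ≤ c1 * D.card := by
    have h1 : √(√X / 4) = w / 2 := by
      rw [hww, show w * w / 4 = (w / 2) ^ 2 by ring, sqrt_sq (by linarith)]
    rw [norm_eq_abs, norm_eq_abs, abs_of_pos hlX, abs_of_pos (rpow_pos_of_pos hX0 _)] at f1
    have h2 : N * X ^ ε ≤ w := by
      calc N * X ^ ε ≤ X ^ (1 / 4 - ε) * X ^ ε := by gcongr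
        _ = w := by rw [← rpow_add hX0, hw]; norm_num
    refine le_trans ?_ (mul_le_mul_of_nonneg_left hDc hc1.le)
    rw [h1, hww, ← mul_div_assoc c1, le_div_iff₀ (by positivity)]
    calc 3072 * N * (w / 2) * (32 * log X) = 49152 * w * (N * log X) := by ring
      _ ≤ 49152 * w * (N * (c1 / 49152 * X ^ ε)) := by gcongr
      _ = c1 * (w * (N * X ^ ε)) := by ring
      _ ≤ _ := by gcongr
  obtain ⟨k, rfl⟩ : ∃ j, k = j + 1 := ⟨k - 1, by omega⟩
  have hY2 : 2 ≤ √X / 4 := by linarith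
  have key := core (l := fun i : P => (i : ℕ)) (fun i => (hP i i.2).1) Subtype.val_injective hY2
    (fun i => (hP i i.2).2.trans hNY) hD hcl hM hρ hcard hNY
    (by rw [div_le_iff₀ hδ] at e2; linarith) hper hbig k
  have hsq : √X * √X = X := mul_self_sqrt hX0.le
  have h2 := pairs_le (T := (SPlus X).filter (fun d : ℕ => X / 16 < d)) (fun x hx => (hD x hx).1)
    (fun x hx y hy hxy => by
      obtain ⟨x1, x2, x3⟩ := hD x hx
      obtain ⟨y1, y2, y3⟩ := hD y hy
      have hne : ∀ z : ℕ, √X / 4 < z → z ≠ 2 := fun z hz h => by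
        rw [h] at hz; push_cast at hz; linarith
      refine mem_filter.2 ⟨?_, by push_cast; nlinarith⟩
      classical
      unfold SPlus
      refine mem_filter.2 ⟨mem_range.2 (Nat.lt_ceil.2 ?_),
        isFund_pair x1 y1 (hne x x2) (hne y y2) hxy (hcl x hx y hy)⟩
      push_cast
      rcases lt_or_gt_of_ne hxy with h | h
      · have : (x : ℝ) < y := by exact_mod_cast h
        nlinarith
      · have : (y : ℝ) < x := by exact_mod_cast h
        nlinarith)
    (fun d => max (Lhalf d) 0 ^ (k + 1)) fun d => by positivity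
  have h3 : exp ((2 - ε) * G) ≤ c1 * (δ / 8 * exp (2 * (1 - 7 * δ) * G)) / (8 * c0) := by
    have h4 : exp ((2 - ε) * G) * exp (ε / 2 * G) ≤ exp (2 * (1 - 7 * δ) * G) := by
      rw [← exp_add]
      exact exp_le_exp.2 (by nlinarith)
    rw [div_le_iff₀ (by positivity)] at e1
    rw [le_div_iff₀ (by positivity)]
    calc exp ((2 - ε) * G) * (8 * c0) = exp ((2 - ε) * G) * (64 * c0) / 8 := by ring
      _ ≤ exp ((2 - ε) * G) * (exp (ε / 2 * G) * (c1 * δ)) / 8 := by gcongr
      _ = c1 * (δ / 8 * (exp ((2 - ε) * G) * exp (ε / 2 * G))) := by ring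
      _ ≤ _ := by gcongr
  have h4 : 2 * (X / (N * log X ^ 3)) ≤ D.card ^ 2 / (32 * N) := by
    calc 2 * (X / (N * log X ^ 3)) = 2 * X / (N * log X ^ 2 * log X) := by ring
      _ ≤ 2 * X / (N * log X ^ 2 * 65536) := by gcongr
      _ = (√X / (32 * log X)) ^ 2 / (32 * N) := by
          rw [div_pow, sq_sqrt hX0.le]; field_simp; norm_num
      _ ≤ _ := by gcongr
  have h5 : exp ((2 - ε) * ((k + 1 : ℕ) : ℝ) * G) = exp ((2 - ε) * G) ^ (k + 1) := by
    rw [← exp_nat_mul]; congr 1; ring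
  rw [h5]
  have h6 : exp ((2 - ε) * G) ^ (k + 1) * (2 * (X / (N * log X ^ 3))) ≤
      (c1 * (δ / 8 * exp (2 * (1 - 7 * δ) * G)) / (8 * c0)) ^ (k + 1) *
        (D.card ^ 2 / (32 * N)) := by gcongr
  linarith

theorem even_le (X : ℝ) {k : ℕ} (hk : Even k) :
    ∑ d ∈ (SPlus X).filter (fun d : ℕ => X / 16 < d), max (Lhalf d) 0 ^ k ≤
      ∑ d ∈ SPlus X, Lhalf d ^ k := by
  refine le_trans (sum_le_sum fun d _ => ?_)
    (sum_le_sum_of_subset_of_nonneg (filter_subset _ _) fun d _ _ => hk.pow_nonneg _)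
  rw [← hk.pow_abs (Lhalf d)]
  exact pow_le_pow_left₀ (le_max_right _ _) (max_le (le_abs_self _) (abs_nonneg _)) _

theorem extreme {ε : ℝ} (hε : 0 < ε) : ∀ᶠ X : ℝ in atTop, ∃ d ∈ SPlus X, X / 16 < d ∧
    exp ((1 - ε) * √(log X * log (log (log X)) / log (log X))) ≤ Lhalf d := by
  set η := min ε 1 / 7 with hηd
  have hη : 0 < η := by have := lt_min hε one_pos; positivity
  have hη1 : η ≤ 1 / 7 := by have := min_le_right ε 1; linarith
  have hη2 : 7 * η ≤ ε := by have := min_le_left ε 1; linarith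
  obtain ⟨N₀, hN₀⟩ := moments hη
  set θ := 1 / 4 - η with hθ
  have hθ0 : 1 / 10 ≤ θ := by linarith
  have tl : Tendsto (fun X : ℝ => log (log X)) atTop atTop :=
    tendsto_log_atTop.comp tendsto_log_atTop
  filter_upwards [(tendsto_rpow_atTop (by linarith : 0 < θ)).eventually_ge_atTop N₀,
    eventually_gt_atTop 1, tl.eventually_ge_atTop (-2 * log θ), tl.eventually_ge_atTop 1,
    (tendsto_log_atTop.comp tl).eventually_ge_atTop (1 / η)] with X h1 h2 h3 h4 h5
  have hX0 : 0 < X := by linarith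
  have hl : 0 < log X := log_pos h2
  have key := hN₀ X (X ^ θ) h2.le h1 le_rfl
  rw [log_rpow hX0, log_mul (by linarith) hl.ne'] at key
  simp only [Function.comp] at h5
  set a := log (log X) with ha
  have hlθ : log θ ≤ 0 := log_nonpos (by linarith) (by linarith)
  have h6 : (1 - η) * log a ≤ log (log θ + a) := by
    have h7 : log (a / 2) ≤ log (log θ + a) := log_le_log (by linarith) (by linarith)
    rw [log_div (by linarith) (by norm_num)] at h7
    have := (div_le_iff₀ hη).1 h5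
    linarith [log_two_lt_d9]
  have hla : 0 < log a := lt_of_lt_of_le (by positivity) h5
  set G := √(log X * log a / a) with hG
  set G' := √(θ * log X * log (log θ + a) / (log θ + a)) with hG'
  have hG0 : 0 < G := sqrt_pos.2 (by positivity)
  have h7 : (1 - ε) * G < (2 - η) * G' := by
    have h8 : θ * (1 - η) * G ^ 2 ≤ G' ^ 2 := by
      have h9 : 0 ≤ (1 - η) * log a := mul_nonneg (by linarith) hla.le
      rw [hG, hG', sq_sqrt (by positivity),
        sq_sqrt (div_nonneg (mul_nonneg (by positivity) (h9.trans h6)) (by linarith))]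
      calc θ * (1 - η) * (log X * log a / a) = θ * log X * ((1 - η) * log a) / a := by ring
        _ ≤ θ * log X * log (log θ + a) / a := by gcongr
        _ ≤ _ := div_le_div_of_nonneg_left (mul_nonneg (by positivity) (h9.trans h6))
            (by linarith) (by linarith)
    refine lt_of_le_of_lt (mul_le_mul_of_nonneg_right (by linarith : 1 - ε ≤ 1 - 7 * η) hG0.le) ?_
    refine lt_of_pow_lt_pow_left₀ 2 (mul_nonneg (by linarith) (sqrt_nonneg _)) ?_
    have h9 : (1 - 7 * η) ^ 2 < (2 - η) ^ 2 * (θ * (1 - η)) := by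
      rw [hθ]
      have h10 : 1 - 6 * η ≤ (2 - η) ^ 2 * ((1 / 4 - η) * (1 - η)) := by
        have h11 : 4 * (1 - η) ≤ (2 - η) ^ 2 := by nlinarith
        have h12 : (1 - 5 * η) / 4 ≤ (1 / 4 - η) * (1 - η) := by nlinarith
        calc 1 - 6 * η ≤ 4 * (1 - η) * ((1 - 5 * η) / 4) := by nlinarith
          _ ≤ _ := mul_le_mul h11 h12 (by linarith) (sq_nonneg _)
      nlinarith
    calc ((1 - 7 * η) * G) ^ 2 = (1 - 7 * η) ^ 2 * G ^ 2 := by ring
      _ < (2 - η) ^ 2 * (θ * (1 - η)) * G ^ 2 := by gcongr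
      _ = (2 - η) ^ 2 * (θ * (1 - η) * G ^ 2) := by ring
      _ ≤ (2 - η) ^ 2 * G' ^ 2 := by gcongr
      _ = _ := by ring
  by_contra hcon
  push Not at hcon
  set T := (SPlus X).filter (fun d : ℕ => X / 16 < d) with hT
  have hc : 0 < X / (X ^ θ * log X ^ 3) := by positivity
  have h8 := (tendsto_exp_atTop.comp ((tendsto_natCast_atTop_atTop (R := ℝ)).atTop_mul_const
    (sub_pos.2 h7))).eventually_gt_atTop (T.card / (X / (X ^ θ * log X ^ 3)))
  obtain ⟨k, hk1, hk2⟩ := (h8.and (eventually_ge_atTop 1)).exists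
  have h9 : ∑ d ∈ T, max (Lhalf d) 0 ^ k ≤ T.card * exp (k * ((1 - ε) * G)) := by
    rw [← nsmul_eq_mul, exp_nat_mul]
    refine sum_le_card_nsmul _ _ _ fun d hd => ?_
    obtain ⟨hd1, hd2⟩ := mem_filter.1 hd
    exact pow_le_pow_left₀ (le_max_right _ _) (max_le (hcon d hd1 hd2).le (exp_pos _).le) _
  have h10 := (key k hk2).trans h9
  simp only [Function.comp] at hk1
  rw [div_lt_iff₀ hc] at hk1
  have h11 : exp ((2 - η) * k * G') =
      exp (k * ((2 - η) * G' - (1 - ε) * G)) * exp (k * ((1 - ε) * G)) := by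
    rw [← exp_add]; congr 1; ring
  rw [h11] at h10
  nlinarith [mul_lt_mul_of_pos_right hk1 (exp_pos (k * ((1 - ε) * G)))]

end Pool.Agent.LRes
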