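import Pool.Agent.P.MP_ea46f5_nt.Three

set_option autoImplicit false

/-! Assembly. -/

namespace Pool.Agent.KMom

open MeasureTheory Real Finset Matrix

variable {N k : ℕ} {α β : ℕ → ℝ}

variable (N k α β) in
/-- The `k`-th difference of the tilted densities. -/
noncomputable def F0 (θ : Fin N → ℝ) : ℝ := Dk k fun s => Fh N (fun n => α n + s * β n) θ

theorem mem_Icc_of_range {s : ℕ} (hs : s ∈ range (k + 1)) : (s : ℝ) ∈ Set.Icc (0 : ℝ) k :=
  ⟨by positivity, by exact_mod_cast Nat.lt_succ_iff.1 (mem_range.1 hs)⟩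

theorem cont_F0 (hS : ∀ s ∈ Set.Icc (0 : ℝ) k, Small N fun n => α n + s * β n) :
    Continuous (F0 N k α β) :=
  continuous_finsetSum _ fun _ hs => continuous_const.mul (hS _ (mem_Icc_of_range hs)).cont_Fh

theorem F0_symm (σ : Equiv.Perm (Fin N)) (θ : Fin N → ℝ) : F0 N k α β (θ ∘ σ) = F0 N k α β θ := by
  have e : ∀ h, Fh N h (θ ∘ σ) = Fh N h θ := fun h => by
    rw [Fh, Fh, ← Equiv.prod_comp σ fun i => psi N h (θ i)]
    rfl
  simp only [F0, e]

theorem abs_F0 {K : ℝ} (θ : Fin N → ℝ)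
    (hK : ∀ s ∈ Set.Icc (0 : ℝ) k, |Fh N (fun n => α n + s * β n) θ| ≤ K) :
    |F0 N k α β θ| ≤ 2 ^ k * K := by
  rw [F0, Dk]
  refine (abs_sum_le_sum_abs _ _).trans ?_
  have e : (2 : ℝ) ^ k = ∑ s ∈ range (k + 1), (k.choose s : ℝ) := by
    exact_mod_cast (Nat.sum_range_choose k).symm
  rw [e, sum_mul]
  refine sum_le_sum fun s hs => ?_
  rw [abs_mul, abs_mul, abs_pow, abs_neg, abs_one, one_pow, one_mul, Nat.abs_cast]
  gcongr
  exact hK _ (mem_Icc_of_range hs)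

theorem IN_F0 (hS : ∀ s ∈ Set.Icc (0 : ℝ) k, Small N fun n => α n + s * β n)
    {g : (Fin N → ℝ) → ℝ} (hg : Continuous g) :
    IN N (fun θ => F0 N k α β θ * g θ * weyl θ) =
      Dk k fun s => IN N fun θ => Fh N (fun n => α n + s * β n) θ * g θ * weyl θ := by
  have c := @cont_weyl N
  simp only [F0, Dk, sum_mul, mul_assoc]
  rw [IN_sum _ fun s hs => by
    have := (hS _ (mem_Icc_of_range hs)).cont_Fh
    fun_prop]
  simp only [IN_smul]

theorem orth_F0 {J : ℕ} (hS : ∀ s ∈ Set.Icc (0 : ℝ) k, Small N fun n => α n + s * β n)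
    (hβ : ∀ n, n < J → β n = 0) (P : MvPolynomial (Fin N) ℝ) (hP : P.totalDegree < k * J) :
    IN N (fun θ => F0 N k α β θ * MvPolynomial.eval (fun i => cos (θ i)) P * weyl θ) = 0 := by
  have c := @cont_weyl N
  have c2 := cont_F0 hS
  have e : (fun θ => F0 N k α β θ * MvPolynomial.eval (fun i => cos (θ i)) P * weyl θ) =
      fun θ => ∑ d ∈ P.support, P.coeff d * (F0 N k α β θ * (∏ i, cos (θ i) ^ d i) * weyl θ) := by
    funext θ
    rw [MvPolynomial.eval_eq', mul_sum, sum_mul]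
    exact sum_congr rfl fun d _ => by ring
  rw [e, IN_sum _ fun d _ => by fun_prop]
  refine sum_eq_zero fun d hd => ?_
  rw [IN_smul, IN_F0 hS (by fun_prop), (pd_mono hS hβ d).Dk_zero, mul_zero]
  have h1 := MvPolynomial.le_totalDegree hd
  rw [Finsupp.sum_fintype _ _ fun _ => rfl] at h1
  exact_mod_cast h1.trans_lt hP

theorem Dk_smul (c : ℝ) (g : ℝ → ℝ) : Dk k (fun s => c * g s) = c * Dk k g := by
  simp only [Dk, mul_sum]
  exact sum_congr rfl fun s _ => by ring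

theorem corr_F0 (hS : ∀ s ∈ Set.Icc (0 : ℝ) k, Small N fun n => α n + s * β n) :
    (Ym N k).det * IN N (fun θ => F0 N k α β θ * Z θ ^ k * weyl θ) =
      IN N (fun θ => Z θ ^ k * weyl θ) * (k.factorial * (of fun l r : Fin k =>
        ∑ n ∈ Icc 1 N, β n * (((N : ℝ) - n + 1) + l.val) ^ (2 * r.val + 1)).det) := by
  have c := @cont_Z N
  set B : Matrix (Fin k) (Fin k) ℝ := of fun l r : Fin k =>
    ∑ n ∈ Icc 1 N, β n * (((N : ℝ) - n + 1) + l.val) ^ (2 * r.val + 1) with hB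
  set p := ((Polynomial.X : Polynomial ℝ) • B.map Polynomial.C + (Wm N α k).map Polynomial.C).det
    with hp
  have h1 : ∀ s : ℝ, (Wm N (fun n => α n + s * β n) k).det = p.eval s := by
    intro s
    have := (Polynomial.evalRingHom s).map_det
      ((Polynomial.X : Polynomial ℝ) • B.map Polynomial.C + (Wm N α k).map Polynomial.C)
    rw [Polynomial.coe_evalRingHom] at this
    rw [hp, this]
    congr 1
    ext l r
    simp only [Wm, hB, of_apply, RingHom.mapMatrix_apply, map_apply, Matrix.add_apply,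
      Matrix.smul_apply, smul_eq_mul, Polynomial.coe_evalRingHom, Polynomial.eval_add,
      Polynomial.eval_mul, Polynomial.eval_X, Polynomial.eval_C, add_mul, sum_add_distrib, mul_sum]
    have e : ∑ n ∈ Icc 1 N, s * β n * ((N : ℝ) + l.val - n + 1) ^ (2 * r.val + 1) =
        ∑ n ∈ Icc 1 N, s * (β n * ((N : ℝ) - n + 1 + l.val) ^ (2 * r.val + 1)) := by
      refine sum_congr rfl fun n _ => ?_
      rw [show (N : ℝ) + l.val - n + 1 = N - n + 1 + l.val by ring]
      ring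
    rw [e]
    ring
  have h2 := Polynomial.natDegree_det_X_add_C_le B (Wm N α k)
  have h3 := Polynomial.coeff_det_X_add_C_card B (Wm N α k)
  rw [Fintype.card_fin, ← hp] at h2 h3
  rw [IN_F0 hS (by fun_prop), ← Dk_smul, ← h3, ← Dk_poly k p h2, ← Dk_smul]
  refine Dk_congr fun s hs => ?_
  rw [mul_comm, (hS s hs).ratio, h1]

theorem exists_F (k : ℕ) (hk : 1 ≤ k) (δ : ℝ) (hδ : 0 < δ) : ∃ c : ℝ, 0 < c ∧ ∃ N₀ : ℕ, ∀ N, N₀ ≤ N →
    ∃ F : (Fin N → ℝ) → ℝ, Continuous F ∧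
      (∀ (σ : Equiv.Perm (Fin N)) (θ : Fin N → ℝ), F (θ ∘ σ) = F θ) ∧ (∀ θ, |F θ| ≤ 1 / 2) ∧
      (∀ P : MvPolynomial (Fin N) ℝ, P.totalDegree = 0 ∨ (P.totalDegree : ℝ) ≤ (k - δ) * N →
        IN N (fun θ => F θ * MvPolynomial.eval (fun i => cos (θ i)) P * weyl θ) = 0) ∧
      c * IN N (fun θ => Z θ ^ k * weyl θ) ≤ IN N (fun θ => F θ * Z θ ^ k * weyl θ) := by
  obtain ⟨ρ, d, hρ, hd, hn⟩ := near k
  obtain ⟨a, ha⟩ := exists_nat_gt (3 / ρ)
  have ha' : 3 < ρ * a := by rwa [div_lt_iff₀' hρ] at ha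
  have ha1 : 1 ≤ a := by
    rcases a with _ | a
    · simp at ha'
      linarith
    · omega
  obtain ⟨R₀, hR₀⟩ := exists_nat_gt (k * (a + 2) / δ)
  set R := R₀ + a + 3 with hR
  have hk' : (0 : ℝ) < k := by exact_mod_cast hk
  have hRδ : (k : ℝ) * (a + 2) < δ * R := by
    rw [div_lt_iff₀' hδ] at hR₀
    have : (R₀ : ℝ) ≤ R := by exact_mod_cast (by omega)
    nlinarith
  have hR' : (0 : ℝ) < R := by positivity
  set K : ℝ := 2 * (2 ^ k * exp (6 * (2 * R) + 8 * (2 * R) ^ 2)) with hK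
  have hK0 : 0 < K := by positivity
  have hW := Wt_pos k (show (0 : ℝ) < 1 / (2 * R) by positivity)
  refine ⟨k.factorial * (1 / (4 * k)) ^ k * Wt k (1 / (2 * R)) / (3 * K), by positivity, R * k,
    fun N hN => ?_⟩
  set M := N / R with hM
  have hM1 : k ≤ M := (Nat.le_div_iff_mul_le (by omega)).2 (by rwa [mul_comm])
  have hM2 : R * M ≤ N := Nat.mul_div_le N R
  have hM3 : N < R * (M + 1) := Nat.lt_mul_div_succ N (by omega)
  have hM4 : (a + 3) * M ≤ N := le_trans (Nat.mul_le_mul_right _ (by omega)) hM2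
  obtain ⟨c, hc⟩ : ∃ c, N = c + (a + 1) * M := ⟨N - (a + 1) * M,
    (Nat.sub_add_cancel (le_trans (Nat.mul_le_mul_right _ (by omega)) hM4)).symm⟩
  have hM0 : 1 ≤ M := hk.trans hM1
  have hc1 : 2 * M ≤ c := by nlinarith
  have hc2 : c + M ≤ N := by nlinarith
  have hMr : (1 : ℝ) ≤ M := by exact_mod_cast hM0
  have hN1 : (N : ℝ) + 1 ≤ 2 * R * M := by
    have : N + 1 ≤ 2 * R * M := by nlinarith
    exact_mod_cast this
  have hS : ∀ s ∈ Set.Icc (0 : ℝ) k, Small N fun n => al M n + s * be M c k n :=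
    fun s hs => small_fejer hM0 hk (by omega) hc2 hs
  have hβ : ∀ n, n < c - M → be M c k n = 0 := by
    intro n hn
    by_contra h0
    obtain ⟨p, _, q, _, h⟩ := cf_ne _ _ _ _ h0
    omega
  have cF := cont_F0 hS
  refine ⟨fun θ => K⁻¹ * F0 N k (al M) (be M c k) θ, by fun_prop, fun σ θ => by simp only [F0_symm],
    fun θ => ?_, fun P hP => ?_, ?_⟩
  · have := abs_F0 θ fun s hs => Fh_fejer hM0 hk (by omega) hc2 hs (R := 2 * R) (by linarith) θ
    rw [abs_mul, abs_of_pos (inv_pos.2 hK0), inv_mul_le_iff₀ hK0]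
    linarith
  · simp only [mul_assoc K⁻¹]
    rw [IN_smul, orth_F0 hS hβ P, mul_zero]
    rcases hP with hP | hP
    · rw [hP]
      exact Nat.mul_pos hk (by omega)
    · have e1 : ((c - M : ℕ) : ℝ) = N - (a + 2) * M := by
        rw [Nat.cast_sub (by omega), hc]
        push_cast
        ring
      have e2 : (R : ℝ) * M ≤ N := by exact_mod_cast hM2
      have e3 : (P.totalDegree : ℝ) < k * ((c - M : ℕ) : ℝ) := by
        rw [e1]
        nlinarith [mul_le_mul_of_nonneg_left e2 hδ.le, mul_lt_mul_of_pos_right hRδ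
          (show (0 : ℝ) < M by linarith)]
      exact_mod_cast e3
  · have haM : (3 : ℝ) * M ≤ ρ * (a * M) := by nlinarith
    have hkM : (k : ℝ) ≤ M := by exact_mod_cast hM1
    have hcr : (N : ℝ) = c + (a + 1) * M := by exact_mod_cast hc
    have har : (1 : ℝ) ≤ a := by exact_mod_cast ha1
    have hcr0 : (0 : ℝ) ≤ c := by positivity
    have hY := hn {0} (fun _ => 1) (fun _ => N + 1) (N + 1) 1 (by positivity) one_pos (by simp)
      (by simp) fun n _ _ => ⟨le_rfl, by nlinarith⟩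
    have hYm : (of fun l r : Fin k => ∑ _n ∈ ({0} : Finset ℕ), (1 : ℝ) *
        ((N : ℝ) + 1 + l.val) ^ (2 * r.val + 1)) = Ym N k := by
      ext l r
      simp [Ym, add_right_comm]
    rw [hYm, one_pow, one_mul] at hY
    have hB := (hn (Icc 1 N) (be M c k) (fun n => (N : ℝ) - n + 1) (a * M) (1 / (4 * k))
      (by positivity) (by positivity) (fun n _ => cf_nonneg _ _ (by positivity) _)
      (be_mass hM0 hk (by omega) hc2) fun n _ h0 => by
        obtain ⟨p, hp, q, hq, h⟩ := cf_ne _ _ _ _ h0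
        have e1 : n + 1 ≤ c + M := by omega
        have e2 : c + 1 ≤ n + M := by omega
        have e3 : (n : ℝ) + 1 ≤ c + M := by exact_mod_cast e1
        have e4 : (c : ℝ) + 1 ≤ n + M := by exact_mod_cast e2
        constructor <;> nlinarith).1
    have hC := corr_F0 hS
    have hZ := IN_Z_pos (N := N) k
    have hW1 := Wt_pos k (show (0 : ℝ) < N + 1 by positivity)
    have hW2 : Wt k (1 / (2 * R)) * Wt k (N + 1) ≤ Wt k (a * M) := by
      rw [← Wt_mul]
      refine Wt_mono k (by positivity) ?_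
      rw [one_div, inv_mul_le_iff₀ (by positivity)]
      nlinarith [mul_le_mul_of_nonneg_left har (show (0 : ℝ) ≤ 2 * R * M by positivity)]
    have hY0 : 0 < (Ym N k).det := lt_of_lt_of_le (by positivity) hY.1
    simp only [mul_assoc K⁻¹]
    rw [IN_smul]
    set IF := IN N fun θ => F0 N k (al M) (be M c k) θ * Z θ ^ k * weyl θ
    set IZ := IN N fun θ => Z θ ^ k * weyl θ
    set μk : ℝ := (1 / (4 * k)) ^ k
    have hμ : 0 < μk := by positivity
    have hf : (0 : ℝ) < k.factorial := by positivity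
    have s1 : (Ym N k).det * (IZ * (k.factorial * (μk * Wt k (1 / (2 * R))) / 3)) ≤
        (Ym N k).det * IF := by
      rw [hC]
      refine le_trans ?_ (mul_le_mul_of_nonneg_left (mul_le_mul_of_nonneg_left hB hf.le) hZ.le)
      calc _ ≤ 3 * d * Wt k (N + 1) * (IZ * (k.factorial * (μk * Wt k (1 / (2 * R))) / 3)) := by
            gcongr
            exact hY.2
        _ = IZ * (k.factorial * (d * (μk * (Wt k (1 / (2 * R)) * Wt k (N + 1))))) := by ring
        _ ≤ _ := by gcongr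
    have s2 := le_of_mul_le_mul_left s1 hY0
    rw [le_inv_mul_iff₀ hK0]
    refine le_trans (le_of_eq ?_) s2
    field_simp

theorem alt_of {D : ℝ} {F : (Fin N → ℝ) → ℝ} (h1 : Continuous F)
    (h2 : ∀ (σ : Equiv.Perm (Fin N)) (θ : Fin N → ℝ), F (θ ∘ σ) = F θ) (h3 : ∀ θ, |F θ| ≤ 1 / 2)
    (h4 : ∀ P : MvPolynomial (Fin N) ℝ, P.totalDegree = 0 ∨ (P.totalDegree : ℝ) ≤ D →
      IN N (fun θ => F θ * MvPolynomial.eval (fun i => cos (θ i)) P * weyl θ) = 0)
    (ε : ℝ) (hε : |ε| = 1) : Alt N D (fun θ => 1 + ε * F θ) ∧ ∀ g : (Fin N → ℝ) → ℝ, Continuous g →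
      Ex N (fun θ => (1 + ε * F θ) * g θ) =
        (IN N (fun θ => g θ * weyl θ) + ε * IN N fun θ => F θ * g θ * weyl θ) / IN N weyl := by
  have c := @cont_weyl N
  have key : ∀ g : (Fin N → ℝ) → ℝ, Continuous g → Ex N (fun θ => (1 + ε * F θ) * g θ) =
      (IN N (fun θ => g θ * weyl θ) + ε * IN N fun θ => F θ * g θ * weyl θ) / IN N weyl := by
    intro g hg
    rw [← IN_smul, ← IN_add (by fun_prop) (by fun_prop), Ex, IN, IN]
    congr 2
    funext θ
    ring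
  refine ⟨⟨by fun_prop, fun σ θ => by rw [h2], fun θ => ?_, ?_, fun P hP => ?_⟩, key⟩
  · have : |ε * F θ| ≤ 1 / 2 := by rw [abs_mul, hε, one_mul]; exact h3 θ
    constructor <;> linarith [(abs_le.1 this).1, (abs_le.1 this).2]
  · have e1 := key (fun _ => 1) continuous_const
    have e2 := h4 1 (Or.inl MvPolynomial.totalDegree_one)
    simp only [map_one, mul_one, one_mul] at e1 e2
    rw [e1, e2, mul_zero, add_zero]
    exact div_self IN_weyl_pos.ne'
  · have cP : Continuous fun θ : Fin N → ℝ => MvPolynomial.eval (fun i => cos (θ i)) P :=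
      (MvPolynomial.continuous_eval P).comp (by fun_prop)
    rw [key _ cP, h4 P (Or.inr hP), mul_zero, add_zero]
    rfl

theorem main (k : ℕ) (hk : 1 ≤ k) (δ : ℝ) (hδ : 0 < δ) : ∃ c : ℝ, 0 < c ∧ ∃ N₀ : ℕ, ∀ N, N₀ ≤ N →
    0 < Ex N (fun θ => Z θ ^ k) ∧ ∃ ρ₁ ρ₂ : (Fin N → ℝ) → ℝ,
      Alt N ((k - δ) * N) ρ₁ ∧ Alt N ((k - δ) * N) ρ₂ ∧
      (1 + c) * Ex N (fun θ => Z θ ^ k) ≤ Ex N (fun θ => ρ₁ θ * Z θ ^ k) ∧
      Ex N (fun θ => ρ₂ θ * Z θ ^ k) ≤ (1 - c) * Ex N (fun θ => Z θ ^ k) := by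
  obtain ⟨c, hc, N₀, h⟩ := exists_F k hk δ hδ
  refine ⟨c, hc, N₀, fun N hN => ?_⟩
  obtain ⟨F, h1, h2, h3, h4, h5⟩ := h N hN
  have hw := IN_weyl_pos (N := N)
  have cZ : Continuous fun θ : Fin N → ℝ => Z θ ^ k := cont_Z.pow k
  have e : Ex N (fun θ => Z θ ^ k) = IN N (fun θ => Z θ ^ k * weyl θ) / IN N weyl := rfl
  obtain ⟨a1, b1⟩ := alt_of h1 h2 h3 h4 1 abs_one
  obtain ⟨a2, b2⟩ := alt_of h1 h2 h3 h4 (-1) (by simp)
  refine ⟨div_pos (IN_Z_pos k) hw, _, _, a1, a2, ?_, ?_⟩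
  · rw [b1 _ cZ, e, ← mul_div_assoc]
    gcongr
    linarith
  · rw [b2 _ cZ, e, ← mul_div_assoc]
    gcongr
    linarith

end Pool.Agent.KMom
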