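import Pool.Agent.P.MP_ea46f5_nt.Defs

set_option autoImplicit false

/-! One-dimensional part: sine coefficients against `Im (z^j / h(z))`. -/

namespace Pool.Agent.KMom

open MeasureTheory Real Finset

/-- Integral over `[0, π]`. -/
noncomputable def I1 (f : ℝ → ℝ) : ℝ := ∫ t in Set.Icc 0 π, f t

theorem intg {f : ℝ → ℝ} (hf : Continuous f) : Integrable f (volume.restrict (Set.Icc 0 π)) :=
  hf.continuousOn.integrableOn_Icc

theorem I1_add {f g : ℝ → ℝ} (hf : Continuous f) (hg : Continuous g) :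
    I1 (fun t => f t + g t) = I1 f + I1 g := integral_add (intg hf) (intg hg)

theorem I1_sub {f g : ℝ → ℝ} (hf : Continuous f) (hg : Continuous g) :
    I1 (fun t => f t - g t) = I1 f - I1 g := integral_sub (intg hf) (intg hg)

theorem I1_smul (c : ℝ) (f : ℝ → ℝ) : I1 (fun t => c * f t) = c * I1 f := integral_const_mul c f

theorem I1_sum {ι : Type} (T : Finset ι) {f : ι → ℝ → ℝ} (hf : ∀ i ∈ T, Continuous (f i)) :
    I1 (fun t => ∑ i ∈ T, f i t) = ∑ i ∈ T, I1 (f i) :=
  integral_finsetSum T fun i hi => intg (hf i hi)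

theorem I1_cos (n : ℤ) (hn : n ≠ 0) : I1 (fun t => cos (n * t)) = 0 := by
  have hn' : (n : ℝ) ≠ 0 := by exact_mod_cast hn
  rw [I1, integral_Icc_eq_integral_Ioc, ← intervalIntegral.integral_of_le pi_pos.le,
    intervalIntegral.integral_comp_mul_left (fun t => cos t) hn', integral_cos]
  simp [sin_int_mul_pi]

/-- Sine coefficient. -/
noncomputable def fh (f : ℝ → ℝ) (j : ℕ) : ℝ := I1 fun t => f t * sin (j * t)

theorem fh_zero (f : ℝ → ℝ) : fh f 0 = 0 := by simp [fh, I1]

/-- No sine coefficients above `d`. -/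
def BL (f : ℝ → ℝ) (d : ℕ) : Prop := Continuous f ∧ ∀ j, d < j → fh f j = 0

theorem BL.mono {f : ℝ → ℝ} {d d' : ℕ} (h : BL f d) (hd : d ≤ d') : BL f d' :=
  ⟨h.1, fun j hj => h.2 j (by omega)⟩

theorem bl_sin (m : ℕ) : BL (fun t => sin (m * t)) m := by
  refine ⟨by fun_prop, fun j hj => ?_⟩
  have h1 := I1_cos ((j : ℤ) - m) (by omega)
  have h2 := I1_cos ((j : ℤ) + m) (by omega)
  have : (fun t : ℝ => sin (m * t) * sin (j * t)) = fun t => (1 / 2 : ℝ) *
      (cos ((((j : ℤ) - m : ℤ) : ℝ) * t) - cos ((((j : ℤ) + m : ℤ) : ℝ) * t)) := by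
    funext t
    push_cast
    rw [sub_mul, add_mul, cos_sub, cos_add]
    ring
  rw [fh, this, I1_smul, I1_sub (by fun_prop) (by fun_prop), h1, h2]
  simp

theorem fh_cos {f : ℝ → ℝ} (hf : Continuous f) (j : ℕ) :
    fh (fun t => cos t * f t) (j + 1) = (fh f (j + 2) + fh f j) / 2 := by
  have : (fun t : ℝ => cos t * f t * sin (((j + 1 : ℕ) : ℝ) * t)) = fun t => (1 / 2 : ℝ) *
      (f t * sin (((j + 2 : ℕ) : ℝ) * t) + f t * sin (j * t)) := by
    funext t
    have e1 : ((j + 2 : ℕ) : ℝ) * t = ((j + 1 : ℕ) : ℝ) * t + t := by push_cast; ring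
    have e2 : (j : ℝ) * t = ((j + 1 : ℕ) : ℝ) * t - t := by push_cast; ring
    rw [e1, e2, sin_add, sin_sub]
    ring
  rw [fh, this, I1_smul, I1_add (by fun_prop) (by fun_prop), fh, fh]
  ring

theorem BL.cos {f : ℝ → ℝ} {d : ℕ} (h : BL f d) : BL (fun t => cos t * f t) (d + 1) := by
  refine ⟨by have := h.1; fun_prop, fun j hj => ?_⟩
  obtain ⟨j, rfl⟩ : ∃ i, j = i + 1 := ⟨j - 1, by omega⟩
  rw [fh_cos h.1, h.2 _ (by omega), h.2 _ (by omega)]
  simp

theorem bl_mono (e m : ℕ) : BL (fun t => cos t ^ e * sin (m * t)) (m + e) := by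
  induction e with
  | zero => simpa using bl_sin m
  | succ e ih =>
    have e1 : (fun t => cos t ^ (e + 1) * sin (m * t)) =
        fun t => cos t * (cos t ^ e * sin (m * t)) := by
      funext t
      ring
    rw [e1]
    exact ih.cos

theorem fh_two {f : ℝ → ℝ} (hf : Continuous f) (j : ℕ) :
    fh (fun t => (2 - 2 * cos t) * f t) (j + 1) = 2 * fh f (j + 1) - fh f (j + 2) - fh f j := by
  have : (fun t : ℝ => (2 - 2 * cos t) * f t * sin (((j + 1 : ℕ) : ℝ) * t)) = fun t =>
      2 * (f t * sin (((j + 1 : ℕ) : ℝ) * t)) - 2 * (cos t * f t * sin (((j + 1 : ℕ) : ℝ) * t)) := by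
    funext t
    ring
  have h2 := fh_cos hf j
  rw [fh] at h2
  rw [fh, this, I1_sub (by fun_prop) (by fun_prop), I1_smul, I1_smul, h2, ← fh]
  ring

theorem bl_Z (k m : ℕ) : BL (fun t => (2 - 2 * cos t) ^ k * sin (m * t)) (m + k) := by
  induction k with
  | zero => simpa using bl_sin m
  | succ k ih =>
    refine ⟨by fun_prop, fun j hj => ?_⟩
    obtain ⟨j, rfl⟩ : ∃ i, j = i + 1 := ⟨j - 1, by omega⟩
    have := fh_two ih.1 j
    rw [ih.2 _ (by omega), ih.2 _ (by omega), ih.2 _ (by omega)] at this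
    convert this using 2
    · funext t
      ring
    · simp

theorem sum_by_parts (a p : ℕ → ℝ) (h0 : a 0 = 0) (hp : p 0 = 0) (K : ℕ) :
    ∑ j ∈ range K, (2 * a (j + 1) - a (j + 2) - a j) * p (j + 1) =
      ∑ j ∈ range K, a (j + 1) * (2 * p (j + 1) - p (j + 2) - p j) +
        a K * p (K + 1) - a (K + 1) * p K := by
  induction K with
  | zero => simp [h0, hp]
  | succ K ih =>
    rw [sum_range_succ, sum_range_succ, ih]
    ring

open Polynomial in
theorem degree_diff (p : ℝ[X]) (c : ℝ) (n : ℕ) (h : p.degree < (n + 1 : ℕ)) :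
    (taylor c p - p).degree < n := by
  by_cases hp : p = 0
  · subst hp
    simp
  have h1 : (taylor c p).degree = p.degree := by
    have : taylor c p ≠ 0 := fun h0 => hp ((taylor_eq_zero c p).1 h0)
    rw [degree_eq_natDegree this, degree_eq_natDegree hp, natDegree_taylor]
  have h2 := degree_sub_lt_left h1 (fun h0 => hp ((taylor_eq_zero c p).1 h0)) (leadingCoeff_taylor c p)
  rw [h1] at h2
  rw [degree_eq_natDegree hp] at h h2
  have h3 : p.natDegree ≤ n := by
    have : p.natDegree < n + 1 := by exact_mod_cast h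
    omega
  exact h2.trans_le (by exact_mod_cast h3)

open Polynomial in
theorem kernel (k m : ℕ) : ∀ p : ℝ[X], (∀ x, p.eval (-x) = -p.eval x) → p.degree < (2 * k : ℕ) →
    ∀ K, m + k ≤ K → ∑ j ∈ range K,
      fh (fun t => (2 - 2 * cos t) ^ k * sin (m * t)) (j + 1) * p.eval ((j + 1 : ℕ) : ℝ) = 0 := by
  induction k with
  | zero =>
    intro p _ hp K _
    have : p = 0 := by
      rw [← degree_eq_bot]
      simpa using hp
    simp [this]
  | succ k ih =>
    intro p hodd hp K hK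
    have hB := bl_Z k m
    have e : (fun t => (2 - 2 * cos t) ^ (k + 1) * sin (m * t)) =
        fun t => (2 - 2 * cos t) * ((2 - 2 * cos t) ^ k * sin (m * t)) := by
      funext t
      ring
    have hp0 : p.eval ((0 : ℕ) : ℝ) = 0 := by
      have := hodd 0
      simp only [neg_zero] at this
      simp only [Nat.cast_zero]
      linarith
    simp only [e, fh_two hB.1]
    rw [sum_by_parts _ (fun j => p.eval (j : ℝ)) (fh_zero _) hp0, hB.2 K (by omega),
      hB.2 (K + 1) (by omega)]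
    set q : ℝ[X] := taylor 1 p - p with hq
    have hq1 : q.degree < (2 * k + 1 : ℕ) := degree_diff p 1 _ (by
      rwa [show 2 * k + 1 + 1 = 2 * (k + 1) by ring])
    have hq2 := degree_diff q (-1) _ hq1
    have hev : ∀ x, (taylor (-1) q - q).eval x = 2 * p.eval x - p.eval (x + 1) - p.eval (x - 1) := by
      intro x
      simp only [hq, eval_sub, taylor_eval, map_sub]
      rw [show x + -1 + 1 = x by ring, show x + -1 = x - 1 by ring]
      ring
    have := ih (taylor (-1) q - q) (fun x => by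
      rw [hev, hev, show -x + 1 = -(x - 1) by ring, show -x - 1 = -(x + 1) by ring, hodd, hodd, hodd]
      ring) hq2 K (by omega)
    simp only [zero_mul, add_zero, sub_zero]
    rw [← this]
    refine sum_congr rfl fun j _ => ?_
    rw [hev]
    push_cast
    rw [show (j : ℝ) + 1 + 1 = j + 2 by ring, show (j : ℝ) + 1 - 1 = j by ring]

variable (N : ℕ) (h : ℕ → ℝ)

/-- Real part of `h`. -/
noncomputable def Ah (t : ℝ) : ℝ := 1 + ∑ n ∈ Icc 1 N, h n * cos (n * t)

/-- Imaginary part of `h`. -/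
noncomputable def Bh (t : ℝ) : ℝ := ∑ n ∈ Icc 1 N, h n * sin (n * t)

/-- The weight `1 / |h|^2`. -/
noncomputable def psi (t : ℝ) : ℝ := (Ah N h t ^ 2 + Bh N h t ^ 2)⁻¹

/-- The function `Im (z^j / h(z))`. -/
noncomputable def phi (j : ℕ) (t : ℝ) : ℝ :=
  psi N h t * (Ah N h t * sin (j * t) - Bh N h t * cos (j * t))

/-- The coefficients are small. -/
def Small : Prop := ∑ n ∈ Icc 1 N, |h n| ≤ 3 / 4

variable {N h}

theorem Small.abs_sum (hs : Small N h) (g : ℕ → ℝ) (C : ℝ) (hC : 0 ≤ C)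
    (hg : ∀ n ∈ Icc 1 N, |g n| ≤ C) : |∑ n ∈ Icc 1 N, h n * g n| ≤ 3 / 4 * C := by
  refine (abs_sum_le_sum_abs _ _).trans ?_
  calc ∑ n ∈ Icc 1 N, |h n * g n| ≤ ∑ n ∈ Icc 1 N, |h n| * C :=
        sum_le_sum fun n hn => by rw [abs_mul]; gcongr; exact hg n hn
    _ ≤ 3 / 4 * C := by rw [← sum_mul]; gcongr; exact hs

theorem Small.Ah_ge (hs : Small N h) (t : ℝ) : 1 / 4 ≤ Ah N h t := by
  have := hs.abs_sum (fun n => cos (n * t)) 1 zero_le_one fun n _ => abs_cos_le_one _
  rw [Ah]
  linarith [(abs_le.1 this).1]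

theorem Small.den_pos (hs : Small N h) (t : ℝ) : 0 < Ah N h t ^ 2 + Bh N h t ^ 2 := by
  have := hs.Ah_ge t
  positivity

theorem cont_Ah : Continuous (Ah N h) := by unfold Ah; fun_prop

theorem cont_Bh : Continuous (Bh N h) := by unfold Bh; fun_prop

theorem Small.cont_psi (hs : Small N h) : Continuous (psi N h) := by
  have := @cont_Ah N h
  have := @cont_Bh N h
  exact Continuous.inv₀ (by fun_prop) fun t => (hs.den_pos t).ne'

theorem Small.cont_phi (hs : Small N h) (j : ℕ) : Continuous (phi N h j) := by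
  have := @cont_Ah N h
  have := @cont_Bh N h
  have := hs.cont_psi
  unfold phi
  fun_prop

theorem Small.rec_phi (hs : Small N h) (j : ℕ) (t : ℝ) :
    phi N h j t + ∑ n ∈ Icc 1 N, h n * phi N h (j + n) t = sin (j * t) := by
  have e : ∀ n ∈ Icc 1 N, h n * phi N h (j + n) t =
      psi N h t * (Ah N h t * sin (j * t) - Bh N h t * cos (j * t)) * (h n * cos (n * t)) +
      psi N h t * (Ah N h t * cos (j * t) + Bh N h t * sin (j * t)) * (h n * sin (n * t)) := by
    intro n _
    rw [phi]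
    push_cast
    rw [add_mul, sin_add, cos_add]
    ring
  have hA : ∑ n ∈ Icc 1 N, h n * cos (n * t) = Ah N h t - 1 := by rw [Ah]; ring
  rw [sum_congr rfl e, sum_add_distrib, ← mul_sum, ← mul_sum, hA, ← Bh, phi, psi]
  have := (hs.den_pos t).ne'
  field_simp
  ring

theorem phi_eq (j : ℕ) (t : ℝ) : phi N h j t =
    psi N h t * (sin (j * t) + ∑ n ∈ Icc 1 N, h n * sin (((j : ℝ) - n) * t)) := by
  have e : ∀ n ∈ Icc 1 N, h n * sin (((j : ℝ) - n) * t) =
      sin (j * t) * (h n * cos (n * t)) - cos (j * t) * (h n * sin (n * t)) := by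
    intro n _
    rw [sub_mul, sin_sub]
    ring
  rw [sum_congr rfl e, sum_sub_distrib, ← mul_sum, ← mul_sum, ← Bh, phi, Ah]
  ring

theorem Small.abs_phi (hs : Small N h) (j : ℕ) (t : ℝ) : |phi N h j t| ≤ 2 * psi N h t := by
  have h1 := hs.abs_sum (fun n => sin (((j : ℝ) - n) * t)) 1 zero_le_one fun n _ => abs_sin_le_one _
  have h2 := abs_sin_le_one (j * t)
  have h3 : 0 ≤ psi N h t := inv_nonneg.2 (hs.den_pos t).le
  rw [phi_eq, abs_mul, abs_of_nonneg h3, mul_comm]
  gcongr
  linarith [abs_add_le (sin (j * t)) (∑ n ∈ Icc 1 N, h n * sin (((j : ℝ) - n) * t))]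

variable (N h) in
/-- Pairing with `phi`. -/
noncomputable def sf (f : ℝ → ℝ) (j : ℕ) : ℝ := I1 fun t => f t * phi N h j t

theorem Small.rec_sf (hs : Small N h) {f : ℝ → ℝ} (hf : Continuous f) (j : ℕ) :
    sf N h f j + ∑ n ∈ Icc 1 N, h n * sf N h f (j + n) = fh f j := by
  have c := hs.cont_phi
  have e : (fun t => f t * sin (j * t)) = fun t => f t * phi N h j t +
      ∑ n ∈ Icc 1 N, h n * (f t * phi N h (j + n) t) := by
    funext t
    rw [← hs.rec_phi j t, mul_add, mul_sum]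
    congr 1
    exact sum_congr rfl fun n _ => by ring
  rw [fh, e, I1_add (by fun_prop) (by fun_prop), I1_sum _ fun n _ => by fun_prop]
  simp only [I1_smul, sf]

theorem Small.sf_zero (hs : Small N h) {f : ℝ → ℝ} {d : ℕ} (hf : BL f d) (j : ℕ) (hj : d < j) :
    sf N h f j = 0 := by
  have c := hs.cont_phi
  have c2 := hs.cont_psi
  have c3 := hf.1
  set C := I1 fun t => |f t| * (2 * psi N h t) with hC
  have b0 : ∀ j, |sf N h f j| ≤ C := by
    intro j
    refine (abs_integral_le_integral_abs).trans (integral_mono (intg (by fun_prop))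
      (intg (by fun_prop)) fun t => ?_)
    simp only [abs_mul]
    gcongr
    exact hs.abs_phi j t
  have hC0 : 0 ≤ C := (abs_nonneg _).trans (b0 0)
  have b : ∀ r : ℕ, ∀ j, d < j → |sf N h f j| ≤ C * (3 / 4) ^ r := by
    intro r
    induction r with
    | zero => simpa using fun j _ => b0 j
    | succ r ih =>
      intro j hj
      have h1 := hs.rec_sf c3 j
      rw [hf.2 j hj] at h1
      have h2 := hs.abs_sum (fun n => sf N h f (j + n)) (C * (3 / 4) ^ r) (by positivity)
        fun n _ => ih _ (by omega)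
      rw [eq_neg_of_add_eq_zero_left h1, abs_neg, pow_succ]
      linarith
  have t : Filter.Tendsto (fun r : ℕ => C * (3 / 4 : ℝ) ^ r) Filter.atTop (nhds (C * 0)) :=
    (tendsto_pow_atTop_nhds_zero_of_lt_one (by norm_num) (by norm_num)).const_mul C
  have := ge_of_tendsto' t fun r => b r j hj
  rw [mul_zero] at this
  exact abs_nonpos_iff.1 this

section PD

open Polynomial

variable {S : Set ℝ} {J : ℕ}

/-- On `S` the function is a polynomial whose monomials `s^r` have `r J ≤ e`. -/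
def PD (S : Set ℝ) (J : ℕ) (g : ℝ → ℝ) (e : ℤ) : Prop :=
  ∃ p : ℝ[X], (∀ s ∈ S, g s = p.eval s) ∧ ∀ r, p.coeff r ≠ 0 → (r * J : ℤ) ≤ e

theorem PD.congr {g g' : ℝ → ℝ} {e : ℤ} (h : PD S J g e) (hg : ∀ s ∈ S, g' s = g s) :
    PD S J g' e := by
  obtain ⟨p, h1, h2⟩ := h
  exact ⟨p, fun s hs => (hg s hs).trans (h1 s hs), h2⟩

theorem PD.mono {g : ℝ → ℝ} {e e' : ℤ} (h : PD S J g e) (he : e ≤ e') : PD S J g e' := by
  obtain ⟨p, h1, h2⟩ := h
  exact ⟨p, h1, fun r hr => (h2 r hr).trans he⟩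

theorem pd_zero (e : ℤ) : PD S J (fun _ => 0) e := ⟨0, by simp, by simp⟩

theorem pd_const (c : ℝ) : PD S J (fun _ => c) 0 := by
  refine ⟨C c, by simp, fun r hr => ?_⟩
  have : r = 0 := by
    by_contra h0
    exact hr (coeff_C_of_ne_zero h0)
  simp [this]

theorem pd_id : PD S J (fun s => s) J := by
  refine ⟨X, by simp, fun r hr => ?_⟩
  have : r = 1 := by
    by_contra h0
    exact hr (coeff_X_of_ne_one h0)
  simp [this]

theorem PD.add {g g' : ℝ → ℝ} {e : ℤ} (h : PD S J g e) (h' : PD S J g' e) :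
    PD S J (fun s => g s + g' s) e := by
  obtain ⟨p, h1, h2⟩ := h
  obtain ⟨q, h3, h4⟩ := h'
  refine ⟨p + q, fun s hs => by simp [h1 s hs, h3 s hs], fun r hr => ?_⟩
  by_cases hp : p.coeff r = 0
  · exact h4 r (by simpa [hp] using hr)
  · exact h2 r hp

theorem PD.mul {g g' : ℝ → ℝ} {e e' : ℤ} (h : PD S J g e) (h' : PD S J g' e') :
    PD S J (fun s => g s * g' s) (e + e') := by
  obtain ⟨p, h1, h2⟩ := h
  obtain ⟨q, h3, h4⟩ := h'
  refine ⟨p * q, fun s hs => by simp [h1 s hs, h3 s hs], fun r hr => ?_⟩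
  rw [coeff_mul] at hr
  obtain ⟨x, hx, hne⟩ := exists_ne_zero_of_sum_ne_zero hr
  have e1 := h2 _ (left_ne_zero_of_mul hne)
  have e2 := h4 _ (right_ne_zero_of_mul hne)
  rw [← mem_antidiagonal.1 hx]
  push_cast
  linarith

theorem PD.smul {g : ℝ → ℝ} {e : ℤ} (h : PD S J g e) (c : ℝ) : PD S J (fun s => c * g s) e := by
  simpa using (pd_const c).mul h

theorem pd_sum {ι : Type} (T : Finset ι) {g : ι → ℝ → ℝ} {e : ℤ} (h : ∀ i ∈ T, PD S J (g i) e) :
    PD S J (fun s => ∑ i ∈ T, g i s) e := by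
  classical
  induction T using Finset.induction_on with
  | empty => simpa using pd_zero e
  | insert a T ha ih =>
    simp only [sum_insert ha]
    exact (h a (by simp)).add (ih fun i hi => h i (by simp [hi]))

theorem pd_prod {ι : Type} (T : Finset ι) {g : ι → ℝ → ℝ} {e : ι → ℤ}
    (h : ∀ i ∈ T, PD S J (g i) (e i)) : PD S J (fun s => ∏ i ∈ T, g i s) (∑ i ∈ T, e i) := by
  classical
  induction T using Finset.induction_on with
  | empty => simpa using pd_const 1
  | insert a T ha ih =>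
    simp only [sum_insert ha, prod_insert ha]
    exact (h a (by simp)).mul (ih fun i hi => h i (by simp [hi]))

theorem pd_sf {α β : ℕ → ℝ} (hS : ∀ s ∈ S, Small N fun n => α n + s * β n)
    (hβ : ∀ n, n < J → β n = 0) {f : ℝ → ℝ} {d : ℕ} (hf : BL f d) (j : ℕ) :
    PD S J (fun s => sf N (fun n => α n + s * β n) f j) ((d : ℤ) - j) := by
  have key : ∀ r j : ℕ, d < j + r →
      PD S J (fun s => sf N (fun n => α n + s * β n) f j) ((d : ℤ) - j) := by
    intro r
    induction r with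
    | zero => exact fun j hj => (pd_zero _).congr fun s hs => (hS s hs).sf_zero hf j hj
    | succ r ih =>
      intro j hj
      by_cases hd : d < j
      · exact (pd_zero _).congr fun s hs => (hS s hs).sf_zero hf j hd
      have h1 : PD S J (fun s => fh f j + ∑ n ∈ Icc 1 N,
          (-α n * sf N (fun n => α n + s * β n) f (j + n) +
            -β n * (s * sf N (fun n => α n + s * β n) f (j + n)))) ((d : ℤ) - j) := by
        refine ((pd_const _).mono (by omega)).add (pd_sum _ fun n hn => ?_)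
        have hn1 := (mem_Icc.1 hn).1
        have h2 := ih (j + n) (by omega)
        refine ((h2.smul _).mono (by push_cast; omega)).add ?_
        by_cases hJ : n < J
        · exact (pd_zero _).congr fun s _ => by simp [hβ n hJ]
        · exact ((pd_id.mul h2).smul _).mono (by push_cast; omega)
      refine h1.congr fun s hs => ?_
      rw [← (hS s hs).rec_sf hf.1 j, add_assoc, ← sum_add_distrib, sum_eq_zero, add_zero]
      intro n _
      ring
  exact key (d + 1) j (by omega)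

/-- The `k`-th difference at the origin. -/
noncomputable def Dk (k : ℕ) (g : ℝ → ℝ) : ℝ :=
  ∑ s ∈ range (k + 1), ((-1 : ℝ) ^ (k - s) * k.choose s) * g s

theorem Dk_poly (k : ℕ) (p : ℝ[X]) (hp : p.natDegree ≤ k) :
    Dk k (fun s => p.eval s) = k.factorial * p.coeff k := by
  have e : Dk k (fun s => p.eval s) = (fwdDiff (1 : ℝ))^[k] p.eval 0 := by
    rw [fwdDiff_iter_eq_sum_shift, Dk]
    refine sum_congr rfl fun s _ => ?_
    simp
  rw [e]
  rcases hp.lt_or_eq with hp | hp
  · rw [Polynomial.fwdDiff_iter_eq_zero_of_degree_lt hp, coeff_eq_zero_of_natDegree_lt hp]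
    simp
  · subst hp
    rw [Polynomial.fwdDiff_iter_degree_eq_factorial]
    simp [mul_comm]

theorem Dk_congr {k : ℕ} {g g' : ℝ → ℝ} (h : ∀ s ∈ Set.Icc (0 : ℝ) k, g s = g' s) :
    Dk k g = Dk k g' := by
  refine sum_congr rfl fun s hs => ?_
  rw [h s ⟨by positivity, by exact_mod_cast Nat.lt_succ_iff.1 (mem_range.1 hs)⟩]

theorem PD.Dk_zero {k : ℕ} {g : ℝ → ℝ} {e : ℤ} (h : PD (Set.Icc (0 : ℝ) k) J g e)
    (he : e < k * J) : Dk k g = 0 := by
  obtain ⟨p, h1, h2⟩ := h
  have hz : ∀ r, k ≤ r → p.coeff r = 0 := by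
    intro r hr
    by_contra h0
    have := h2 r h0
    have : (k : ℤ) * J ≤ r * J := by gcongr
    omega
  rw [Dk_congr h1, Dk_poly k p (natDegree_le_iff_coeff_eq_zero.2 fun r hr => hz r hr.le),
    hz k le_rfl, mul_zero]

end PD

end Pool.Agent.KMom
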