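import Pool.Agent.P.MP_ea46f5_nt.Two

set_option autoImplicit false

/-! The small determinants and the Fejer polynomials. -/

namespace Pool.Agent.KMom

open MeasureTheory Real Finset Matrix

/-- Iterated differences of a power. -/
noncomputable def dp (m s : ℕ) (y : ℝ) : ℝ := (fwdDiff (1 : ℝ))^[s] (fun x : ℝ => x ^ m) y

theorem dp_deriv (m s : ℕ) (y : ℝ) : HasDerivAt (dp m s) (m * dp (m - 1) s y) y := by
  have e : ∀ m, dp m s = fun x => ∑ j ∈ range (s + 1),
      (((-1 : ℤ) ^ (s - j) * s.choose j : ℤ) : ℝ) * (x + j) ^ m := by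
    intro m
    funext x
    rw [dp, fwdDiff_iter_eq_sum_shift]
    simp
  rw [e m, e (m - 1), mul_sum]
  refine HasDerivAt.fun_sum fun j _ => ?_
  have := (((hasDerivAt_id y).add_const (j : ℝ)).fun_pow m).const_mul
    (((-1 : ℤ) ^ (s - j) * s.choose j : ℤ) : ℝ)
  refine this.congr_deriv ?_
  simp only [id]
  ring

theorem dp_mvt (s : ℕ) : ∀ (m : ℕ) (y : ℝ), ∃ ξ ∈ Set.Icc y (y + s),
    dp m s y = m.descFactorial s * ξ ^ (m - s) := by
  induction s with
  | zero => exact fun m y => ⟨y, by simp, by simp [dp]⟩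
  | succ s ih =>
    intro m y
    obtain ⟨η, hη, h1⟩ := exists_hasDerivAt_eq_slope (dp m s) (fun x => m * dp (m - 1) s x)
      (show y < y + 1 by linarith) (fun x _ => (dp_deriv m s x).continuousAt.continuousWithinAt)
      fun x _ => dp_deriv m s x
    obtain ⟨ξ, hξ, h2⟩ := ih (m - 1) η
    refine ⟨ξ, ⟨by linarith [hη.1, hξ.1], by push_cast; linarith [hη.2, hξ.2]⟩, ?_⟩
    have h3 : dp m (s + 1) y = dp m s (y + 1) - dp m s y := by
      rw [dp, Function.iterate_succ_apply']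
      rfl
    have h4 : (m.descFactorial (s + 1) : ℝ) = m * (m - 1).descFactorial s := by
      rcases m with _ | m
      · simp
      · rw [Nat.succ_descFactorial_succ]
        simp
    rw [h3, h4, show m - (s + 1) = m - 1 - s by omega, mul_assoc, ← h2, h1]
    simp

theorem det_newton (k : ℕ) (T : Finset ℕ) (w x : ℕ → ℝ) :
    (of fun l r : Fin k => ∑ n ∈ T, w n * (x n + l.val) ^ (2 * r.val + 1)).det =
      (of fun s r : Fin k => ∑ n ∈ T, w n * dp (2 * r.val + 1) s.val (x n)).det := by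
  have e : (of fun l r : Fin k => ∑ n ∈ T, w n * (x n + l.val) ^ (2 * r.val + 1)) =
      (of fun l s : Fin k => (l.val.choose s.val : ℝ)) *
        of fun s r : Fin k => ∑ n ∈ T, w n * dp (2 * r.val + 1) s.val (x n) := by
    ext l r
    rw [mul_apply]
    simp only [of_apply, mul_sum]
    rw [sum_comm]
    refine sum_congr rfl fun n _ => ?_
    have h1 := shift_eq_sum_fwdDiff_iter (1 : ℝ) (fun y : ℝ => y ^ (2 * r.val + 1)) l.val (x n)
    simp only [nsmul_eq_mul, mul_one] at h1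
    rw [h1, Fin.sum_univ_eq_sum_range
      (fun s => (l.val.choose s : ℝ) * (w n * dp (2 * r.val + 1) s (x n))) k, mul_sum,
      ← sum_subset (range_subset_range.2 (Nat.succ_le_of_lt l.2))]
    · exact sum_congr rfl fun s _ => by rw [dp]; ring
    · intro s _ hs
      rw [Nat.choose_eq_zero_of_lt (by simpa using hs)]
      simp
  rw [e, det_mul, det_of_isLowerTriangular, prod_eq_one, one_mul]
  · intro i _
    simp
  · intro a b hab
    have : a.val < b.val := hab
    simp [Nat.choose_eq_zero_of_lt this]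

/-- The scale of the small determinants. -/
noncomputable def Wt (k : ℕ) (x : ℝ) : ℝ := ∏ r : Fin k, x ^ (r.val + 1)

theorem Wt_pos (k : ℕ) {x : ℝ} (hx : 0 < x) : 0 < Wt k x := prod_pos fun _ _ => by positivity

theorem Wt_mul (k : ℕ) (x y : ℝ) : Wt k (x * y) = Wt k x * Wt k y := by
  simp only [Wt, mul_pow, prod_mul_distrib]

theorem Wt_mono (k : ℕ) {x y : ℝ} (hx : 0 ≤ x) (h : x ≤ y) : Wt k x ≤ Wt k y :=
  prod_le_prod (fun _ _ => by positivity) fun _ _ => by gcongr

theorem near (k : ℕ) : ∃ ρ d : ℝ, 0 < ρ ∧ 0 < d ∧ ∀ (T : Finset ℕ) (w x : ℕ → ℝ) (x₀ μ : ℝ),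
    0 < x₀ → 0 < μ → (∀ n ∈ T, 0 ≤ w n) → ∑ n ∈ T, w n = μ →
    (∀ n ∈ T, w n ≠ 0 → x₀ ≤ x n ∧ x n + k ≤ (1 + ρ) * x₀) →
    d * (μ ^ k * Wt k x₀) ≤
        (of fun l r : Fin k => ∑ n ∈ T, w n * (x n + l.val) ^ (2 * r.val + 1)).det ∧
      (of fun l r : Fin k => ∑ n ∈ T, w n * (x n + l.val) ^ (2 * r.val + 1)).det ≤
        3 * d * (μ ^ k * Wt k x₀) := by
  set E₀ : Fin k → Fin k → ℝ := fun s r => ((2 * r.val + 1).descFactorial s.val : ℝ) with hE₀
  have hd : 0 < (of E₀).det := by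
    have h1 := det_eval_matrixOfPolynomials_eq_det_vandermonde
      (fun r : Fin k => ((2 * r.val + 1 : ℕ) : ℝ)) (fun i => descPochhammer ℝ i)
      (fun i => descPochhammer_natDegree ℝ i) fun i => monic_descPochhammer ℝ i
    simp only [descPochhammer_eval_eq_descFactorial] at h1
    rw [← det_transpose]
    refine lt_of_lt_of_eq ?_ h1
    rw [det_vandermonde]
    refine prod_pos fun i _ => prod_pos fun j hj => sub_pos.2 ?_
    have h0 : i < j := mem_Ioi.1 hj
    have : i.val < j.val := h0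
    exact_mod_cast (by omega)
  have hc : Continuous fun E : Fin k → Fin k → ℝ => (of E).det :=
    Continuous.matrix_det continuous_id
  obtain ⟨η, hη, h2⟩ := Metric.continuous_iff.1 hc E₀ ((of E₀).det / 2) (by positivity)
  have hc2 : Continuous fun ρ : ℝ => (‖E₀‖ + 1) * ((1 + ρ) ^ (2 * k) - 1) := by fun_prop
  obtain ⟨ε, hε, h3⟩ := Metric.continuous_iff.1 hc2 0 η hη
  have h4 := h3 (ε / 2) (by rw [Real.dist_eq, sub_zero, abs_of_pos (by positivity)]; linarith)
  set ρ := ε / 2 with hρ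
  have hρ0 : 0 < ρ := by positivity
  have h5 : 1 ≤ (1 + ρ) ^ (2 * k) := one_le_pow₀ (by linarith)
  simp only [add_zero, one_pow, sub_self, mul_zero, Real.dist_eq, sub_zero] at h4
  rw [abs_of_nonneg (by have := norm_nonneg E₀; nlinarith)] at h4
  refine ⟨ρ, (of E₀).det / 2, hρ0, by positivity, fun T w x x₀ μ hx hμ hw hs hT => ?_⟩
  set E : Fin k → Fin k → ℝ := fun s r =>
    (∑ n ∈ T, w n * dp (2 * r.val + 1) s.val (x n)) * x₀ ^ s.val / (μ * x₀ ^ (2 * r.val + 1)) with hE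
  have hdist : dist E E₀ < η := by
    refine lt_of_le_of_lt ((dist_pi_le_iff (by have := norm_nonneg E₀; nlinarith)).2 fun s =>
      (dist_pi_le_iff (by have := norm_nonneg E₀; nlinarith)).2 fun r => ?_) h4
    have e1 : E s r - E₀ s r = ∑ n ∈ T, w n / μ *
        (dp (2 * r.val + 1) s.val (x n) * x₀ ^ s.val / x₀ ^ (2 * r.val + 1) - E₀ s r) := by
      simp only [mul_sub, sum_sub_distrib]
      rw [← sum_mul, ← sum_div, hs, div_self hμ.ne', one_mul, hE]
      simp only [sum_mul, sum_div]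
      congr 1
      exact sum_congr rfl fun n _ => by field_simp
    have e2 : ∀ n ∈ T, |w n / μ *
        (dp (2 * r.val + 1) s.val (x n) * x₀ ^ s.val / x₀ ^ (2 * r.val + 1) - E₀ s r)| ≤
        w n / μ * ((‖E₀‖ + 1) * ((1 + ρ) ^ (2 * k) - 1)) := by
      intro n hn
      by_cases h0 : w n = 0
      · simp [h0]
      have hwn := hw n hn
      rw [abs_mul, abs_of_nonneg (by positivity)]
      gcongr
      obtain ⟨ξ, hξ, h6⟩ := dp_mvt s.val (2 * r.val + 1) (x n)
      have hE0 : 0 ≤ E₀ s r := by positivity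
      have hE1 : E₀ s r ≤ ‖E₀‖ :=
        (le_abs_self _).trans ((norm_le_pi_norm (E₀ s) r).trans (norm_le_pi_norm E₀ s))
      by_cases hsr : 2 * r.val + 1 < s.val
      · have : E₀ s r = 0 := by simp [hE₀, Nat.descFactorial_of_lt hsr]
        rw [h6, this, Nat.descFactorial_of_lt hsr]
        simp only [Nat.cast_zero, zero_mul, zero_div, sub_self, abs_zero]
        nlinarith
      obtain ⟨j, hj⟩ : ∃ j, 2 * r.val + 1 = s.val + j := ⟨2 * r.val + 1 - s.val, by omega⟩
      have h7 : dp (2 * r.val + 1) s.val (x n) * x₀ ^ s.val / x₀ ^ (2 * r.val + 1) - E₀ s r =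
          E₀ s r * ((ξ / x₀) ^ j - 1) := by
        rw [h6, show 2 * r.val + 1 - s.val = j by omega, hE₀]
        simp only
        rw [show x₀ ^ (2 * r.val + 1) = x₀ ^ s.val * x₀ ^ j by rw [hj, pow_add], div_pow]
        field_simp
      have hsk : (s.val : ℝ) ≤ k := by exact_mod_cast s.2.le
      have h8 : 1 ≤ ξ / x₀ := (one_le_div hx).2 (by linarith [(hT n hn h0).1, hξ.1])
      have h9 : ξ / x₀ ≤ 1 + ρ := (div_le_iff₀ hx).2 (by linarith [(hT n hn h0).2, hξ.2])
      have h10 : 1 ≤ (ξ / x₀) ^ j := one_le_pow₀ h8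
      have h11 : (ξ / x₀) ^ j ≤ (1 + ρ) ^ (2 * k) :=
        (pow_le_pow_left₀ (by linarith) h9 j).trans
          (pow_le_pow_right₀ (by linarith) (by have := r.2; omega))
      rw [h7, abs_of_nonneg (by nlinarith)]
      gcongr
      linarith
    rw [Real.dist_eq, e1]
    refine (abs_sum_le_sum_abs _ _).trans ((sum_le_sum e2).trans ?_)
    rw [← sum_mul, ← sum_div, hs, div_self hμ.ne', one_mul]
  have h12 := h2 E hdist
  rw [Real.dist_eq, abs_lt] at h12
  have h13 : (of fun s r : Fin k => ∑ n ∈ T, w n * dp (2 * r.val + 1) s.val (x n)).det =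
      (μ ^ k * Wt k x₀) * (of E).det := by
    have e : (of fun s r : Fin k => ∑ n ∈ T, w n * dp (2 * r.val + 1) s.val (x n)) =
        of fun s r : Fin k => (x₀ ^ s.val)⁻¹ *
          (of fun s r : Fin k => (μ * x₀ ^ (2 * r.val + 1)) * (of E) s r) s r := by
      ext s r
      simp only [of_apply, hE]
      field_simp
    rw [e, det_mul_column, det_mul_row, ← mul_assoc, ← prod_mul_distrib]
    congr 1
    have : μ ^ k = ∏ _r : Fin k, μ := by simp
    rw [Wt, this, ← prod_mul_distrib]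
    refine prod_congr rfl fun r _ => ?_
    rw [show 2 * r.val + 1 = r.val + (r.val + 1) by ring, pow_add x₀ r.val (r.val + 1)]
    field_simp
  have h14 : 0 < μ ^ k * Wt k x₀ := mul_pos (by positivity) (Wt_pos k hx)
  rw [det_newton, h13]
  constructor <;> nlinarith [h12.1, h12.2]

/-- Coefficients given by counting pairs. -/
noncomputable def cf (M : ℕ) (e : ℕ → ℕ → ℕ) (w : ℝ) (n : ℕ) : ℝ :=
  ∑ p ∈ range M, ∑ q ∈ range M, if e p q = n then w else 0

theorem cf_nonneg (M : ℕ) (e : ℕ → ℕ → ℕ) {w : ℝ} (hw : 0 ≤ w) (n : ℕ) : 0 ≤ cf M e w n :=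
  sum_nonneg fun _ _ => sum_nonneg fun _ _ => by split_ifs <;> simp [hw]

theorem cf_sum (M : ℕ) (e : ℕ → ℕ → ℕ) (w : ℝ) (T : Finset ℕ) (g : ℕ → ℝ) :
    ∑ n ∈ T, cf M e w n * g n =
      ∑ p ∈ range M, ∑ q ∈ range M, if e p q ∈ T then w * g (e p q) else 0 := by
  simp only [cf, sum_mul, ite_mul, zero_mul]
  rw [sum_comm]
  refine sum_congr rfl fun p _ => ?_
  rw [sum_comm]
  exact sum_congr rfl fun q _ => by rw [sum_ite_eq]

theorem cf_le (M : ℕ) (e : ℕ → ℕ → ℕ) {w : ℝ} (hw : 0 ≤ w) (n : ℕ) (f g : ℕ → ℕ)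
    (he : ∀ p, ∀ q < M, e p q = n → q = f p ∨ q = g p) : cf M e w n ≤ M * (2 * w) := by
  have : ∀ p ∈ range M, (∑ q ∈ range M, if e p q = n then w else 0) ≤ 2 * w := by
    intro p _
    rw [← sum_filter, sum_const, nsmul_eq_mul]
    gcongr
    have h1 : (range M).filter (fun q => e p q = n) ⊆ {f p, g p} := fun q hq => by
      simpa using he p q (mem_range.1 (mem_filter.1 hq).1) (mem_filter.1 hq).2
    exact_mod_cast (card_le_card h1).trans card_le_two
  simpa [cf] using sum_le_sum this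

theorem cf_ne (M : ℕ) (e : ℕ → ℕ → ℕ) (w : ℝ) (n : ℕ) (h : cf M e w n ≠ 0) :
    ∃ p < M, ∃ q < M, e p q = n := by
  obtain ⟨p, hp, h1⟩ := exists_ne_zero_of_sum_ne_zero h
  obtain ⟨q, hq, h2⟩ := exists_ne_zero_of_sum_ne_zero h1
  exact ⟨p, mem_range.1 hp, q, mem_range.1 hq, by by_contra h3; simp [h3] at h2⟩

theorem fejer (M : ℕ) (c t : ℝ) :
    ∑ p ∈ range M, ∑ q ∈ range M, cos ((c + p - q) * t) =
      cos (c * t) * ((∑ p ∈ range M, cos (p * t)) ^ 2 + (∑ p ∈ range M, sin (p * t)) ^ 2) := by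
  have e : ∀ p q : ℕ, cos ((c + p - q) * t) =
      cos (c * t) * (cos (p * t) * cos (q * t)) + cos (c * t) * (sin (p * t) * sin (q * t)) -
        sin (c * t) * (sin (p * t) * cos (q * t)) + sin (c * t) * (cos (p * t) * sin (q * t)) := by
    intro p q
    rw [show (c + p - q) * t = c * t + (p * t - q * t) by ring, cos_add, cos_sub, sin_sub]
    ring
  simp only [e, sum_add_distrib, sum_sub_distrib, ← mul_sum, ← sum_mul]
  ring

/-- The damping part. -/
noncomputable def al (M : ℕ) : ℕ → ℝ := cf M Nat.dist (1 / (2 * M ^ 2))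

/-- The high frequency part. -/
noncomputable def be (M c k : ℕ) : ℕ → ℝ := cf M (fun p q => c + p - q) (1 / (4 * k * M ^ 2))

variable {N M c k : ℕ}

theorem be_sum (hM : M ≤ c) (hc : c + M ≤ N) (g : ℕ → ℝ) : ∑ n ∈ Icc 1 N, be M c k n * g n =
    1 / (4 * k * M ^ 2) * ∑ p ∈ range M, ∑ q ∈ range M, g (c + p - q) := by
  rw [be, cf_sum]
  simp only [mul_sum]
  refine sum_congr rfl fun p hp => sum_congr rfl fun q hq => if_pos ?_
  have := mem_range.1 hp
  have := mem_range.1 hq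
  rw [mem_Icc]
  omega

theorem be_mass (hM0 : 1 ≤ M) (hk : 1 ≤ k) (hM : M ≤ c) (hc : c + M ≤ N) :
    ∑ n ∈ Icc 1 N, be M c k n = 1 / (4 * k) := by
  have := be_sum (k := k) hM hc fun _ => 1
  simp only [mul_one, sum_const, card_range, nsmul_eq_mul] at this
  rw [this]
  have : (M : ℝ) ≠ 0 := by positivity
  field_simp

theorem small_fejer (hM0 : 1 ≤ M) (hk : 1 ≤ k) (hM : M ≤ c) (hc : c + M ≤ N) {s : ℝ}
    (hs : s ∈ Set.Icc (0 : ℝ) k) : Small N fun n => al M n + s * be M c k n := by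
  have h1 : ∑ n ∈ Icc 1 N, al M n ≤ 1 / 2 := by
    have := cf_sum M Nat.dist (1 / (2 * M ^ 2)) (Icc 1 N) fun _ => 1
    simp only [mul_one] at this
    rw [al, this]
    calc _ ≤ ∑ _p ∈ range M, ∑ _q ∈ range M, (1 / (2 * M ^ 2) : ℝ) :=
          sum_le_sum fun p _ => sum_le_sum fun q _ => by split_ifs <;> [rfl; positivity]
      _ = 1 / 2 := by
          have : (M : ℝ) ≠ 0 := by positivity
          simp only [sum_const, card_range, nsmul_eq_mul]
          field_simp
  have h2 : ∀ n ∈ Icc 1 N, |al M n + s * be M c k n| = al M n + s * be M c k n := fun n _ =>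
    abs_of_nonneg (add_nonneg (cf_nonneg _ _ (by positivity) _)
      (mul_nonneg hs.1 (cf_nonneg _ _ (by positivity) _)))
  have hk' : (0 : ℝ) < k := by exact_mod_cast hk
  have h3 : s * (1 / (4 * k)) ≤ 1 / 4 := by
    rw [mul_one_div, div_le_div_iff₀ (by positivity) (by positivity)]
    linarith [hs.2]
  rw [Small, sum_congr rfl h2, sum_add_distrib, ← mul_sum, be_mass hM0 hk hM hc]
  linarith

theorem abs_fejer (hM0 : 1 ≤ M) (hk : 1 ≤ k) (hM : M ≤ c) {s : ℝ}
    (hs : s ∈ Set.Icc (0 : ℝ) k) (n : ℕ) : |al M n + s * be M c k n| ≤ 2 / M := by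
  have hM' : (0 : ℝ) < M := by exact_mod_cast hM0
  have hk' : (0 : ℝ) < k := by exact_mod_cast hk
  have h1 : al M n ≤ M * (2 * (1 / (2 * M ^ 2))) :=
    cf_le M _ (by positivity) n (fun p => p + n) (fun p => p - n) fun p q _ h => by
      rw [Nat.dist] at h
      omega
  have h2 : be M c k n ≤ M * (2 * (1 / (4 * k * M ^ 2))) :=
    cf_le M _ (by positivity) n (fun p => c + p - n) (fun p => c + p - n) fun p q hq h => by omega
  have h3 : 0 ≤ be M c k n := cf_nonneg _ _ (by positivity) _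
  have h4 : s * be M c k n ≤ k * (M * (2 * (1 / (4 * k * M ^ 2)))) :=
    mul_le_mul hs.2 h2 h3 hk'.le
  have h5 : 0 ≤ al M n := cf_nonneg _ _ (by positivity) _
  rw [abs_of_nonneg (add_nonneg h5 (mul_nonneg hs.1 h3))]
  have e1 : (M : ℝ) * (2 * (1 / (2 * M ^ 2))) = 1 / M := by field_simp
  have e2 : (k : ℝ) * (M * (2 * (1 / (4 * k * M ^ 2)))) = 1 / 2 * (1 / M) := by field_simp; ring
  have e3 : (2 : ℝ) / M = 2 * (1 / M) := by ring
  have e4 : (0 : ℝ) < 1 / M := by positivity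
  linarith

theorem Ah_fejer (hM0 : 1 ≤ M) (hk : 1 ≤ k) (hM : M ≤ c) (hc : c + M ≤ N) {s : ℝ}
    (hs : s ∈ Set.Icc (0 : ℝ) k) (t : ℝ) :
    1 - 1 / (2 * M) ≤ Ah N (fun n => al M n + s * be M c k n) t := by
  have hM' : (0 : ℝ) < M := by exact_mod_cast hM0
  have hk' : (0 : ℝ) < k := by exact_mod_cast hk
  set K := (∑ p ∈ range M, cos (p * t)) ^ 2 + (∑ p ∈ range M, sin (p * t)) ^ 2 with hK
  have hK0 : 0 ≤ K := by positivity
  have h1 : ∑ n ∈ Icc 1 N, al M n * cos (n * t) = 1 / (2 * M ^ 2) * (K - M) := by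
    have e : ∀ p ∈ range M, ∀ q ∈ range M, (if Nat.dist p q ∈ Icc 1 N then
        1 / (2 * (M : ℝ) ^ 2) * cos ((Nat.dist p q : ℕ) * t) else 0) =
        1 / (2 * M ^ 2) * (cos (((0 : ℝ) + p - q) * t) - if p = q then 1 else 0) := by
      intro p hp q hq
      have := mem_range.1 hp
      have := mem_range.1 hq
      rcases lt_trichotomy p q with h | h | h
      · rw [if_pos (by rw [mem_Icc, Nat.dist]; omega), if_neg h.ne, Nat.dist_eq_sub_of_le h.le,
          Nat.cast_sub h.le, ← cos_neg]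
        congr 2
        ring_nf
      · simp [h]
      · rw [if_pos (by rw [mem_Icc, Nat.dist]; omega), if_neg h.ne',
          Nat.dist_eq_sub_of_le_right h.le, Nat.cast_sub h.le]
        simp
    rw [al, cf_sum, sum_congr rfl fun p hp => sum_congr rfl (e p hp)]
    simp only [← mul_sum, sum_sub_distrib]
    have e2 : ∑ p ∈ range M, ∑ q ∈ range M, (if p = q then (1 : ℝ) else 0) = ∑ _p ∈ range M, 1 :=
      sum_congr rfl fun p hp => by rw [sum_ite_eq, if_pos hp]
    rw [fejer, e2]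
    simp [hK]
  have h2 : ∑ n ∈ Icc 1 N, be M c k n * cos (n * t) = 1 / (4 * k * M ^ 2) * (cos (c * t) * K) := by
    rw [be_sum hM hc, ← fejer]
    congr 1
    refine sum_congr rfl fun p _ => sum_congr rfl fun q hq => ?_
    have := mem_range.1 hq
    rw [Nat.cast_sub (by omega)]
    simp
  have h3 : -(1 / (4 * M ^ 2) * K) ≤ s * (1 / (4 * k * M ^ 2) * (cos (c * t) * K)) := by
    have a1 : -(k : ℝ) ≤ s * cos (c * t) := by nlinarith [neg_one_le_cos (c * t), hs.1, hs.2]
    have a2 : 0 ≤ 1 / (4 * k * (M : ℝ) ^ 2) * K := by positivity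
    have a3 : 1 / (4 * (M : ℝ) ^ 2) * K = k * (1 / (4 * k * M ^ 2) * K) := by field_simp
    nlinarith
  simp only [Ah, add_mul, sum_add_distrib, mul_assoc s, ← mul_sum]
  rw [h1, h2]
  have e1 : 1 / (2 * (M : ℝ) ^ 2) * (K - M) = 2 * (1 / (4 * M ^ 2) * K) - 1 / (2 * M) := by
    field_simp
    ring
  have e2 : 0 ≤ 1 / (4 * (M : ℝ) ^ 2) * K := by positivity
  linarith

theorem Fh_fejer (hM0 : 1 ≤ M) (hk : 1 ≤ k) (hM : M ≤ c) (hc : c + M ≤ N) {s : ℝ}
    (hs : s ∈ Set.Icc (0 : ℝ) k) {R : ℝ} (hR : (N : ℝ) ≤ R * M) (θ : Fin N → ℝ) :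
    |Fh N (fun n => al M n + s * be M c k n) θ| ≤ exp (6 * R + 8 * R ^ 2) := by
  have hM' : (1 : ℝ) ≤ M := by exact_mod_cast hM0
  have hS := small_fejer hM0 hk hM hc hs
  have hN : (N : ℝ) * (2 * (2 / M)) ≤ 4 * R := by
    rw [show (N : ℝ) * (2 * (2 / M)) = 4 * (N / M) by ring]
    have := (div_le_iff₀ (by positivity)).2 hR
    linarith
  have hN0 : 0 ≤ (N : ℝ) * (2 * (2 / M)) := by positivity
  have h1 := det_sq_le _ _ (abs_Em (N := N) (2 / M) (fun n _ => abs_fejer hM0 hk hM hs n)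
    (by positivity))
  have h2 : |(1 + Em N fun n => al M n + s * be M c k n).det| ≤ exp (4 * R + 8 * R ^ 2) := by
    refine abs_le_of_sq_le_sq' (h1.trans ?_) (exp_pos _).le |> abs_le.2
    rw [← exp_nat_mul]
    refine exp_le_exp.2 ?_
    push_cast
    nlinarith
  have h3 : ∀ t, psi N (fun n => al M n + s * be M c k n) t ≤ exp (2 / M) := by
    intro t
    have a1 := Ah_fejer hM0 hk hM hc hs t
    have a2 : exp (-(1 / M)) ≤ 1 - 1 / (2 * M) := by
      have b1 : 0 < 1 / (M : ℝ) := by positivity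
      have b2 : 1 / (M : ℝ) ≤ 1 := (div_le_one (by positivity)).2 hM'
      have b3 := add_one_le_exp (1 / (M : ℝ))
      rw [exp_neg, show 1 / (2 * (M : ℝ)) = 1 / M / 2 by ring, inv_le_comm₀ (exp_pos _) (by linarith)]
      refine le_trans ?_ b3
      rw [inv_le_comm₀ (by linarith) (by linarith), inv_eq_one_div, div_le_iff₀ (by linarith)]
      nlinarith
    have a3 : exp (-(1 / M)) ^ 2 ≤ Ah N (fun n => al M n + s * be M c k n) t ^ 2 :=
      pow_le_pow_left₀ (exp_pos _).le (a2.trans a1) 2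
    rw [psi, inv_le_comm₀ (hS.den_pos t) (exp_pos _), ← exp_neg]
    rw [← exp_nat_mul] at a3
    have a4 : ((2 : ℕ) : ℝ) * -(1 / M) = -(2 / M) := by push_cast; ring
    rw [a4] at a3
    nlinarith [sq_nonneg (Bh N (fun n => al M n + s * be M c k n) t)]
  have h4 : |∏ i, psi N (fun n => al M n + s * be M c k n) (θ i)| ≤ exp (2 * R) := by
    have a0 : ∀ t, 0 ≤ psi N (fun n => al M n + s * be M c k n) t := fun t =>
      inv_nonneg.2 (hS.den_pos t).le
    rw [abs_of_nonneg (prod_nonneg fun i _ => a0 _)]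
    refine (prod_le_prod (fun i _ => a0 _) fun i _ => h3 _).trans ?_
    rw [prod_const, card_univ, Fintype.card_fin, ← exp_nat_mul]
    exact exp_le_exp.2 (by linarith)
  rw [Fh, abs_mul, show 6 * R + 8 * R ^ 2 = (4 * R + 8 * R ^ 2) + 2 * R by ring, exp_add]
  gcongr

end Pool.Agent.KMom
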