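import Pool.Agent.P.MP_ea46f5_nt.One

set_option autoImplicit false

/-! The `N`-dimensional integrals and the determinant identities. -/

namespace Pool.Agent.KMom

open MeasureTheory Real Finset Matrix

variable {N : ℕ} {h : ℕ → ℝ}

/-- Integral over the cube. -/
noncomputable def IN (N : ℕ) (g : (Fin N → ℝ) → ℝ) : ℝ := ∫ θ in box N, g θ

theorem box_compact : IsCompact (box N) := isCompact_univ_pi fun _ => isCompact_Icc

theorem intgN {g : (Fin N → ℝ) → ℝ} (hg : Continuous g) : Integrable g (volume.restrict (box N)) :=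
  hg.continuousOn.integrableOn_compact box_compact

theorem IN_smul (c : ℝ) (g : (Fin N → ℝ) → ℝ) : IN N (fun θ => c * g θ) = c * IN N g :=
  integral_const_mul c g

theorem IN_add {f g : (Fin N → ℝ) → ℝ} (hf : Continuous f) (hg : Continuous g) :
    IN N (fun θ => f θ + g θ) = IN N f + IN N g := integral_add (intgN hf) (intgN hg)

theorem IN_sum {ι : Type} (T : Finset ι) {g : ι → (Fin N → ℝ) → ℝ} (hg : ∀ i ∈ T, Continuous (g i)) :
    IN N (fun θ => ∑ i ∈ T, g i θ) = ∑ i ∈ T, IN N (g i) :=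
  integral_finsetSum T fun i hi => intgN (hg i hi)

theorem IN_prod (f : Fin N → ℝ → ℝ) : IN N (fun θ => ∏ i, f i (θ i)) = ∏ i, I1 (f i) := by
  rw [IN, box, volume_pi, Measure.restrict_pi_pi]
  exact integral_fintype_prod_eq_prod f

theorem IN_pos {g : (Fin N → ℝ) → ℝ} (hg : Continuous g) (h0 : ∀ θ, 0 ≤ g θ) (θ₀ : Fin N → ℝ)
    (h1 : ∀ i, θ₀ i ∈ Set.Ioo 0 π) (h2 : g θ₀ ≠ 0) : 0 < IN N g := by
  rw [IN, setIntegral_pos_iff_support_of_nonneg_ae (ae_of_all _ h0) (intgN hg)]
  have ho : IsOpen (Function.support g ∩ Set.univ.pi fun _ : Fin N => Set.Ioo 0 π) :=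
    hg.isOpen_support.inter (isOpen_set_pi Set.finite_univ fun _ _ => isOpen_Ioo)
  refine (ho.measure_pos volume ⟨θ₀, h2, fun i _ => h1 i⟩).trans_le (measure_mono ?_)
  exact fun θ hθ => ⟨hθ.1, fun i hi => Set.Ioo_subset_Icc_self (hθ.2 i hi)⟩

theorem expand (g u v : Fin N → ℝ → ℝ) (hg : ∀ i, Continuous (g i)) (hu : ∀ i, Continuous (u i))
    (hv : ∀ i, Continuous (v i)) :
    IN N (fun θ => (∏ i, g i (θ i)) * ((of fun m i => u m (θ i)).det * (of fun j i => v j (θ i)).det))
      = ∑ σ : Equiv.Perm (Fin N), ∑ τ : Equiv.Perm (Fin N),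
        ((Equiv.Perm.sign σ : ℤ) : ℝ) * ((Equiv.Perm.sign τ : ℤ) : ℝ) *
          ∏ i, I1 fun t => g i t * u (σ i) t * v (τ i) t := by
  have e : (fun θ : Fin N → ℝ => (∏ i, g i (θ i)) *
      ((of fun m i => u m (θ i)).det * (of fun j i => v j (θ i)).det)) = fun θ =>
      ∑ σ : Equiv.Perm (Fin N), ∑ τ : Equiv.Perm (Fin N),
        ((Equiv.Perm.sign σ : ℤ) : ℝ) * ((Equiv.Perm.sign τ : ℤ) : ℝ) *
          ∏ i, (g i (θ i) * u (σ i) (θ i) * v (τ i) (θ i)) := by
    funext θ
    rw [det_apply', det_apply', sum_mul_sum, mul_sum]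
    refine sum_congr rfl fun σ _ => ?_
    rw [mul_sum]
    refine sum_congr rfl fun τ _ => ?_
    simp only [of_apply, prod_mul_distrib]
    ring
  rw [e, IN_sum _ fun σ _ => by fun_prop]
  refine sum_congr rfl fun σ _ => ?_
  rw [IN_sum _ fun τ _ => by fun_prop]
  refine sum_congr rfl fun τ _ => ?_
  rw [IN_smul, IN_prod fun i t => g i t * u (σ i) t * v (τ i) t]

theorem double_sum (Q : Matrix (Fin N) (Fin N) ℝ) :
    ∑ σ : Equiv.Perm (Fin N), ∑ τ : Equiv.Perm (Fin N),
        ((Equiv.Perm.sign σ : ℤ) : ℝ) * ((Equiv.Perm.sign τ : ℤ) : ℝ) * ∏ i, Q (σ i) (τ i) =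
      N.factorial * Q.det := by
  have e : ∀ σ : Equiv.Perm (Fin N), ∑ τ : Equiv.Perm (Fin N),
      ((Equiv.Perm.sign σ : ℤ) : ℝ) * ((Equiv.Perm.sign τ : ℤ) : ℝ) * ∏ i, Q (σ i) (τ i) = Q.det := by
    intro σ
    have h1 := det_permute σ Q
    rw [← det_transpose, det_apply'] at h1
    simp only [transpose_apply, submatrix_apply, id] at h1
    simp only [mul_assoc]
    rw [← mul_sum, h1, ← mul_assoc]
    rcases Int.units_eq_one_or (Equiv.Perm.sign σ) with h | h <;> simp [h]
  simp [e, Fintype.card_perm]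

open Polynomial in
/-- The polynomials with `p_m (2 cos t) sin t = sin ((m+1) t)`. -/
noncomputable def cheb : ℕ → ℝ[X]
  | 0 => 1
  | 1 => X
  | m + 2 => X * cheb (m + 1) - cheb m

theorem cheb_realize : True := by
  have := @cheb.eq_def
  trivial

open Polynomial in
theorem cheb_spec (m : ℕ) : ((cheb m).Monic ∧ (cheb m).natDegree = m) ∧
    ∀ t : ℝ, (cheb m).eval (2 * cos t) * sin t = sin ((m + 1) * t) := by
  induction m using Nat.twoStepInduction with
  | zero => simp [cheb]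
  | one =>
    refine ⟨by simp [cheb], fun t => ?_⟩
    rw [show ((1 : ℕ) + 1 : ℝ) * t = 2 * t by push_cast; ring, sin_two_mul]
    simp [cheb]
    ring
  | more m h0 h1 =>
    have a1 : (X * cheb (m + 1)).Monic := monic_X.mul h1.1.1
    have a2 : (X * cheb (m + 1)).natDegree = m + 2 := by
      rw [monic_X.natDegree_mul h1.1.1, h1.1.2, natDegree_X]
      ring
    have a3 : (cheb m).degree < (X * cheb (m + 1)).degree := by
      apply degree_lt_degree
      rw [a2, h0.1.2]
      omega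
    refine ⟨⟨a1.sub_of_left a3, ?_⟩, fun t => ?_⟩
    · rw [cheb, natDegree_sub_eq_left_of_natDegree_lt (by rw [a2, h0.1.2]; omega), a2]
    · have b0 := h0.2 t
      have b1 := h1.2 t
      rw [cheb, eval_sub, eval_mul, eval_X, sub_mul, mul_assoc, b0, b1]
      push_cast
      rw [show ((m : ℝ) + 2 + 1) * t = (m + 1 + 1) * t + t by ring,
        show ((m : ℝ) + 1) * t = (m + 1 + 1) * t - t by ring, sin_add, sin_sub]
      ring

/-- The Weyl denominator. -/
noncomputable def aD (θ : Fin N → ℝ) : ℝ :=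
  (of fun (m i : Fin N) => sin (((m.val + 1 : ℕ) : ℝ) * θ i)).det

theorem weyl_eq (θ : Fin N → ℝ) : weyl θ = aD θ * aD θ := by
  have h1 := det_eval_matrixOfPolynomials_eq_det_vandermonde (fun i => 2 * cos (θ i))
    (fun i : Fin N => cheb i) (fun i => (cheb_spec i).1.2) fun i => (cheb_spec i).1.1
  have h2 : aD θ = (∏ i, sin (θ i)) * (vandermonde fun i => 2 * cos (θ i)).det := by
    rw [h1, ← det_mul_column, aD, ← det_transpose]
    congr 1
    ext i j
    simp only [transpose_apply, of_apply]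
    push_cast
    rw [← (cheb_spec j).2, mul_comm]
  rw [h2, det_vandermonde, weyl]
  simp only [prod_pow]
  ring

theorem cont_weyl : Continuous (weyl : (Fin N → ℝ) → ℝ) := by
  unfold weyl
  fun_prop

theorem cont_Z : Continuous (Z : (Fin N → ℝ) → ℝ) := by
  unfold Z
  fun_prop

theorem IN_Z_pos (k : ℕ) : 0 < IN N fun θ => Z θ ^ k * weyl θ := by
  have c1 := @cont_weyl N
  have c2 := @cont_Z N
  have hZ : ∀ θ : Fin N → ℝ, 0 ≤ Z θ := fun θ =>
    prod_nonneg fun i _ => by linarith [cos_le_one (θ i)]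
  have hm : ∀ i : Fin N, (((i.val + 1 : ℕ) : ℝ) / (N + 1)) ∈ Set.Ioo 0 π := by
    intro i
    refine ⟨by positivity, lt_of_le_of_lt ?_ (by linarith [pi_gt_three] : (1 : ℝ) < π)⟩
    rw [div_le_one (by positivity)]
    exact_mod_cast Nat.succ_le_succ i.2.le
  refine IN_pos (by fun_prop) (fun θ => mul_nonneg (pow_nonneg (hZ θ) k) ?_)
    (fun i => ((i.val + 1 : ℕ) : ℝ) / (N + 1)) hm (mul_ne_zero (pow_ne_zero _ ?_) ?_)
  · rw [weyl_eq]
    exact mul_self_nonneg _
  · refine prod_ne_zero_iff.2 fun i _ h0 => ?_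
    have : cos (((i.val + 1 : ℕ) : ℝ) / (N + 1)) = cos 0 := by rw [cos_zero]; linarith
    exact (hm i).1.ne' (injOn_cos (Set.Ioo_subset_Icc_self (hm i)) ⟨le_rfl, pi_pos.le⟩ this)
  · refine mul_ne_zero (prod_ne_zero_iff.2 fun i _ => pow_ne_zero _
      (sin_pos_of_pos_of_lt_pi (hm i).1 (hm i).2).ne')
      (prod_ne_zero_iff.2 fun i _ => prod_ne_zero_iff.2 fun j hj => pow_ne_zero _ fun h0 => ?_)
    have : cos (((j.val + 1 : ℕ) : ℝ) / (N + 1)) = cos (((i.val + 1 : ℕ) : ℝ) / (N + 1)) := by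
      linarith
    have h3 := injOn_cos (Set.Ioo_subset_Icc_self (hm j)) (Set.Ioo_subset_Icc_self (hm i)) this
    rw [div_left_inj' (by positivity)] at h3
    have h4 : j.val + 1 = i.val + 1 := by exact_mod_cast h3
    have h5 : i < j := mem_Ioi.1 hj
    omega

theorem IN_weyl_pos : 0 < IN N weyl := by simpa using IN_Z_pos (N := N) 0

variable (N h) in
/-- The perturbation of the identity in the Toeplitz minus Hankel matrix. -/
noncomputable def Em : Matrix (Fin N) (Fin N) ℝ := of fun j m => ∑ n ∈ Icc 1 N,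
  h n * ((if n + m.val = j.val then 1 else 0) - if n = j.val + m.val + 2 then 1 else 0)

theorem sin_rep (j : Fin N) {n : ℕ} (hn : n ∈ Icc 1 N) (t : ℝ) :
    sin ((((j.val + 1 : ℕ) : ℝ) - n) * t) = ∑ m : Fin N,
      ((if n + m.val = j.val then 1 else 0) - if n = j.val + m.val + 2 then 1 else 0) *
        sin (((m.val + 1 : ℕ) : ℝ) * t) := by
  have hj := j.2
  obtain ⟨hn1, hn2⟩ := mem_Icc.1 hn
  rcases lt_trichotomy n (j.val + 1) with h1 | h1 | h1
  · rw [sum_eq_single ⟨j.val - n, by omega⟩]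
    · rw [if_pos (by simp only; omega), if_neg (by simp only; omega)]
      have : ((j.val - n + 1 : ℕ) : ℝ) = ((j.val + 1 : ℕ) : ℝ) - n := by
        rw [show j.val - n + 1 = j.val + 1 - n by omega, Nat.cast_sub (by omega)]
      simp only [this]
      ring
    · intro m _ hm
      rw [if_neg fun h => hm (Fin.ext (by simp only; omega)), if_neg (by omega)]
      ring
    · simp
  · rw [sum_eq_zero fun m _ => by rw [if_neg (by omega), if_neg (by omega)]; ring, h1]
    simp
  · rw [sum_eq_single ⟨n - j.val - 2, by omega⟩]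
    · rw [if_neg (by simp only; omega), if_pos (by simp only; omega)]
      have : ((n - j.val - 2 + 1 : ℕ) : ℝ) = -(((j.val + 1 : ℕ) : ℝ) - n) := by
        rw [show n - j.val - 2 + 1 = n - (j.val + 1) by omega, Nat.cast_sub (by omega)]
        ring
      simp only [this]
      rw [neg_mul, sin_neg]
      ring
    · intro m _ hm
      rw [if_neg (by omega), if_neg fun h => hm (Fin.ext (by simp only; omega))]
      ring
    · simp

variable (N h) in
/-- The tilted density. -/
noncomputable def Fh (θ : Fin N → ℝ) : ℝ := (1 + Em N h).det * ∏ i, psi N h (θ i)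

theorem Small.cont_Fh (hs : Small N h) : Continuous (Fh N h) := by
  have := hs.cont_psi
  unfold Fh
  fun_prop

theorem det_phi (θ : Fin N → ℝ) :
    (of fun (j i : Fin N) => phi N h (j.val + 1) (θ i)).det = Fh N h θ * aD θ := by
  have e : (of fun (j i : Fin N) => phi N h (j.val + 1) (θ i)) = of fun j i => psi N h (θ i) *
      ((1 + Em N h) * of fun (m i : Fin N) => sin (((m.val + 1 : ℕ) : ℝ) * θ i)) j i := by
    ext j i
    rw [of_apply, of_apply, phi_eq, Matrix.add_mul, Matrix.one_mul, Matrix.add_apply, of_apply,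
      mul_apply]
    congr 2
    simp only [Em, of_apply, sum_mul]
    rw [sum_comm]
    refine sum_congr rfl fun n hn => ?_
    rw [sin_rep j hn, mul_sum]
    exact sum_congr rfl fun m _ => by ring
  rw [e, det_mul_row, det_mul, Fh, aD]
  ring

theorem Small.IN_Fh (hs : Small N h) (g : Fin N → ℝ → ℝ) (hg : ∀ i, Continuous (g i)) :
    IN N (fun θ => Fh N h θ * (∏ i, g i (θ i)) * weyl θ) =
      ∑ σ : Equiv.Perm (Fin N), ∑ τ : Equiv.Perm (Fin N),
        ((Equiv.Perm.sign σ : ℤ) : ℝ) * ((Equiv.Perm.sign τ : ℤ) : ℝ) *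
          ∏ i, sf N h (fun t => g i t * sin ((((σ i).val + 1 : ℕ) : ℝ) * t)) ((τ i).val + 1) := by
  have := expand g (fun m t => sin (((m.val + 1 : ℕ) : ℝ) * t)) (fun j => phi N h (j.val + 1)) hg
    (fun i => by fun_prop) fun i => hs.cont_phi _
  simp only [sf]
  rw [← this]
  congr 1
  funext θ
  rw [det_phi, weyl_eq, ← aD]
  ring

theorem pd_mono {S : Set ℝ} {J : ℕ} {α β : ℕ → ℝ} (hS : ∀ s ∈ S, Small N fun n => α n + s * β n)
    (hβ : ∀ n, n < J → β n = 0) (e : Fin N → ℕ) :
    PD S J (fun s => IN N fun θ =>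
      Fh N (fun n => α n + s * β n) θ * (∏ i, cos (θ i) ^ e i) * weyl θ) (∑ i, e i : ℕ) := by
  refine PD.congr ?_ fun s hs => (hS s hs).IN_Fh (fun i t => cos t ^ e i) fun i => by fun_prop
  refine pd_sum _ fun σ _ => pd_sum _ fun τ _ => PD.smul ?_ _
  refine (pd_prod _ fun i _ => pd_sf hS hβ (bl_mono (e i) ((σ i).val + 1)) ((τ i).val + 1)).mono
    (le_of_eq ?_)
  push_cast
  rw [sum_sub_distrib, sum_add_distrib, Equiv.sum_comp σ fun i => (i.val : ℤ) + 1,
    Equiv.sum_comp τ fun i => (i.val : ℤ) + 1]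
  ring

/-- The functions `(2 - 2 cos t)^k sin ((i+1) t)`. -/
noncomputable def fZ (k i : ℕ) (t : ℝ) : ℝ := (2 - 2 * cos t) ^ k * sin (((i + 1 : ℕ) : ℝ) * t)

theorem Small.IN_FZ (hs : Small N h) (k : ℕ) : IN N (fun θ => Fh N h θ * Z θ ^ k * weyl θ) =
    N.factorial * (of fun i j : Fin N => sf N h (fZ k i) (j.val + 1)).det := by
  rw [← double_sum]
  have := hs.IN_Fh (fun _ t => (2 - 2 * cos t) ^ k) fun _ => by fun_prop
  simp only [prod_pow] at this
  exact this

theorem IN_Z (k : ℕ) : IN N (fun θ => Z θ ^ k * weyl θ) =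
    N.factorial * (of fun i j : Fin N => fh (fZ k i) (j.val + 1)).det := by
  rw [← double_sum]
  have := expand (N := N) (fun _ t => (2 - 2 * cos t) ^ k)
    (fun m t => sin (((m.val + 1 : ℕ) : ℝ) * t)) (fun m t => sin (((m.val + 1 : ℕ) : ℝ) * t))
    (fun _ => by fun_prop) (fun i => by fun_prop) fun i => by fun_prop
  simp only [prod_pow] at this
  simp only [weyl_eq]
  exact this

variable (N h) in
/-- All coefficients of `h`. -/
noncomputable def hh (a b : ℕ) : ℝ :=
  (if a = b then 1 else 0) + ∑ n ∈ Icc 1 N, if a = b + n then h n else 0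

theorem sum_hh (K b : ℕ) (hb : b < K) (x : ℕ → ℝ) (hx : ∀ a, K ≤ a → x a = 0) :
    ∑ a ∈ range K, x a * hh N h a b = x b + ∑ n ∈ Icc 1 N, h n * x (b + n) := by
  simp only [hh, mul_add, sum_add_distrib, mul_ite, mul_one, mul_zero, mul_sum]
  rw [sum_ite_eq', if_pos (mem_range.2 hb), sum_comm]
  congr 1
  refine sum_congr rfl fun n _ => ?_
  rw [sum_ite_eq']
  split_ifs with h1
  · ring
  · rw [hx _ (by simpa using h1), mul_zero]

theorem hh_sum (K a : ℕ) (ha : a < K) (hN : N ≤ a) (y : ℝ → ℝ) :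
    ∑ b ∈ range K, hh N h a b * y b = y a + ∑ n ∈ Icc 1 N, h n * y (a - n) := by
  simp only [hh, add_mul, sum_add_distrib, ite_mul, one_mul, zero_mul, sum_mul]
  rw [sum_ite_eq, if_pos (mem_range.2 ha), sum_comm]
  congr 1
  refine sum_congr rfl fun n hn => ?_
  have hn2 := (mem_Icc.1 hn).2
  rw [sum_eq_single (a - n), if_pos (by omega), Nat.cast_sub (by omega)]
  · intro b _ hb
    rw [if_neg (by omega)]
  · intro hb
    exact absurd (mem_range.2 (by omega)) hb

theorem sum_idx (k : ℕ) (G : ℕ → ℝ) :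
    ∑ a : Fin N ⊕ Fin k, G (finSumFinEquiv a).val = ∑ j ∈ range (N + k), G j := by
  rw [Equiv.sum_comp finSumFinEquiv fun a => G a.val, Fin.sum_univ_eq_sum_range]

variable (N h) in
/-- The small matrix. -/
noncomputable def Wm (k : ℕ) : Matrix (Fin k) (Fin k) ℝ := of fun l r =>
  ((N : ℝ) + l.val + 1) ^ (2 * r.val + 1) +
    ∑ n ∈ Icc 1 N, h n * ((N : ℝ) + l.val - n + 1) ^ (2 * r.val + 1)

/-- The small matrix for `h = 1`. -/
noncomputable def Ym (N k : ℕ) : Matrix (Fin k) (Fin k) ℝ := of fun l r =>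
  ((N : ℝ) + l.val + 1) ^ (2 * r.val + 1)

theorem Small.block (hs : Small N h) (k : ℕ) :
    (of fun i j : Fin N => sf N h (fZ k i) (j.val + 1)).det * (Ym N k).det =
      (of fun i j : Fin N => fh (fZ k i) (j.val + 1)).det * (Wm N h k).det := by
  have hB : ∀ i : Fin N, BL (fZ k i) (N + k) := fun i =>
    (bl_Z k (i.val + 1)).mono (by have := i.2; omega)
  set ι : Fin N ⊕ Fin k → ℕ := fun a => (finSumFinEquiv a).val with hι
  have ι1 : ∀ i, ι (Sum.inl i) = i.val := fun i => by simp [hι]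
  have ι2 : ∀ i, ι (Sum.inr i) = N + i.val := fun i => by simp [hι]
  set X : Matrix (Fin N ⊕ Fin k) (Fin N ⊕ Fin k) ℝ :=
    fromBlocks (of fun i j : Fin N => sf N h (fZ k i) (j.val + 1))
      (of fun (i : Fin N) (j : Fin k) => sf N h (fZ k i) (N + j.val + 1)) 0 1 with hX
  set H : Matrix (Fin N ⊕ Fin k) (Fin N ⊕ Fin k) ℝ := of fun a b => hh N h (ι a) (ι b) with hH
  set M : Matrix (Fin N ⊕ Fin k) (Fin N ⊕ Fin k) ℝ := fromBlocks 1
    (of fun (i : Fin N) (r : Fin k) => ((i.val : ℝ) + 1) ^ (2 * r.val + 1)) 0 (Ym N k) with hM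
  have dH : H.det = 1 := by
    have : H = (of fun a b : Fin (N + k) => hh N h a.val b.val).submatrix finSumFinEquiv
      finSumFinEquiv := rfl
    rw [this, det_submatrix_equiv_self, det_of_isLowerTriangular]
    · refine prod_eq_one fun a _ => ?_
      rw [of_apply, hh, if_pos rfl, sum_eq_zero, add_zero]
      intro n hn
      rw [if_neg (by have := (mem_Icc.1 hn).1; omega)]
    · intro a b hab
      have : a.val < b.val := hab
      rw [of_apply, hh, if_neg (by omega), sum_eq_zero, add_zero]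
      intro n _
      rw [if_neg (by omega)]
  have hX1 : ∀ i a, X (Sum.inl i) a = sf N h (fZ k i) (ι a + 1) := by
    intro i a
    rcases a with a | a
    · simp [hX, ι1]
    · simp [hX, ι2]
  have hM2 : ∀ a r, M a (Sum.inr r) = ((ι a : ℝ) + 1) ^ (2 * r.val + 1) := by
    intro a r
    rcases a with a | a
    · simp [hM, ι1]
    · simp [hM, ι2, Ym]
  have r1 : ∀ i b, (X * H) (Sum.inl i) b = fh (fZ k i) (ι b + 1) := by
    intro i b
    rw [mul_apply]
    simp only [hX1, hH, of_apply]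
    rw [sum_idx k fun a => sf N h (fZ k i) (a + 1) * hh N h a (ι b),
      sum_hh _ _ (finSumFinEquiv b).2 _ fun a ha => hs.sf_zero (hB i) _ (by omega),
      ← hs.rec_sf (hB i).1]
    simp only [add_right_comm]
    rfl
  have r2 : ∀ l b, (X * H) (Sum.inr l) b = hh N h (N + l.val) (ι b) := by
    intro l b
    rw [mul_apply, Fintype.sum_sum_type]
    simp [hX, hH, one_apply, ι2]
  have key : X * H * M = fromBlocks (of fun i j : Fin N => fh (fZ k i) (j.val + 1)) 0
      (of fun l j => (X * H * M) (Sum.inr l) (Sum.inl j)) (Wm N h k) := by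
    ext a b
    rcases a with a | a <;> rcases b with b | b
    · rw [mul_apply, Fintype.sum_sum_type]
      simp [r1, hM, one_apply, ι1]
    · rw [mul_apply]
      simp only [r1, hM2]
      rw [sum_idx k fun j => fh (fZ k a) (j + 1) * ((j : ℝ) + 1) ^ (2 * b.val + 1)]
      have := kernel k (a.val + 1) (Polynomial.X ^ (2 * b.val + 1))
        (fun x => by simp [Odd.neg_pow ⟨b.val, rfl⟩])
        (by rw [Polynomial.degree_X_pow]; have := b.2; exact_mod_cast (by omega))
        (N + k) (by have := a.2; omega)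
      simp only [Polynomial.eval_pow, Polynomial.eval_X] at this
      refine Eq.trans (sum_congr rfl fun j _ => ?_) this
      rw [Nat.cast_add j 1, Nat.cast_one]
      rfl
    · simp
    · rw [mul_apply]
      simp only [r2, hM2]
      rw [sum_idx k fun j => hh N h (N + a.val) j * ((j : ℝ) + 1) ^ (2 * b.val + 1),
        hh_sum _ _ (by have := a.2; omega) (by omega) fun y => (y + 1) ^ (2 * b.val + 1)]
      simp [Wm]
  have := congrArg det key
  rw [det_mul, det_mul, dH, det_fromBlocks_zero₁₂, hX, hM, det_fromBlocks_zero₂₁,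
    det_fromBlocks_zero₂₁] at this
  simpa using this

theorem Small.ratio (hs : Small N h) (k : ℕ) :
    IN N (fun θ => Fh N h θ * Z θ ^ k * weyl θ) * (Ym N k).det =
      IN N (fun θ => Z θ ^ k * weyl θ) * (Wm N h k).det := by
  rw [hs.IN_FZ, IN_Z, mul_assoc, hs.block, mul_assoc]

theorem det_sq_le (E : Matrix (Fin N) (Fin N) ℝ) (b : ℝ) (hE : ∀ j m, |E j m| ≤ b) :
    (1 + E).det ^ 2 ≤ exp (2 * (N * b) + (N * b) ^ 2) := by
  have hP := posSemidef_conjTranspose_mul_self (1 + E)
  have h1 := hP.1.det_eq_prod_eigenvalues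
  have h2 := hP.1.trace_eq_sum_eigenvalues
  rw [det_mul, det_conjTranspose] at h1
  simp only [star_trivial, RCLike.ofReal_real_eq_id, id] at h1 h2
  have h3 : ∏ i, hP.1.eigenvalues i ≤ ∏ i, exp (hP.1.eigenvalues i - 1) :=
    prod_le_prod (fun i _ => hP.eigenvalues_nonneg i) fun i _ => by
      linarith [add_one_le_exp (hP.1.eigenvalues i - 1)]
  rw [sq, h1]
  refine h3.trans ?_
  rw [← exp_sum, sum_sub_distrib, ← h2]
  refine exp_le_exp.2 ?_
  have h4 : ∀ m : Fin N, ((1 + E)ᴴ * (1 + E) : Matrix (Fin N) (Fin N) ℝ) m m ≤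
      1 + 2 * b + N * b ^ 2 := by
    intro m
    have e : ((1 + E)ᴴ * (1 + E) : Matrix (Fin N) (Fin N) ℝ) m m =
        1 + 2 * E m m + ∑ j, E j m ^ 2 := by
      rw [conjTranspose_add, conjTranspose_one, Matrix.add_mul, Matrix.mul_add, Matrix.mul_add,
        Matrix.one_mul, Matrix.one_mul, Matrix.mul_one]
      simp only [Matrix.add_apply, one_apply_eq, conjTranspose_apply, star_trivial, mul_apply, sq]
      ring
    have e2 : ∑ j, E j m ^ 2 ≤ ∑ _j : Fin N, b ^ 2 :=
      sum_le_sum fun j _ => sq_le_sq' (abs_le.1 (hE j m)).1 (abs_le.1 (hE j m)).2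
    simp only [sum_const, card_univ, Fintype.card_fin, nsmul_eq_mul] at e2
    linarith [(abs_le.1 (hE m m)).2]
  have h5 : ((1 + E)ᴴ * (1 + E)).trace ≤ ∑ _m : Fin N, (1 + 2 * b + N * b ^ 2) :=
    sum_le_sum fun m _ => h4 m
  simp only [sum_const, card_univ, Fintype.card_fin, nsmul_eq_mul, mul_one] at h5 ⊢
  nlinarith

theorem abs_Em (b : ℝ) (hb : ∀ n ∈ Icc 1 N, |h n| ≤ b) (hb0 : 0 ≤ b) (j m : Fin N) :
    |Em N h j m| ≤ 2 * b := by
  have e : ∀ (p : ℕ → Prop) [DecidablePred p], (∀ n n', p n → p n' → n = n') →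
      |∑ n ∈ Icc 1 N, h n * if p n then 1 else 0| ≤ b := by
    intro p _ hp
    by_cases hex : ∃ n ∈ Icc 1 N, p n
    · obtain ⟨n, hn, hpn⟩ := hex
      rw [sum_eq_single n, if_pos hpn, mul_one]
      · exact hb n hn
      · intro n' _ hne
        rw [if_neg fun h' => hne (hp _ _ h' hpn), mul_zero]
      · exact fun h' => absurd hn h'
    · rw [sum_eq_zero fun n hn => by rw [if_neg fun h' => hex ⟨n, hn, h'⟩, mul_zero]]
      simpa using hb0
  have e1 := e (fun n => n + m.val = j.val) fun n n' _ _ => by omega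
  have e2 := e (fun n => n = j.val + m.val + 2) fun n n' _ _ => by omega
  simp only [Em, of_apply, mul_sub, sum_sub_distrib]
  exact (abs_sub _ _).trans (by linarith)

end Pool.Agent.KMom
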